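import Pool.Agent.H251R6.SDD.Defs

/-!
Bihomogeneous ideals: a general linear form is a nonzero divisor in large degrees.
-/

set_option autoImplicit false

namespace Pool.Agent.T6.H19.KS

open MvPolynomial Pool.Agent.H251R6.SDD

section sat

variable {S : Type} [CommRing S]

/-- The saturation of an ideal with respect to an element. -/
def sat (J : Ideal S) (z : S) : Ideal S where
  carrier := {P | ∃ e : ℕ, z ^ e * P ∈ J}
  add_mem' := by
    rintro a b ⟨e, he⟩ ⟨f, hf⟩
    refine ⟨e + f, ?_⟩
    have h1 : z ^ (e + f) * (a + b) = z ^ f * (z ^ e * a) + z ^ e * (z ^ f * b) := by ring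
    rw [h1]
    exact J.add_mem (J.mul_mem_left _ he) (J.mul_mem_left _ hf)
  zero_mem' := ⟨0, by simp⟩
  smul_mem' := by
    rintro c a ⟨e, he⟩
    refine ⟨e, ?_⟩
    have h1 : z ^ e * (c • a) = c * (z ^ e * a) := by
      rw [smul_eq_mul]; ring
    rw [h1]
    exact J.mul_mem_left _ he

theorem mem_sat {J : Ideal S} {z P : S} : P ∈ sat J z ↔ ∃ e : ℕ, z ^ e * P ∈ J := Iff.rfl

theorem le_sat (J : Ideal S) (z : S) : J ≤ sat J z := fun P hP => ⟨0, by simpa using hP⟩

theorem sat_sat {J : Ideal S} {z P : S} (h : z * P ∈ sat J z) : P ∈ sat J z := by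
  obtain ⟨e, he⟩ := h
  refine ⟨e + 1, ?_⟩
  rwa [pow_succ, mul_assoc]

theorem sat_uniform [IsNoetherianRing S] (J : Ideal S) (z : S) :
    ∃ E : ℕ, ∀ P ∈ sat J z, z ^ E * P ∈ J := by
  obtain ⟨s, hs⟩ := IsNoetherian.noetherian (sat J z)
  have h1 : ∀ g : S, ∃ e : ℕ, g ∈ s → z ^ e * g ∈ J := by
    intro g
    by_cases hg : g ∈ s
    · have h2 : g ∈ sat J z := by
        rw [← hs]
        exact Submodule.subset_span hg
      obtain ⟨e, he⟩ := h2
      exact ⟨e, fun _ => he⟩
    · exact ⟨0, fun h => absurd h hg⟩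
  choose e he using h1
  refine ⟨s.sup e, fun P hP => ?_⟩
  rw [← hs] at hP
  induction hP using Submodule.span_induction with
  | mem g hg =>
    have h2 : e g ≤ s.sup e := Finset.le_sup hg
    have h3 : z ^ s.sup e * g = z ^ (s.sup e - e g) * (z ^ e g * g) := by
      rw [← mul_assoc, ← pow_add, Nat.sub_add_cancel h2]
    rw [h3]
    exact J.mul_mem_left _ (he g hg)
  | zero => simp
  | add a b _ _ ha hb =>
    rw [mul_add]
    exact J.add_mem ha hb
  | smul c a _ ha =>
    have h3 : z ^ s.sup e * (c • a) = c * (z ^ s.sup e * a) := by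
      rw [smul_eq_mul]; ring
    rw [h3]
    exact J.mul_mem_left _ ha

/-- A nonzero divisor modulo an ideal outside of the associated primes. -/
theorem nzd_of_notMem [IsNoetherianRing S] (J : Ideal S) {x : S}
    (hx : ∀ p ∈ associatedPrimes S (S ⧸ J), x ∉ p) {P : S} (h : x * P ∈ J) : P ∈ J := by
  by_contra hP
  have h1 : x ∈ { r : S | ∃ y : S ⧸ J, y ≠ 0 ∧ r • y = 0 } := by
    refine ⟨Ideal.Quotient.mk J P, ?_, ?_⟩
    · rwa [Ne, Ideal.Quotient.eq_zero_iff_mem]
    · rw [← Ideal.Quotient.mk_eq_mk, ← Submodule.Quotient.mk_smul, Submodule.Quotient.mk_eq_zero]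
      simpa using h
  rw [← biUnion_associatedPrimes_eq_zero_divisors] at h1
  simp only [Set.mem_iUnion] at h1
  obtain ⟨p, hp, hxp⟩ := h1
  exact hx p hp hxp

theorem notMem_of_associated [IsNoetherianRing S] (J : Ideal S) {z : S} {p : Ideal S}
    (hz : ∀ P, z * P ∈ J → P ∈ J) (hp : p ∈ associatedPrimes S (S ⧸ J)) : z ∉ p := by
  intro hzp
  have h1 : z ∈ ⋃ p ∈ associatedPrimes S (S ⧸ J), (p : Set S) := by
    simp only [Set.mem_iUnion]
    exact ⟨p, hp, hzp⟩
  rw [biUnion_associatedPrimes_eq_zero_divisors] at h1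
  obtain ⟨y, hy, hzy⟩ := h1
  obtain ⟨P, rfl⟩ := Ideal.Quotient.mk_surjective y
  rw [← Ideal.Quotient.mk_eq_mk, ← Submodule.Quotient.mk_smul, Submodule.Quotient.mk_eq_zero]
    at hzy
  apply hy
  rw [Ideal.Quotient.eq_zero_iff_mem]
  exact hz P (by simpa using hzy)

end sat

section CA

variable {k ι : Type} [Field k] [Fintype ι]

/-- Bihomogeneous ideals. -/
def BiHom (J : Ideal (MvPolynomial (ι ⊕ ι) k)) : Prop :=
  ∀ P ∈ J, ∀ d : ℕ × ℕ, weightedHomogeneousComponent (biWeight ι) d P ∈ J

theorem weight_eq (ν : ι ⊕ ι →₀ ℕ) :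
    Finsupp.weight (biWeight ι) ν = (∑ i, ν (Sum.inl i), ∑ i, ν (Sum.inr i)) := by
  classical
  rw [Finsupp.weight_apply, Finsupp.sum_fintype _ _ (fun i => by simp)]
  rw [Fintype.sum_sum_type]
  simp only [biWeight, Sum.elim_inl, Sum.elim_inr]
  ext
  · simp [Prod.fst_sum]
  · simp [Prod.snd_sum]

theorem comp_mul_left {P x : MvPolynomial (ι ⊕ ι) k} {d e : ℕ × ℕ}
    (hx : IsWeightedHomogeneous (biWeight ι) x e) :
    weightedHomogeneousComponent (biWeight ι) (e + d) (x * P) =
      x * weightedHomogeneousComponent (biWeight ι) d P := by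
  classical
  have h1 : P = ∑ᶠ d, weightedHomogeneousComponent (biWeight ι) d P :=
    (finsum_weightedHomogeneousComponent (biWeight ι) P).symm
  have hf := weightedHomogeneousComponent_finsupp (w := biWeight ι) P
  rw [finsum_eq_sum _ hf] at h1
  have h2 : x * P = ∑ d ∈ hf.toFinset, x * weightedHomogeneousComponent (biWeight ι) d P := by
    rw [← Finset.mul_sum, ← h1]
  rw [h2, map_sum]
  have h3 : ∀ d' ∈ hf.toFinset, weightedHomogeneousComponent (biWeight ι) (e + d)
      (x * weightedHomogeneousComponent (biWeight ι) d' P) =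
      if d' = d then x * weightedHomogeneousComponent (biWeight ι) d P else 0 := by
    intro d' _
    have h4 : IsWeightedHomogeneous (biWeight ι)
        (x * weightedHomogeneousComponent (biWeight ι) d' P) (e + d') :=
      hx.mul (weightedHomogeneousComponent_isWeightedHomogeneous d' P)
    split_ifs with h
    · subst h
      exact h4.weightedHomogeneousComponent_same
    · exact h4.weightedHomogeneousComponent_ne _ (fun h5 => h (by
        have := add_left_cancel h5
        exact this.symm))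
  rw [Finset.sum_congr rfl h3, Finset.sum_ite_eq']
  split_ifs with h
  · rfl
  · have h' : weightedHomogeneousComponent (biWeight ι) d P = 0 := by
      by_contra hne
      exact h ((Set.Finite.mem_toFinset _).2 hne)
    rw [h', mul_zero]

/-- The linear form in the first group of variables with given coefficients. -/
noncomputable def lin (c : ι → k) : MvPolynomial (ι ⊕ ι) k := ∑ i, C (c i) * X (Sum.inl i)

theorem lin_hom (c : ι → k) : IsWeightedHomogeneous (biWeight ι) (lin c) (1, 0) := by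
  refine IsWeightedHomogeneous.sum _ _ _ (fun i _ => ?_)
  have h1 := (isWeightedHomogeneous_C (biWeight ι) (c i)).mul
    (isWeightedHomogeneous_X k (biWeight ι) (Sum.inl i))
  rw [zero_add] at h1
  exact h1

/-- The linear forms with a given ideal. -/
noncomputable def linMap : (ι → k) →ₗ[k] MvPolynomial (ι ⊕ ι) k :=
  ∑ i, (LinearMap.toSpanSingleton k (MvPolynomial (ι ⊕ ι) k) (X (Sum.inl i))).comp
    (LinearMap.proj i)

theorem linMap_apply (c : ι → k) : linMap c = lin c := by
  simp only [linMap, LinearMap.sum_apply, LinearMap.comp_apply, LinearMap.proj_apply,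
    LinearMap.toSpanSingleton_apply, lin, smul_eq_C_mul]

theorem linMap_single [DecidableEq ι] (i : ι) :
    linMap (Pi.single i (1 : k)) = X (Sum.inl i) := by
  rw [linMap_apply, lin, Finset.sum_eq_single i]
  · simp
  · intro j _ hj
    simp [hj]
  · intro h
    exact absurd (Finset.mem_univ i) h

/-- A linear form outside of finitely many ideals, none of which contains all variables. -/
theorem exists_lin [Infinite k] (T : Set (Ideal (MvPolynomial (ι ⊕ ι) k))) (hT : T.Finite)
    (h : ∀ p ∈ T, ∃ i : ι, (X (Sum.inl i) : MvPolynomial (ι ⊕ ι) k) ∉ p) :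
    ∃ c : ι → k, ∀ p ∈ T, lin c ∉ p := by
  classical
  let V : Ideal (MvPolynomial (ι ⊕ ι) k) → Submodule k (ι → k) :=
    fun p => (p.restrictScalars k).comap linMap
  let s : Finset (Subspace k (ι → k)) := (hT.toFinset).image V
  have hs : ⊤ ∉ s := by
    intro htop
    obtain ⟨p, hp, hVp⟩ := Finset.mem_image.1 htop
    rw [Set.Finite.mem_toFinset] at hp
    obtain ⟨i, hi⟩ := h p hp
    apply hi
    have h1 : (Pi.single i (1 : k)) ∈ V p := by
      rw [hVp]
      exact Submodule.mem_top
    rw [Submodule.mem_comap, linMap_single] at h1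
    exact h1
  have h1 := Subspace.biUnion_ne_univ_of_top_notMem hs
  obtain ⟨c, hc⟩ : ∃ c, c ∉ ⋃ p ∈ s, (p : Set (ι → k)) := by
    by_contra hcon
    push Not at hcon
    exact h1 (Set.eq_univ_of_forall hcon)
  refine ⟨c, fun p hp hcp => hc ?_⟩
  simp only [Set.mem_iUnion]
  refine ⟨V p, Finset.mem_image_of_mem _ (by rwa [Set.Finite.mem_toFinset]), ?_⟩
  rw [SetLike.mem_coe, Submodule.mem_comap, linMap_apply]
  exact hcp

/-- monomials of large degree in the first group of variables -/
theorem mono_mem {J : Ideal (MvPolynomial (ι ⊕ ι) k)} {G : MvPolynomial (ι ⊕ ι) k} {E : ι → ℕ}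
    (hG : ∀ i, X (Sum.inl i) ^ E i * G ∈ J) {ν : ι ⊕ ι →₀ ℕ}
    (hν : ∑ i, E i < ∑ i, ν (Sum.inl i)) (c : k) : monomial ν c * G ∈ J := by
  classical
  obtain ⟨i, -, hi⟩ : ∃ i ∈ Finset.univ, E i < ν (Sum.inl i) := Finset.exists_lt_of_sum_lt hν
  have h1 : ν = (ν - Finsupp.single (Sum.inl i) (E i)) + Finsupp.single (Sum.inl i) (E i) := by
    rw [tsub_add_cancel_of_le]
    rw [Finsupp.single_le_iff]
    exact hi.le
  have h2 : monomial ν c = monomial (ν - Finsupp.single (Sum.inl i) (E i)) c *
      X (Sum.inl i) ^ E i := by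
    rw [X_pow_eq_monomial, monomial_mul, mul_one, ← h1]
  rw [h2, mul_assoc]
  exact J.mul_mem_left _ (hG i)

theorem exists_nzd [Infinite k] [Nonempty ι] (J : Ideal (MvPolynomial (ι ⊕ ι) k))
    (hJ : BiHom J) :
    ∃ c : ι → k, lin c ≠ 0 ∧ ∃ B : ℕ, ∀ (b a : ℕ) (P : MvPolynomial (ι ⊕ ι) k), B ≤ b →
      IsWeightedHomogeneous (biWeight ι) P (b, a) → lin c * P ∈ J → P ∈ J := by
  classical
  -- the finitely many primes to avoid
  let T : Set (Ideal (MvPolynomial (ι ⊕ ι) k)) :=
    {⊥} ∪ ⋃ i : ι, associatedPrimes (MvPolynomial (ι ⊕ ι) k)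
      (MvPolynomial (ι ⊕ ι) k ⧸ sat J (X (Sum.inl i)))
  have hT : T.Finite := by
    refine (Set.finite_singleton _).union (Set.finite_iUnion (fun i => ?_))
    exact associatedPrimes.finite _ _
  obtain ⟨c, hc⟩ := exists_lin T hT (by
    intro p hp
    rcases hp with hp | hp
    · rw [Set.mem_singleton_iff] at hp
      subst hp
      refine ⟨Classical.arbitrary ι, ?_⟩
      rw [Ideal.mem_bot]
      exact X_ne_zero _
    · rw [Set.mem_iUnion] at hp
      obtain ⟨i, hi⟩ := hp
      exact ⟨i, notMem_of_associated _ (fun P hP => sat_sat hP) hi⟩)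
  refine ⟨c, ?_, ?_⟩
  · intro h0
    exact hc ⊥ (Or.inl rfl) (by rw [h0]; exact Ideal.zero_mem _)
  have huni : ∀ i : ι, ∃ E : ℕ, ∀ P ∈ sat J (X (Sum.inl i)), X (Sum.inl i) ^ E * P ∈ J :=
    fun i => sat_uniform J _
  choose E hE using huni
  -- the colon ideal
  let Q : Ideal (MvPolynomial (ι ⊕ ι) k) :=
    { carrier := {P | lin c * P ∈ J}
      add_mem' := by
        intro a b ha hb
        show lin c * (a + b) ∈ J
        rw [mul_add]
        exact J.add_mem ha hb
      zero_mem' := by
        show lin c * 0 ∈ J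
        rw [mul_zero]
        exact J.zero_mem
      smul_mem' := by
        intro r a ha
        show lin c * (r * a) ∈ J
        have h1 : lin c * (r * a) = r * (lin c * a) := by ring
        rw [h1]
        exact J.mul_mem_left _ ha }
  have hQE : ∀ P ∈ Q, ∀ i, X (Sum.inl i) ^ E i * P ∈ J := by
    intro P hP i
    apply hE
    refine nzd_of_notMem (sat J (X (Sum.inl i))) (x := lin c) ?_ (le_sat _ _ hP)
    intro p hp
    exact hc p (Or.inr (Set.mem_iUnion.2 ⟨i, hp⟩))
  have hQhom : ∀ P ∈ Q, ∀ d, weightedHomogeneousComponent (biWeight ι) d P ∈ Q := by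
    intro P hP d
    show lin c * _ ∈ J
    rw [← comp_mul_left (lin_hom c)]
    exact hJ _ hP _
  obtain ⟨s, hs⟩ := IsNoetherian.noetherian Q
  -- a bound for the degrees of the components of the generators
  have hbd : ∃ B0 : ℕ, ∀ g ∈ s, ∀ ν ∈ g.support, (∑ i, ν (Sum.inl i)) ≤ B0 := by
    refine ⟨s.sup (fun g => g.support.sup (fun ν => ∑ i, ν (Sum.inl i))), fun g hg ν hν => ?_⟩
    exact (Finset.le_sup (f := fun ν : ι ⊕ ι →₀ ℕ => ∑ i, ν (Sum.inl i)) hν).trans
      (Finset.le_sup (f := fun g : MvPolynomial (ι ⊕ ι) k =>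
        g.support.sup (fun ν => ∑ i, ν (Sum.inl i))) hg)
  obtain ⟨B0, hB0⟩ := hbd
  refine ⟨B0 + (∑ i, E i) + 1, fun b a P hb hP hPJ => ?_⟩
  have hPQ : P ∈ Q := hPJ
  -- components of large degree of elements of `Q` are in `J`
  have hkey : ∀ g ∈ s, ∀ ν : ι ⊕ ι →₀ ℕ, ∀ r : k, ∀ d : ℕ × ℕ, B0 + (∑ i, E i) + 1 ≤ d.1 →
      weightedHomogeneousComponent (biWeight ι) d (monomial ν r * g) ∈ J := by
    intro g hg ν r d hd
    have hw : IsWeightedHomogeneous (biWeight ι) (monomial ν r) (Finsupp.weight (biWeight ι) ν) :=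
      isWeightedHomogeneous_monomial _ _ _ rfl
    by_cases hd2 : ∃ d', d = Finsupp.weight (biWeight ι) ν + d'
    · obtain ⟨d', rfl⟩ := hd2
      rw [comp_mul_left hw]
      by_cases hz : weightedHomogeneousComponent (biWeight ι) d' g = 0
      · rw [hz, mul_zero]
        exact J.zero_mem
      have hd' : d'.1 ≤ B0 := by
        obtain ⟨ν', hν'⟩ := support_nonempty.2 hz
        rw [support_weightedHomogeneousComponent, Finset.mem_filter] at hν'
        have h2 := hB0 g hg ν' hν'.1
        rw [← hν'.2, weight_eq]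
        exact h2
      have hcq : weightedHomogeneousComponent (biWeight ι) d' g ∈ Q :=
        hQhom g (by rw [← hs]; exact Submodule.subset_span hg) d'
      refine mono_mem (hQE _ hcq) ?_ r
      rw [weight_eq] at hd
      simp only [Prod.fst_add] at hd
      omega
    · have hz : weightedHomogeneousComponent (biWeight ι) d (monomial ν r * g) = 0 := by
        rw [weightedHomogeneousComponent_eq_zero']
        intro μ hμ hμd
        apply hd2
        have h3 : μ ∈ (monomial ν r * g).support := hμ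
        have h4 := support_mul _ _ h3
        rw [Finset.mem_add] at h4
        obtain ⟨x, hx, y, hy, rfl⟩ := h4
        have h5 := support_monomial_subset hx
        rw [Finset.mem_singleton] at h5
        subst h5
        exact ⟨Finsupp.weight (biWeight ι) y, by rw [← hμd, map_add]⟩
      rw [hz]
      exact J.zero_mem
  have hall : ∀ P' ∈ Submodule.span (MvPolynomial (ι ⊕ ι) k)
      (s : Set (MvPolynomial (ι ⊕ ι) k)), ∀ d : ℕ × ℕ,
      B0 + (∑ i, E i) + 1 ≤ d.1 → weightedHomogeneousComponent (biWeight ι) d P' ∈ J := by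
    intro P' hP' d hd
    obtain ⟨f, -, rfl⟩ := Submodule.mem_span_finset.1 hP'
    rw [map_sum]
    refine J.sum_mem (fun g hg => ?_)
    rw [smul_eq_mul, (f g).as_sum, Finset.sum_mul, map_sum]
    exact J.sum_mem (fun ν _ => hkey g hg ν _ d hd)
  have h5 := hall P (by rw [hs]; exact hPQ) (b, a) hb
  rwa [hP.weightedHomogeneousComponent_same] at h5

end CA

end Pool.Agent.T6.H19.KS
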