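import Mathlib

/-!
A lower bound for functions of two variables which are polynomials of total degree `r` and whose
iterated differences are nonnegative.
-/

set_option autoImplicit false

namespace Pool.Agent.T6.H19.KS

open Finset

/-- the coefficients of `X ^ i - (X - 1) ^ i` -/
noncomputable def dq (i : ℕ) : Polynomial ℚ :=
  Polynomial.X ^ i - (Polynomial.X - Polynomial.C 1) ^ i

theorem dq_coeff_ge {i l : ℕ} (h : i ≤ l) : (dq i).coeff l = 0 := by
  have h1 : (Polynomial.X - Polynomial.C (1 : ℚ)).natDegree = 1 := Polynomial.natDegree_X_sub_C 1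
  rcases h.eq_or_lt with rfl | h
  · rw [dq, Polynomial.coeff_sub, Polynomial.coeff_X_pow, if_pos rfl]
    have h2 : ((Polynomial.X - Polynomial.C (1 : ℚ)) ^ i).Monic :=
      (Polynomial.monic_X_sub_C (1 : ℚ)).pow i
    have h3 : ((Polynomial.X - Polynomial.C (1 : ℚ)) ^ i).natDegree = i := by
      rw [Polynomial.natDegree_pow, h1, mul_one]
    have h4 := h2.coeff_natDegree
    rw [h3] at h4
    rw [h4, sub_self]
  · rw [dq, Polynomial.coeff_sub, Polynomial.coeff_X_pow, if_neg h.ne', zero_sub, neg_eq_zero]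
    apply Polynomial.coeff_eq_zero_of_natDegree_lt
    rwa [Polynomial.natDegree_pow, h1, mul_one]

theorem dq_coeff_pred (i : ℕ) : (dq (i + 1)).coeff i = i + 1 := by
  induction i with
  | zero => simp [dq]
  | succ i ih =>
    have h1 : dq (i + 1 + 1) = Polynomial.X * dq (i + 1) +
        (Polynomial.X - Polynomial.C 1) ^ (i + 1) := by
      simp only [dq]
      ring_nf
      simp only [map_one]
      ring
    rw [h1, Polynomial.coeff_add, Polynomial.coeff_X_mul, ih]
    have h2 : ((Polynomial.X - Polynomial.C (1 : ℚ)) ^ (i + 1)).Monic :=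
      (Polynomial.monic_X_sub_C (1 : ℚ)).pow _
    have h3 : ((Polynomial.X - Polynomial.C (1 : ℚ)) ^ (i + 1)).natDegree = i + 1 := by
      rw [Polynomial.natDegree_pow, Polynomial.natDegree_X_sub_C, mul_one]
    have h4 := h2.coeff_natDegree
    rw [h3] at h4
    rw [h4]
    push_cast
    ring

theorem dq_eval (i R0 : ℕ) (hi : i ≤ R0) (x : ℚ) :
    x ^ i - (x - 1) ^ i = ∑ l ∈ range R0, (dq i).coeff l * x ^ l := by
  have h1 : x ^ i - (x - 1) ^ i = (dq i).eval x := by simp [dq]
  rw [h1]
  rcases Nat.eq_zero_or_pos i with rfl | hpos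
  · have h0 : dq 0 = 0 := by simp [dq]
    simp [h0]
  · apply Polynomial.eval_eq_sum_range'
    have h2 : (dq i).natDegree ≤ i - 1 := by
      rw [Polynomial.natDegree_le_iff_coeff_eq_zero]
      intro l hl
      exact dq_coeff_ge (by omega)
    omega

/-- A function `G 0` of two variables which is for large arguments a polynomial `∑ c i j b^i a^j`
of total degree at most `r`, and whose iterated differences `G i` in the first variable are
natural numbers, is at least `C(b - B', r - 1) ((r - 1)! c (r - 1) 1 a - γ)`. -/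
theorem lower (R0 : ℕ) (r : ℕ) : ∀ (c : ℕ → ℕ → ℚ) (G : ℕ → ℕ → ℕ → ℕ) (B : ℕ), r + 2 ≤ R0 →
    (∀ i j, r + 1 < i + j → c i j = 0) →
    (∀ b ≥ B, ∀ a ≥ B, (G 0 b a : ℚ) =
      ∑ i ∈ range R0, ∑ j ∈ range R0, c i j * (b : ℚ) ^ i * (a : ℚ) ^ j) →
    (∀ i, ∃ B : ℕ, ∀ b ≥ B, ∀ a, G (i + 1) (b + 1) a + G i b a = G i (b + 1) a) →
    0 ≤ c r 1 ∧ ∃ B' γ : ℕ, ∀ b ≥ B', ∀ a ≥ B',
      ((b - B').choose r : ℚ) * ((r.factorial : ℚ) * c r 1 * a - γ) ≤ G 0 b a := by
  induction r with
  | zero =>
    intro c G B hR hc hG hd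
    -- the polynomial is `c 0 0 + c 0 1 a + c 1 0 b`
    have h1 : ∀ b ≥ B, ∀ a ≥ B, (G 0 b a : ℚ) = c 0 0 + c 0 1 * a + c 1 0 * b := by
      intro b hb a ha
      rw [hG b hb a ha]
      have e1 : ∑ i ∈ range R0, ∑ j ∈ range R0, c i j * (b : ℚ) ^ i * (a : ℚ) ^ j =
          ∑ i ∈ range 2, ∑ j ∈ range 2, c i j * (b : ℚ) ^ i * (a : ℚ) ^ j := by
        rw [← sum_product', ← sum_product']
        symm
        refine sum_subset ?_ ?_
        · exact product_subset_product (range_subset_range.2 hR) (range_subset_range.2 hR)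
        · rintro ⟨i, j⟩ _ hij
          simp only [mem_product, mem_range, not_and_or, not_lt] at hij
          rw [hc i j (by omega)]
          ring
      rw [e1]
      simp only [sum_range_succ, sum_range_zero]
      rw [hc 1 1 (by norm_num)]
      push_cast
      ring
    have h2 : 0 ≤ c 1 0 := by
      by_contra hneg
      push Not at hneg
      obtain ⟨n, hn⟩ := exists_nat_gt ((c 0 0 + c 0 1 * B) / (-c 1 0))
      have h3 := h1 (B + n) (by omega) B le_rfl
      have h4 : (0 : ℚ) ≤ (G 0 (B + n) B : ℚ) := Nat.cast_nonneg _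
      rw [h3] at h4
      rw [div_lt_iff₀ (by linarith)] at hn
      push_cast at h4
      have h5 : c 1 0 * B ≤ 0 := mul_nonpos_of_nonpos_of_nonneg hneg.le (Nat.cast_nonneg _)
      nlinarith
    have h2' : 0 ≤ c 0 1 := by
      by_contra hneg
      push Not at hneg
      obtain ⟨n, hn⟩ := exists_nat_gt ((c 0 0 + c 1 0 * B) / (-c 0 1))
      have h3 := h1 B le_rfl (B + n) (by omega)
      have h4 : (0 : ℚ) ≤ (G 0 B (B + n) : ℚ) := Nat.cast_nonneg _
      rw [h3] at h4
      rw [div_lt_iff₀ (by linarith)] at hn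
      push_cast at h4
      have h5 : c 0 1 * B ≤ 0 := mul_nonpos_of_nonpos_of_nonneg hneg.le (Nat.cast_nonneg _)
      nlinarith
    obtain ⟨γ, hγ⟩ := exists_nat_gt (-c 0 0)
    refine ⟨h2', B, γ, fun b hb a ha => ?_⟩
    rw [h1 b hb a ha]
    simp only [Nat.choose_zero_right, Nat.cast_one, one_mul, Nat.factorial_zero]
    have h5 : 0 ≤ c 1 0 * b := mul_nonneg h2 (Nat.cast_nonneg _)
    linarith
  | succ r ih =>
    intro c G B hR hc hG hd
    let c' : ℕ → ℕ → ℚ := fun l j => ∑ i ∈ range R0, c i j * (dq i).coeff l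
    have hc' : ∀ l j, r + 1 < l + j → c' l j = 0 := by
      intro l j hlj
      refine sum_eq_zero (fun i _ => ?_)
      by_cases hi : i ≤ l
      · rw [dq_coeff_ge hi, mul_zero]
      · rw [hc i j (by omega), zero_mul]
    obtain ⟨B0, hB0⟩ := hd 0
    have hG' : ∀ b ≥ max B B0 + 1, ∀ a ≥ max B B0 + 1, (G 1 b a : ℚ) =
        ∑ l ∈ range R0, ∑ j ∈ range R0, c' l j * (b : ℚ) ^ l * (a : ℚ) ^ j := by
      intro b hb a ha
      obtain ⟨b, rfl⟩ : ∃ b', b = b' + 1 := ⟨b - 1, by omega⟩
      have h1 := hB0 b (by omega) a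
      have h2 : (G 1 (b + 1) a : ℚ) = G 0 (b + 1) a - G 0 b a := by
        have h3 : ((G 1 (b + 1) a + G 0 b a : ℕ) : ℚ) = G 0 (b + 1) a := by
          rw [← h1]
        push_cast at h3
        linarith
      rw [h2, hG (b + 1) (by omega) a (by omega), hG b (by omega) a (by omega),
        ← sum_sub_distrib]
      have h4 : ∀ i ∈ range R0, (∑ j ∈ range R0, c i j * ((b + 1 : ℕ) : ℚ) ^ i * (a : ℚ) ^ j) -
          ∑ j ∈ range R0, c i j * (b : ℚ) ^ i * (a : ℚ) ^ j =
          ∑ l ∈ range R0, ∑ j ∈ range R0,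
            c i j * (dq i).coeff l * ((b + 1 : ℕ) : ℚ) ^ l * (a : ℚ) ^ j := by
        intro i hi
        rw [mem_range] at hi
        rw [sum_comm, ← sum_sub_distrib]
        refine sum_congr rfl (fun j _ => ?_)
        have h5 := dq_eval i R0 hi.le ((b + 1 : ℕ) : ℚ)
        have h6 : ((b + 1 : ℕ) : ℚ) - 1 = b := by push_cast; ring
        rw [h6] at h5
        calc c i j * ((b + 1 : ℕ) : ℚ) ^ i * (a : ℚ) ^ j - c i j * (b : ℚ) ^ i * (a : ℚ) ^ j
            = c i j * (a : ℚ) ^ j * (((b + 1 : ℕ) : ℚ) ^ i - (b : ℚ) ^ i) := by ring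
          _ = _ := by
              rw [h5, mul_sum]
              exact sum_congr rfl (fun l _ => by ring)
      rw [sum_congr rfl h4, sum_comm]
      refine sum_congr rfl (fun l _ => ?_)
      rw [sum_comm]
      refine sum_congr rfl (fun j _ => ?_)
      rw [sum_mul, sum_mul]
    obtain ⟨hpos, B', γ, hB'⟩ := ih c' (fun i => G (i + 1)) (max B B0 + 1) (by omega) hc' hG'
      (fun i => hd (i + 1))
    have htop : c' r 1 = (r + 1) * c (r + 1) 1 := by
      show ∑ i ∈ range R0, c i 1 * (dq i).coeff r = _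
      rw [sum_eq_single (r + 1)]
      · rw [dq_coeff_pred]
        ring
      · intro i _ hi
        by_cases h : i ≤ r
        · rw [dq_coeff_ge h, mul_zero]
        · rw [hc i 1 (by omega), zero_mul]
      · intro h
        rw [mem_range] at h
        omega
    refine ⟨by
      rw [htop] at hpos
      have h7 : (0 : ℚ) < r + 1 := by positivity
      exact nonneg_of_mul_nonneg_right hpos h7, max B' B0 + 1, γ, fun b hb a ha => ?_⟩
    set N : ℚ := ((r + 1).factorial : ℚ) * c (r + 1) 1 * a - γ with hN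
    have hN' : (r.factorial : ℚ) * c' r 1 * a - γ = N := by
      rw [hN, htop, Nat.factorial_succ]
      push_cast
      ring
    rcases le_or_gt N 0 with h0 | h0
    · exact (mul_nonpos_of_nonneg_of_nonpos (Nat.cast_nonneg _) h0).trans (Nat.cast_nonneg _)
    -- summation
    have hsum : ∀ t : ℕ, ((t.choose (r + 1) : ℕ) : ℚ) * N ≤ G 0 (max B' B0 + 1 + t) a := by
      intro t
      induction t with
      | zero => simp
      | succ t iht =>
        have h1 := hB0 (max B' B0 + 1 + t) (by omega) a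
        have h2 := hB' (max B' B0 + 1 + t + 1) (by omega) a (by omega)
        rw [hN'] at h2
        have h3 : t.choose r ≤ (max B' B0 + 1 + t + 1 - B').choose r :=
          Nat.choose_le_choose r (by omega)
        have h4 : ((t.choose r : ℕ) : ℚ) * N ≤ G 1 (max B' B0 + 1 + t + 1) a := by
          refine le_trans ?_ h2
          exact mul_le_mul_of_nonneg_right (by exact_mod_cast h3) h0.le
        have h5 : ((G 0 (max B' B0 + 1 + (t + 1)) a : ℕ) : ℚ) =
            G 1 (max B' B0 + 1 + t + 1) a + G 0 (max B' B0 + 1 + t) a := by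
          rw [show max B' B0 + 1 + (t + 1) = max B' B0 + 1 + t + 1 by ring, ← h1]
          push_cast
          ring
        rw [h5, Nat.choose_succ_succ]
        push_cast
        nlinarith
    have h6 := hsum (b - (max B' B0 + 1))
    rwa [show max B' B0 + 1 + (b - (max B' B0 + 1)) = b by omega] at h6

end Pool.Agent.T6.H19.KS
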