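import Pool.Agent.T6.H19.KS.HF
import Pool.Agent.T6.H19.KS.Num

/-!
A lower bound for the bigraded Hilbert function of a graph by the intersection number.
-/

set_option autoImplicit false

namespace Pool.Agent.T6.H19.KS

open MvPolynomial Pool.Agent.H251R6.SDD

variable {k ι : Type} [Field k] [Fintype ι]

theorem comp_mul_mem {I : Ideal (MvPolynomial (ι ⊕ ι) k)} {g : MvPolynomial (ι ⊕ ι) k}
    {e : ℕ × ℕ} (hg : IsWeightedHomogeneous (biWeight ι) g e) (hgI : g ∈ I)
    (A : MvPolynomial (ι ⊕ ι) k) (d : ℕ × ℕ) :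
    weightedHomogeneousComponent (biWeight ι) d (A * g) ∈ I := by
  classical
  by_cases hd : ∃ d', d = e + d'
  · obtain ⟨d', rfl⟩ := hd
    rw [mul_comm, comp_mul_left hg]
    exact I.mul_mem_right _ hgI
  · have hz : weightedHomogeneousComponent (biWeight ι) d (A * g) = 0 := by
      rw [weightedHomogeneousComponent_eq_zero']
      intro μ hμ hμd
      apply hd
      rw [mul_comm] at hμ
      have h4 := support_mul _ _ hμ
      rw [Finset.mem_add] at h4
      obtain ⟨u, hu, v, hv, rfl⟩ := h4
      have h5 : Finsupp.weight (biWeight ι) u = e := hg (mem_support_iff.1 hu)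
      exact ⟨Finsupp.weight (biWeight ι) v, by rw [← hμd, map_add, h5]⟩
    rw [hz]
    exact I.zero_mem

theorem biHom_span {T : Set (MvPolynomial (ι ⊕ ι) k)}
    (hT : ∀ g ∈ T, ∃ e, IsWeightedHomogeneous (biWeight ι) g e) : BiHom (Ideal.span T) := by
  intro P hP d
  induction hP using Submodule.span_induction generalizing d with
  | mem g hg =>
    obtain ⟨e, he⟩ := hT g hg
    have h1 := comp_mul_mem he (Ideal.subset_span hg) 1 d
    rwa [one_mul] at h1
  | zero => rw [map_zero]; exact Ideal.zero_mem _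
  | add a b _ _ ha hb => rw [map_add]; exact Ideal.add_mem _ (ha d) (hb d)
  | smul A x _ hx =>
    classical
    have hf := weightedHomogeneousComponent_finsupp (w := biWeight ι) x
    have h1 : x = ∑ m ∈ hf.toFinset, weightedHomogeneousComponent (biWeight ι) m x := by
      rw [← finsum_eq_sum _ hf]
      exact (finsum_weightedHomogeneousComponent (biWeight ι) x).symm
    rw [h1, smul_eq_mul, Finset.mul_sum, map_sum]
    refine Ideal.sum_mem _ (fun m _ => ?_)
    exact comp_mul_mem (weightedHomogeneousComponent_isWeightedHomogeneous m x) (hx m) A d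

/-- The bihomogeneous ideal of the graph. -/
noncomputable def GI (V : Set (PSpace k ι)) (g : PSpace k ι → PSpace k ι) :
    Ideal (MvPolynomial (ι ⊕ ι) k) :=
  Ideal.span {P | (∃ d, IsWeightedHomogeneous (biWeight ι) P d) ∧ evalGraph V g P = 0}

theorem evalGraph_apply (V : Set (PSpace k ι)) (g : PSpace k ι → PSpace k ι)
    (P : MvPolynomial (ι ⊕ ι) k) (x : V) :
    evalGraph V g P x = aeval (Sum.elim x.1.rep (g x.1).rep) P := rfl

theorem evalGraph_of_mem {V : Set (PSpace k ι)} {g : PSpace k ι → PSpace k ι}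
    {P : MvPolynomial (ι ⊕ ι) k} (hP : P ∈ GI V g) : evalGraph V g P = 0 := by
  induction hP using Submodule.span_induction with
  | mem g hg => exact hg.2
  | zero => exact map_zero _
  | add a b _ _ ha hb => rw [map_add, ha, hb, add_zero]
  | smul A x _ hx =>
    funext v
    have h1 := congrFun hx v
    rw [evalGraph_apply] at h1 ⊢
    rw [smul_eq_mul, map_mul, h1, Pi.zero_apply, mul_zero]

theorem graphHilbert_eq (V : Set (PSpace k ι)) (g : PSpace k ι → PSpace k ι) (b a : ℕ) :
    graphHilbert V g b a = HF (GI V g) b a := by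
  have h1 := LinearMap.finrank_range_add_finrank_ker ((evalGraph V g).comp (BF k ι b a).subtype)
  rw [LinearMap.range_comp, Submodule.range_subtype, LinearMap.ker_comp] at h1
  have h2 := LinearMap.finrank_range_add_finrank_ker
    (((GI V g).restrictScalars k).mkQ.comp (BF k ι b a).subtype)
  rw [LinearMap.range_comp, Submodule.range_subtype, LinearMap.ker_comp, Submodule.ker_mkQ] at h2
  have h3 : (LinearMap.ker (evalGraph V g)).comap (BF k ι b a).subtype =
      ((GI V g).restrictScalars k).comap (BF k ι b a).subtype := by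
    ext ⟨P, hP⟩
    simp only [Submodule.mem_comap, Submodule.subtype_apply, LinearMap.mem_ker,
      Submodule.restrictScalars_mem]
    constructor
    · intro h
      exact Ideal.subset_span ⟨⟨_, hP⟩, h⟩
    · exact evalGraph_of_mem
  rw [h3] at h1
  exact Nat.add_right_cancel (h1.trans h2.symm)

theorem graphHilbert_lower [Infinite k] [Nonempty ι] {V : Set (PSpace k ι)}
    {g : PSpace k ι → PSpace k ι} {r : ℕ} {c : ℕ → ℕ → ℚ}
    (h : ∃ B : ℕ, ∀ b ≥ B, ∀ a ≥ B, (graphHilbert V g b a : ℚ) =
      ∑ i ∈ Finset.range (r + 1 + 1), ∑ j ∈ Finset.range (r + 1 + 1 - i),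
        c i j * b ^ i * a ^ j) :
    0 ≤ c r 1 ∧ ∃ B' γ : ℕ, ∀ b ≥ B', ∀ a ≥ B',
      ((b - B').choose r : ℚ) * ((r.factorial : ℚ) * c r 1 * a - γ) ≤ graphHilbert V g b a := by
  classical
  obtain ⟨B, hB⟩ := h
  obtain ⟨G, hG0, hG⟩ := exists_seq (J := GI V g) (biHom_span (fun g hg => hg.1))
  let c' : ℕ → ℕ → ℚ := fun i j => if i + j ≤ r + 1 then c i j else 0
  have h1 := lower (r + 2) r c' G B le_rfl (fun i j hij => if_neg (by omega)) (by
    intro b hb a ha
    rw [hG0, ← graphHilbert_eq, hB b hb a ha]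
    refine Finset.sum_congr rfl (fun i hi => ?_)
    rw [Finset.mem_range] at hi
    have h2 : Finset.range (r + 1 + 1 - i) ⊆ Finset.range (r + 2) :=
      Finset.range_subset_range.2 (by omega)
    rw [← Finset.sum_subset h2]
    · refine Finset.sum_congr rfl (fun j hj => ?_)
      rw [Finset.mem_range] at hj
      simp only [c']
      rw [if_pos (by omega)]
    · intro j _ hj
      rw [Finset.mem_range] at hj
      simp only [c']
      rw [if_neg (by omega)]
      ring) hG
  obtain ⟨h0, B', γ, h3⟩ := h1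
  simp only [c'] at h0
  rw [if_pos (by omega)] at h0
  refine ⟨h0, B', γ, fun b hb a ha => ?_⟩
  have h4 := h3 b hb a ha
  rw [hG0, ← graphHilbert_eq] at h4
  simp only [c'] at h4
  rwa [if_pos (by omega)] at h4

theorem inter_nonneg [Infinite k] [Nonempty ι] {V : Set (PSpace k ι)}
    {g : PSpace k ι → PSpace k ι} {N : ℚ} (h : HasIntersectionNumber V g N) : 0 ≤ N := by
  obtain ⟨r, c, hpoly, _, hN⟩ := h
  rcases Nat.eq_zero_or_pos r with hr | hr
  · rw [hN, if_pos hr]
    exact zero_le_one
  · obtain ⟨r', rfl⟩ := Nat.exists_eq_succ_of_ne_zero hr.ne'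
    rw [Nat.succ_eq_add_one] at hpoly hN
    obtain ⟨h0, _⟩ := graphHilbert_lower (V := V) (g := g) hpoly
    rw [hN, if_neg (Nat.succ_ne_zero r'), Nat.add_sub_cancel]
    positivity

end Pool.Agent.T6.H19.KS
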