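import Pool.Agent.T6.H19.KS.Desc
import Pool.Agent.T6.H19.KS.Hilb

/-!
Zeros of forms on graphs; the bigraded Hilbert function of a graph grows at least like that of
projective space of the dimension given by a Noether normalization.
-/

set_option autoImplicit false

namespace Pool.Agent.T6.H19.KS

open MvPolynomial Pool.Agent.H251R6.SDD

variable {K k ι : Type} [Field K] [Field k] [Algebra K k] [Fintype ι]

theorem bi_smul {P : MvPolynomial (ι ⊕ ι) k} {b a : ℕ}
    (hP : IsWeightedHomogeneous (biWeight ι) P (b, a)) (c d : k) (u v : ι → k) :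
    aeval (Sum.elim (c • u) (d • v)) P = c ^ b * d ^ a * aeval (Sum.elim u v) P := by
  classical
  rw [aeval_def, aeval_def, eval₂_eq', eval₂_eq', Finset.mul_sum]
  refine Finset.sum_congr rfl (fun ν hν => ?_)
  have h1 := hP (mem_support_iff.1 hν)
  rw [weight_eq, Prod.mk.injEq] at h1
  have h2 : ∏ i, (Sum.elim (c • u) (d • v) i) ^ ν i =
      c ^ b * d ^ a * ∏ i, (Sum.elim u v i) ^ ν i := by
    rw [Fintype.prod_sum_type, Fintype.prod_sum_type]
    simp only [Sum.elim_inl, Sum.elim_inr, Pi.smul_apply, smul_eq_mul, mul_pow,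
      Finset.prod_mul_distrib, Finset.prod_pow_eq_pow_sum]
    rw [h1.1, h1.2]
    ring
  rw [h2]
  ring

/-- Substitution of a tuple of forms for the second group of variables. -/
noncomputable def sbs (F : ι → MvPolynomial ι K) (P : MvPolynomial (ι ⊕ ι) k) :
    MvPolynomial ι k :=
  aeval (Sum.elim X fun j => map (algebraMap K k) (F j)) P

theorem aeval_sbs (F : ι → MvPolynomial ι K) (P : MvPolynomial (ι ⊕ ι) k) (w : ι → k) :
    eval w (sbs F P) = aeval (Sum.elim w fun j => aeval w (F j)) P := by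
  rw [sbs, ← coe_aeval_eq_eval, RingHom.coe_coe, ← AlgHom.comp_apply, comp_aeval]
  congr 2
  funext i
  rcases i with i | i
  · simp
  · simp [aeval_map_algebraMap]

theorem sbs_hom {F : ι → MvPolynomial ι K} {e : ℕ} (hF : ∀ i, (F i).IsHomogeneous e)
    {P : MvPolynomial (ι ⊕ ι) k} {b a : ℕ}
    (hP : IsWeightedHomogeneous (biWeight ι) P (b, a)) : (sbs F P).IsHomogeneous (b + e * a) := by
  classical
  rw [sbs, aeval_def, eval₂_eq']
  refine IsHomogeneous.sum _ _ _ (fun ν hν => ?_)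
  have h1 := hP (mem_support_iff.1 hν)
  rw [weight_eq, Prod.mk.injEq] at h1
  have h2 : (∏ i, (Sum.elim X (fun j => map (algebraMap K k) (F j)) i : MvPolynomial ι k) ^ ν i
      ).IsHomogeneous (b + e * a) := by
    rw [Fintype.prod_sum_type, ← h1.1, ← h1.2, Finset.mul_sum]
    refine IsHomogeneous.mul ?_ ?_
    · refine IsHomogeneous.prod _ _ _ (fun i _ => ?_)
      have := (isHomogeneous_X k i).pow (ν (Sum.inl i))
      rwa [one_mul] at this
    · refine IsHomogeneous.prod _ _ _ (fun i _ => ?_)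
      exact ((hF i).map _).pow _
  have h3 := (isHomogeneous_C ι (coeff ν P)).mul h2
  rwa [zero_add] at h3

theorem tuple_val {V : Set (PSpace k ι)} {g : PSpace k ι → PSpace k ι} {e : ℕ}
    {F : ι → MvPolynomial ι K} (hF : IsTuple K V g e F) {x : PSpace k ι} (hx : x ∈ V) :
    ∃ c : k, (fun j => aeval x.rep (F j)) = c • (g x).rep ∧
      ((fun j => aeval x.rep (F j)) ≠ 0 → c ≠ 0) := by
  by_cases h : (fun j => aeval x.rep (F j)) = 0
  · exact ⟨0, by rw [h, zero_smul], fun h' => absurd h h'⟩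
  · obtain ⟨c, hc, hcw⟩ := exists_rep_smul h
    rw [← hF.2 x hx h] at hcw
    exact ⟨c, hcw, fun _ => hc⟩

theorem sbs_val {V : Set (PSpace k ι)} {g : PSpace k ι → PSpace k ι} {e : ℕ}
    {F : ι → MvPolynomial ι K} (hF : IsTuple K V g e F) {x : PSpace k ι} (hx : x ∈ V)
    {P : MvPolynomial (ι ⊕ ι) k} {b a : ℕ}
    (hP : IsWeightedHomogeneous (biWeight ι) P (b, a)) :
    ∃ c : k, eval x.rep (sbs F P) = c * aeval (Sum.elim x.rep (g x).rep) P ∧
      ((fun j => aeval x.rep (F j)) ≠ 0 → c ≠ 0) := by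
  obtain ⟨c, hc, hc'⟩ := tuple_val hF hx
  refine ⟨c ^ a, ?_, fun h => pow_ne_zero _ (hc' h)⟩
  rw [aeval_sbs, hc]
  have h1 := bi_smul hP 1 c x.rep (g x).rep
  rwa [one_smul, one_pow, one_mul] at h1

/-- The zeros of a form on the graph are closed. -/
theorem closed_graph {V : Set (PSpace k ι)} {g : PSpace k ι → PSpace k ι} (hg : LocRep K V g)
    {P : MvPolynomial (ι ⊕ ι) k} {b a : ℕ}
    (hP : IsWeightedHomogeneous (biWeight ι) P (b, a)) :
    ∃ Z : Set (PSpace k ι), IsZariskiClosed Z ∧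
      ∀ x ∈ V, (x ∈ Z ↔ aeval (Sum.elim x.rep (g x).rep) P = 0) := by
  refine ⟨zeroLocus {G | ∃ (e : ℕ) (F : ι → MvPolynomial ι K), IsTuple K V g e F ∧ G = sbs F P},
    ⟨_, ?_, rfl⟩, fun x hx => ⟨fun h => ?_, fun h => ?_⟩⟩
  · rintro _ ⟨e, F, hF, rfl⟩
    exact ⟨_, sbs_hom hF.1 hP⟩
  · obtain ⟨e, F, hF, i, hi⟩ := hg.2 x hx
    obtain ⟨c, hc, hc'⟩ := sbs_val hF hx hP
    have h1 := h _ ⟨e, F, hF, rfl⟩
    rw [hc] at h1
    exact (mul_eq_zero.1 h1).resolve_left (hc' (fun h0 => hi (congrFun h0 i)))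
  · rintro _ ⟨e, F, hF, rfl⟩
    obtain ⟨c, hc, -⟩ := sbs_val hF hx hP
    rw [hc, h, mul_zero]

/-- On an irreducible variety, a product of two nonzero forms on the graph is nonzero. -/
theorem irred_mul {V : Set (PSpace k ι)} (hV : IsIrred V) {g : PSpace k ι → PSpace k ι}
    (hg : LocRep K V g) {P P' : MvPolynomial (ι ⊕ ι) k} {b a b' a' : ℕ}
    (hP : IsWeightedHomogeneous (biWeight ι) P (b, a))
    (hP' : IsWeightedHomogeneous (biWeight ι) P' (b', a'))
    (h : ∀ x ∈ V, aeval (Sum.elim x.rep (g x).rep) P = 0 ∨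
      aeval (Sum.elim x.rep (g x).rep) P' = 0) :
    (∀ x ∈ V, aeval (Sum.elim x.rep (g x).rep) P = 0) ∨
      ∀ x ∈ V, aeval (Sum.elim x.rep (g x).rep) P' = 0 := by
  obtain ⟨Z, hZ, hZ'⟩ := closed_graph hg hP
  obtain ⟨Z₁, hZ₁, hZ₁'⟩ := closed_graph hg hP'
  rcases hV.2 Z Z₁ hZ hZ₁ (fun x hx => (h x hx).imp (hZ' x hx).2 (hZ₁' x hx).2) with h1 | h1
  · exact Or.inl fun x hx => (hZ' x hx).1 (h1 hx)
  · exact Or.inr fun x hx => (hZ₁' x hx).1 (h1 hx)

/-- A form which does not vanish on the graph gives a form which does not vanish on `V`. -/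
theorem sbs_ne {V : Set (PSpace k ι)} (hV : IsIrred V) {g : PSpace k ι → PSpace k ι}
    (hg : LocRep K V g) {P : MvPolynomial (ι ⊕ ι) k} {b a : ℕ}
    (hP : IsWeightedHomogeneous (biWeight ι) P (b, a))
    (hP0 : ∃ x ∈ V, aeval (Sum.elim x.rep (g x).rep) P ≠ 0) {e : ℕ} {F : ι → MvPolynomial ι K}
    (hF : IsTuple K V g e F) (hF0 : ∃ x ∈ V, ∃ j, aeval x.rep (F j) ≠ 0) :
    ∃ x ∈ V, eval x.rep (sbs F P) ≠ 0 := by
  by_contra hcon
  push Not at hcon
  obtain ⟨Z, hZ, hZ'⟩ := closed_graph hg hP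
  let Z₁ : Set (PSpace k ι) := zeroLocus (Set.range fun j => map (algebraMap K k) (F j))
  have hZ₁ : IsZariskiClosed Z₁ := by
    refine ⟨_, ?_, rfl⟩
    rintro _ ⟨j, rfl⟩
    exact ⟨e, (hF.1 j).map _⟩
  have hcov : ∀ x ∈ V, x ∈ Z ∪ Z₁ := by
    intro x hx
    by_cases h : (fun j => aeval x.rep (F j)) = 0
    · right
      rintro _ ⟨j, rfl⟩
      rw [eval_map, ← aeval_def]
      exact congrFun h j
    · left
      rw [hZ' x hx]
      obtain ⟨c, hc, hc'⟩ := sbs_val hF hx hP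
      have h1 := hcon x hx
      rw [hc] at h1
      exact (mul_eq_zero.1 h1).resolve_left (hc' h)
  rcases hV.2 Z Z₁ hZ hZ₁ hcov with h1 | h1
  · obtain ⟨x, hx, hx0⟩ := hP0
    exact hx0 ((hZ' x hx).1 (h1 hx))
  · obtain ⟨x, hx, j, hj⟩ := hF0
    apply hj
    have h2 := h1 hx _ ⟨j, rfl⟩
    rwa [eval_map, ← aeval_def] at h2

end Pool.Agent.T6.H19.KS
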