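import Mathlib

/-!
Reduction of polynomials modulo the relations of a Noether normalization, with coefficients in a
subring.
-/

set_option autoImplicit false

namespace Pool.Agent.T6.H19.KS

open MvPolynomial

variable {K ι : Type} [Field K] [Fintype ι] [DecidableEq ι]

/-- The function `φ` is on `W` a combination of the monomials of bounded exponents whose
coefficients are polynomials over `A` in the linear forms `T`. -/
def GoodF (A : Subring K) {m : ℕ} (N : ℕ) (T : Fin (m + 1) → ι → A) (W : Set (ι → K))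
    (φ : (ι → K) → K) : Prop :=
  ∃ q : (ι → Fin (N + 1)) → MvPolynomial (Fin (m + 1)) A, ∀ w ∈ W,
    φ w = ∑ β, (∏ i, w i ^ (β i : ℕ)) * aeval (fun l => ∑ i, (T l i : K) * w i) (q β)

variable {A : Subring K} {m N : ℕ} {T : Fin (m + 1) → ι → A} {W : Set (ι → K)}

theorem GoodF.add {φ ψ : (ι → K) → K} (hφ : GoodF A N T W φ) (hψ : GoodF A N T W ψ) :
    GoodF A N T W (fun w => φ w + ψ w) := by
  obtain ⟨q, hq⟩ := hφ
  obtain ⟨q', hq'⟩ := hψ
  refine ⟨fun β => q β + q' β, fun w hw => ?_⟩
  simp only [map_add, mul_add, Finset.sum_add_distrib]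
  rw [hq w hw, hq' w hw]

theorem GoodF.zero : GoodF A N T W (fun _ => 0) :=
  ⟨fun _ => 0, fun w _ => by simp⟩

theorem GoodF.sum {α : Type} (s : Finset α) {φ : α → (ι → K) → K}
    (h : ∀ x ∈ s, GoodF A N T W (φ x)) : GoodF A N T W (fun w => ∑ x ∈ s, φ x w) := by
  classical
  induction s using Finset.induction_on with
  | empty => simpa using GoodF.zero
  | insert x s hx ih =>
    simp only [Finset.sum_insert hx]
    exact (h x (Finset.mem_insert_self x s)).add
      (ih (fun y hy => h y (Finset.mem_insert_of_mem hy)))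

theorem GoodF.const_mul {φ : (ι → K) → K} (hφ : GoodF A N T W φ) (a : A) :
    GoodF A N T W (fun w => (a : K) * φ w) := by
  obtain ⟨q, hq⟩ := hφ
  refine ⟨fun β => C a * q β, fun w hw => ?_⟩
  change (a : K) * φ w = _
  rw [hq w hw, Finset.mul_sum]
  refine Finset.sum_congr rfl (fun β _ => ?_)
  rw [map_mul, aeval_C]
  have : algebraMap A K a = (a : K) := rfl
  rw [this]
  ring

theorem GoodF.lin_mul {φ : (ι → K) → K} (hφ : GoodF A N T W φ) (l : Fin (m + 1)) :
    GoodF A N T W (fun w => (∑ i, (T l i : K) * w i) * φ w) := by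
  obtain ⟨q, hq⟩ := hφ
  refine ⟨fun β => X l * q β, fun w hw => ?_⟩
  change (∑ i, (T l i : K) * w i) * φ w = _
  rw [hq w hw, Finset.mul_sum]
  refine Finset.sum_congr rfl (fun β _ => ?_)
  rw [map_mul, aeval_X]
  ring

theorem GoodF.congr {φ ψ : (ι → K) → K} (hφ : GoodF A N T W φ) (h : ∀ w ∈ W, φ w = ψ w) :
    GoodF A N T W ψ := by
  obtain ⟨q, hq⟩ := hφ
  exact ⟨q, fun w hw => by rw [← h w hw, hq w hw]⟩

theorem good_small (μ : ι →₀ ℕ) (hμ : μ.degree ≤ N) :
    GoodF A N T W (fun w => ∏ i, w i ^ μ i) := by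
  classical
  have hle : ∀ i, μ i < N + 1 := by
    intro i
    have h1 : μ i ≤ μ.degree := by
      rw [Finsupp.degree_eq_sum]
      exact Finset.single_le_sum (f := fun i => μ i) (fun _ _ => Nat.zero_le _) (Finset.mem_univ i)
    omega
  refine ⟨fun β => if β = (fun i => (⟨μ i, hle i⟩ : Fin (N + 1))) then 1 else 0, fun w _ => ?_⟩
  rw [Finset.sum_eq_single (fun i => (⟨μ i, hle i⟩ : Fin (N + 1)))]
  · simp
  · intro β _ hβ
    change _ * aeval _ (if _ then _ else _) = _
    rw [if_neg hβ, map_zero, mul_zero]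
  · intro h
    exact absurd (Finset.mem_univ _) h

omit [Fintype ι] [DecidableEq ι] in
theorem exists_sub (n : ℕ) (μ : ι →₀ ℕ) (h : n ≤ μ.degree) :
    ∃ α ν : ι →₀ ℕ, μ = α + ν ∧ α.degree = n := by
  classical
  induction n with
  | zero => exact ⟨0, μ, by simp, by simp⟩
  | succ n ih =>
    obtain ⟨α, ν, hμ, hα⟩ := ih (by omega)
    have h1 : ν ≠ 0 := by
      rintro rfl
      rw [add_zero] at hμ
      rw [hμ] at h
      omega
    obtain ⟨i, hi⟩ := Finsupp.ne_iff.1 h1
    rw [Finsupp.zero_apply] at hi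
    refine ⟨α + Finsupp.single i 1, ν - Finsupp.single i 1, ?_, ?_⟩
    · have h2 : Finsupp.single i 1 ≤ ν := by
        rw [Finsupp.single_le_iff]
        omega
      rw [hμ, add_assoc, add_tsub_cancel_of_le h2]
    · rw [map_add, hα, Finsupp.degree_single]

/-- Every polynomial over `A` is good. -/
theorem reduce {R : (ι →₀ ℕ) → Fin (m + 1) → MvPolynomial ι A}
    (hR : ∀ α l, (R α l).IsHomogeneous N)
    (hW : ∀ w ∈ W, ∀ α : ι →₀ ℕ, α.degree = N + 1 →
      ∏ i, w i ^ α i = ∑ l, (∑ i, (T l i : K) * w i) * aeval w (R α l))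
    (Q : MvPolynomial ι A) : GoodF A N T W (fun w => aeval w Q) := by
  classical
  have hmono : ∀ n : ℕ, ∀ μ : ι →₀ ℕ, μ.degree = n → GoodF A N T W (fun w => ∏ i, w i ^ μ i) := by
    intro n
    induction n using Nat.strong_induction_on with
    | _ n ih =>
      intro μ hμ
      by_cases hn : n ≤ N
      · exact good_small μ (by omega)
      · obtain ⟨α, ν, hμ', hα⟩ := exists_sub (N + 1) μ (by omega)
        have hν : ν.degree + N + 1 = n := by
          rw [← hμ, hμ', map_add, hα]
          ring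
        have h1 : GoodF A N T W (fun w => ∑ l ∈ Finset.univ, (∑ i, (T l i : K) * w i) *
            (∑ β ∈ (R α l).support, ((coeff β (R α l) : A) : K) * ∏ i, w i ^ (β + ν) i)) := by
          refine GoodF.sum _ (fun l _ => GoodF.lin_mul (GoodF.sum _ (fun β hβ => ?_)) l)
          refine GoodF.const_mul (ih (N + ν.degree) (by omega) (β + ν) ?_) _
          rw [map_add]
          have h2 : β.degree = N := by
            have h3 := hR α l (mem_support_iff.1 hβ)
            rw [Finsupp.degree_eq_weight_one]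
            exact h3
          rw [h2]
        refine h1.congr (fun w hw => ?_)
        have h2 : ∏ i, w i ^ μ i = (∏ i, w i ^ α i) * ∏ i, w i ^ ν i := by
          rw [← Finset.prod_mul_distrib]
          refine Finset.prod_congr rfl (fun i _ => ?_)
          rw [hμ', Finsupp.add_apply, pow_add]
        rw [h2, hW w hw α hα, Finset.sum_mul]
        refine Finset.sum_congr rfl (fun l _ => ?_)
        rw [mul_assoc, aeval_def, eval₂_eq']
        congr 1
        rw [Finset.sum_mul]
        refine Finset.sum_congr rfl (fun β _ => ?_)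
        rw [mul_assoc, ← Finset.prod_mul_distrib]
        congr 1
        refine Finset.prod_congr rfl (fun i _ => ?_)
        rw [Finsupp.add_apply, pow_add]
  have h1 : GoodF A N T W (fun w => ∑ μ ∈ Q.support, ((coeff μ Q : A) : K) * ∏ i, w i ^ μ i) :=
    GoodF.sum _ (fun μ _ => GoodF.const_mul (hmono _ μ rfl) _)
  refine h1.congr (fun w _ => ?_)
  rw [aeval_def, eval₂_eq']
  rfl

end Pool.Agent.T6.H19.KS
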