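import Pool.Agent.T6.H19.KS.PF
import Pool.Agent.T6.H19.KS.Red
import Pool.Agent.T6.H19.KS.Geo

/-!
The arithmetic core: auxiliary forms of bounded degree vanishing at the points of a residue class.
-/

set_option autoImplicit false

namespace Pool.Agent.T6.H19.KS

open NumberField IsDedekindDomain MvPolynomial Pool.Agent.H251R6.SDD

section lift

variable {K σ : Type} [Field K] {A : Subring K}

theorem exists_lift (Q : MvPolynomial σ K) (hQ : ∀ ν, coeff ν Q ∈ A) :
    ∃ Q' : MvPolynomial σ A, (∀ w : σ → K, aeval w Q' = aeval w Q) ∧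
      ∀ n, Q.IsHomogeneous n → Q'.IsHomogeneous n := by
  classical
  refine ⟨∑ ν ∈ Q.support, monomial ν (⟨coeff ν Q, hQ ν⟩ : A), fun w => ?_, fun n hn => ?_⟩
  · rw [map_sum]
    conv_rhs => rw [Q.as_sum, map_sum]
    refine Finset.sum_congr rfl (fun ν _ => ?_)
    rw [aeval_monomial, aeval_monomial]
    rfl
  · refine IsHomogeneous.sum _ _ _ (fun ν hν => ?_)
    apply isHomogeneous_monomial
    have h1 := hn (mem_support_iff.1 hν)
    rw [Finsupp.degree_eq_weight_one]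
    exact h1

end lift

section bounds

variable {K ι : Type} [Field K] [Fintype ι]

/-- The form with coefficients `c`. -/
noncomputable def Pc {K ι J : Type} [Field K] [Fintype J] (μ : J → (ι ⊕ ι →₀ ℕ)) (c : J → ℤ) :
    MvPolynomial (ι ⊕ ι) K := ∑ j, monomial (μ j) (c j : K)

omit [Fintype ι] in
theorem Pc_hom {J : Type} [Fintype J] {μ : J → (ι ⊕ ι →₀ ℕ)} {b a : ℕ}
    (hμ : ∀ j, Finsupp.weight (biWeight ι) (μ j) = (b, a)) (c : J → ℤ) :
    IsWeightedHomogeneous (biWeight ι) (Pc (K := K) μ c) (b, a) := by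
  classical
  refine (weightedHomogeneousSubmodule K (biWeight ι) (b, a)).sum_mem (fun j _ => ?_)
  exact isWeightedHomogeneous_monomial _ _ _ (hμ j)

theorem Pc_eval {J : Type} [Fintype J] (μ : J → (ι ⊕ ι →₀ ℕ)) (c : J → ℤ) (u w : ι → K) :
    aeval (Sum.elim u w) (Pc (K := K) μ c) =
      ∑ j, (c j : K) * ((∏ i, u i ^ μ j (Sum.inl i)) * ∏ i, w i ^ μ j (Sum.inr i)) := by
  classical
  rw [Pc, map_sum]
  refine Finset.sum_congr rfl (fun j _ => ?_)
  rw [aeval_monomial, Finsupp.prod_fintype _ _ (fun _ => pow_zero _), Fintype.prod_sum_type]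
  rfl

theorem mono_bound {v : K → ℝ} (hv0 : ∀ x, 0 ≤ v x) (hv1 : v 1 = 1)
    (hvm : ∀ x y, v (x * y) = v x * v y) {μ : ι ⊕ ι →₀ ℕ} {b a : ℕ}
    (hμ : Finsupp.weight (biWeight ι) μ = (b, a)) (u w : ι → K) :
    v ((∏ i, u i ^ μ (Sum.inl i)) * ∏ i, w i ^ μ (Sum.inr i)) ≤
      (⨆ i, v (u i)) ^ b * (⨆ i, v (w i)) ^ a := by
  classical
  have hpow : ∀ (x : K) (n : ℕ), v (x ^ n) = v x ^ n := by
    intro x n
    induction n with
    | zero => rw [pow_zero, pow_zero, hv1]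
    | succ n ih => rw [pow_succ, hvm, ih, pow_succ]
  have hprod : ∀ (s : Finset ι) (f : ι → K), v (∏ i ∈ s, f i) = ∏ i ∈ s, v (f i) := by
    intro s f
    induction s using Finset.induction_on with
    | empty => simpa using hv1
    | insert i s hi ih => rw [Finset.prod_insert hi, Finset.prod_insert hi, hvm, ih]
  have hle : ∀ (z : ι → K) (n : ι → ℕ), v (∏ i, z i ^ n i) ≤ (⨆ i, v (z i)) ^ (∑ i, n i) := by
    intro z n
    rw [hprod, ← Finset.prod_pow_eq_pow_sum]
    refine Finset.prod_le_prod (fun i _ => hv0 _) (fun i _ => ?_)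
    rw [hpow]
    exact pow_le_pow_left₀ (hv0 _)
      (le_ciSup (f := fun i => v (z i)) (Set.finite_range _).bddAbove i) _
  rw [weight_eq, Prod.mk.injEq] at hμ
  rw [hvm, ← hμ.1, ← hμ.2]
  refine mul_le_mul (hle u _) (hle w _) (hv0 _) (pow_nonneg ?_ _)
  exact Real.iSup_nonneg (fun i => hv0 _)

end bounds

section core

variable {K ι : Type} [Field K] [NumberField K] [Fintype ι]

theorem fin_bound (v : FinitePlace K) {J : Type} [Fintype J] {μ : J → (ι ⊕ ι →₀ ℕ)} {b a : ℕ}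
    (hμ : ∀ j, Finsupp.weight (biWeight ι) (μ j) = (b, a)) (c : J → ℤ) (u w : ι → K) :
    v (aeval (Sum.elim u w) (Pc (K := K) μ c)) ≤ (⨆ i, v (u i)) ^ b * (⨆ i, v (w i)) ^ a := by
  rw [Pc_eval]
  have hna : IsNonarchimedean v.val := FinitePlace.add_le v
  have hsup : ∀ (z : ι → K), 0 ≤ ⨆ i, v (z i) := fun z =>
    Real.iSup_nonneg (fun i => apply_nonneg v _)
  refine na_sum_le hna _ _ (mul_nonneg (pow_nonneg (hsup u) _) (pow_nonneg (hsup w) _))
    (fun j _ => ?_)
  rw [AbsoluteValue.map_mul]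
  have h1 : v.val ((c j : ℤ) : K) ≤ 1 := hna.apply_intCast_le_one
  have h2 := mono_bound (v := fun x => v.val x) (fun x => v.val.nonneg x) v.val.map_one
    v.val.map_mul (hμ j) u w
  calc v.val (c j : K) * v.val ((∏ i, u i ^ μ j (Sum.inl i)) * ∏ i, w i ^ μ j (Sum.inr i))
      ≤ 1 * ((⨆ i, v (u i)) ^ b * (⨆ i, v (w i)) ^ a) :=
        mul_le_mul h1 h2 (v.val.nonneg _) zero_le_one
    _ = _ := one_mul _

omit [NumberField K] in
theorem inf_bound (v : InfinitePlace K) {J : Type} [Fintype J] {μ : J → (ι ⊕ ι →₀ ℕ)} {b a : ℕ}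
    (hμ : ∀ j, Finsupp.weight (biWeight ι) (μ j) = (b, a)) {c : J → ℤ} {X : ℕ}
    (hc : ∀ j, |c j| ≤ X) (u w : ι → K) :
    v (aeval (Sum.elim u w) (Pc (K := K) μ c)) ≤
      ((Fintype.card J * X : ℕ) : ℝ) * ((⨆ i, v (u i)) ^ b * (⨆ i, v (w i)) ^ a) := by
  rw [Pc_eval]
  have hsup : ∀ (z : ι → K), 0 ≤ ⨆ i, v (z i) := fun z =>
    Real.iSup_nonneg (fun i => apply_nonneg v _)
  have hS : 0 ≤ (⨆ i, v (u i)) ^ b * (⨆ i, v (w i)) ^ a :=
    mul_nonneg (pow_nonneg (hsup u) _) (pow_nonneg (hsup w) _)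
  have hterm : ∀ j, v ((c j : K) * ((∏ i, u i ^ μ j (Sum.inl i)) * ∏ i, w i ^ μ j (Sum.inr i))) ≤
      (X : ℝ) * ((⨆ i, v (u i)) ^ b * (⨆ i, v (w i)) ^ a) := by
    intro j
    rw [map_mul]
    have h1 : v ((c j : ℤ) : K) ≤ X := by
      have h2 : v ((c j : ℤ) : K) = |(c j : ℝ)| := by
        rw [← InfinitePlace.norm_embedding_eq v, map_intCast, Complex.norm_intCast]
      rw [h2]
      exact_mod_cast hc j
    have h2 := mono_bound (v := fun x => v x) (fun x => apply_nonneg v x) (map_one v)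
      (map_mul v) (hμ j) u w
    exact mul_le_mul h1 h2 (apply_nonneg v _) (Nat.cast_nonneg _)
  have hsum : ∀ (s : Finset J) (f : J → K), v (∑ j ∈ s, f j) ≤ ∑ j ∈ s, v (f j) := by
    classical
    intro s f
    induction s using Finset.induction_on with
    | empty => simp
    | insert x s hx ih =>
      rw [Finset.sum_insert hx, Finset.sum_insert hx]
      exact (v.1.add_le _ _).trans (add_le_add le_rfl ih)
  refine (hsum _ _).trans ((Finset.sum_le_sum (fun j _ => hterm j)).trans ?_)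
  rw [Finset.sum_const, Finset.card_univ, nsmul_eq_mul]
  push_cast
  rw [mul_assoc]

end core

end Pool.Agent.T6.H19.KS
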