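import Pool.Agent.T6.H19.KS.Core

/-!
The arithmetic core, II.
-/

set_option autoImplicit false

namespace Pool.Agent.T6.H19.KS

open NumberField IsDedekindDomain MvPolynomial Pool.Agent.H251R6.SDD

variable {K ι : Type} [Field K] [Fintype ι] [DecidableEq ι]

omit [Fintype ι] [DecidableEq ι] in
/-- the structure constants of the Noether normalization and of the tuples are `v`-integral -/
structure Intg (A : Subring K) {m : ℕ} (N0 : ℕ) (T : Fin (m + 1) → ι → K)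
    (R : (ι →₀ ℕ) → Fin (m + 1) → MvPolynomial ι K) {Λ : Type}
    (F : Λ → ι → MvPolynomial ι K) (B : ι → Λ → ι → MvPolynomial ι K) : Prop where
  t : ∀ l i, T l i ∈ A
  r : ∀ α : ι →₀ ℕ, α.degree = N0 + 1 → ∀ l ν, coeff ν (R α l) ∈ A
  f : ∀ l i ν, coeff ν (F l i) ∈ A
  b : ∀ i l j ν, coeff ν (B i l j) ∈ A

/-- The value of a combination of monomials on a tuple, in normal form. -/
theorem normal_form {A : Subring K} {m N0 : ℕ} {T : Fin (m + 1) → ι → K}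
    {R : (ι →₀ ℕ) → Fin (m + 1) → MvPolynomial ι K} {W : Set (ι → K)}
    (hR : ∀ α l, (R α l).IsHomogeneous N0)
    (hW : ∀ w ∈ W, ∀ α : ι →₀ ℕ, α.degree = N0 + 1 →
      ∏ i, w i ^ α i = ∑ l, (∑ i, T l i * w i) * aeval w (R α l))
    (hT : ∀ l i, T l i ∈ A)
    (hRA : ∀ α : ι →₀ ℕ, α.degree = N0 + 1 → ∀ l ν, coeff ν (R α l) ∈ A)
    {F : ι → MvPolynomial ι K} (hF : ∀ i ν, coeff ν (F i) ∈ A) (μ : ι ⊕ ι →₀ ℕ) :
    ∃ q : (ι → Fin (N0 + 1)) → MvPolynomial (Fin (m + 1)) A, ∀ w ∈ W,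
      (∏ i, w i ^ μ (Sum.inl i)) * ∏ i, (aeval w (F i)) ^ μ (Sum.inr i) =
        ∑ β, (∏ i, w i ^ (β i : ℕ)) * aeval (fun l => ∑ i, T l i * w i) (q β) := by
  classical
  have hex : ∀ α l, ∃ R' : MvPolynomial ι A, R'.IsHomogeneous N0 ∧
      (α.degree = N0 + 1 → ∀ w : ι → K, aeval w R' = aeval w (R α l)) := by
    intro α l
    by_cases hα : α.degree = N0 + 1
    · obtain ⟨R', h1, h2⟩ := exists_lift (A := A) (R α l) (hRA α hα l)
      exact ⟨R', h2 _ (hR α l), fun _ => h1⟩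
    · exact ⟨0, isHomogeneous_zero _ _ _, fun h => absurd h hα⟩
  choose R' hR' hR'' using hex
  have hex2 : ∀ i, ∃ F' : MvPolynomial ι A, ∀ w : ι → K, aeval w F' = aeval w (F i) := by
    intro i
    obtain ⟨F', h1, _⟩ := exists_lift (A := A) (F i) (hF i)
    exact ⟨F', h1⟩
  choose F' hF' using hex2
  obtain ⟨q, hq⟩ := reduce (A := A) (K := K) (T := fun l i => (⟨T l i, hT l i⟩ : A)) (W := W)
    (N := N0) (R := R') hR' (fun w hw α hα => by
      rw [hW w hw α hα]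
      refine Finset.sum_congr rfl (fun l _ => ?_)
      rw [hR'' α l hα])
    ((∏ i, X i ^ μ (Sum.inl i)) * ∏ i, (F' i) ^ μ (Sum.inr i))
  refine ⟨q, fun w hw => ?_⟩
  have h1 := hq w hw
  beta_reduce at h1
  rw [map_mul, map_prod, map_prod] at h1
  simp only [map_pow, aeval_X, hF'] at h1
  exact h1

/-- The estimate in a residue class. -/
theorem class_bound {v : AbsoluteValue K ℝ} {hv : IsNonarchimedean v} {m N0 M : ℕ} {t : ℝ}
    (ht0 : 0 ≤ t) (ht1 : t ≤ 1) {J : Type} [Fintype J]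
    (q : J → (ι → Fin (N0 + 1)) → MvPolynomial (Fin (m + 1)) (vr v hv))
    (i0 : Fin (m + 1)) (τ : Fin m → vr v hv) (c : J → ℤ)
    (hc : ∀ β (γ : Fin m → Fin M), v ((∑ j, (c j : vr v hv) *
      coeff (idx γ) (shift i0 τ (q j β)) : vr v hv) : K) ≤ t ^ M)
    (w : ι → K) (hw : ∀ i, v (w i) ≤ 1) (y : Fin (m + 1) → K) (hy0 : y i0 = 1)
    (hy : ∀ l, v (y (i0.succAbove l) - τ l) ≤ t) :
    v (∑ j, (c j : K) * ∑ β, (∏ i, w i ^ (β i : ℕ)) * aeval y (q j β)) ≤ t ^ M := by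
  classical
  have h1 : ∑ j, (c j : K) * ∑ β, (∏ i, w i ^ (β i : ℕ)) * aeval y (q j β) =
      ∑ β, (∏ i, w i ^ (β i : ℕ)) * aeval (fun l => y (i0.succAbove l) - τ l)
        (∑ j, C ((c j : ℤ) : vr v hv) * shift i0 τ (q j β)) := by
    simp only [map_sum, map_mul, aeval_C, Finset.mul_sum]
    rw [Finset.sum_comm]
    refine Finset.sum_congr rfl (fun β _ => Finset.sum_congr rfl (fun j _ => ?_))
    rw [aeval_shift i0 τ _ y hy0 (fun l => by ring)]
    have h2 : algebraMap (vr v hv) K ((c j : ℤ) : vr v hv) = (c j : K) := by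
      simp
    rw [h2]
    ring
  rw [h1]
  refine na_sum_le hv _ _ (pow_nonneg ht0 _) (fun β _ => ?_)
  rw [v.map_mul]
  have h3 : v (aeval (fun l => y (i0.succAbove l) - τ l)
        (∑ j, C ((c j : ℤ) : vr v hv) * shift i0 τ (q j β))) ≤ t ^ M := by
    refine est ht0 ht1 _ (fun γ => ?_) _ hy
    have h4 := hc β γ
    have h5 : coeff (idx γ) (∑ j, C ((c j : ℤ) : vr v hv) * shift i0 τ (q j β)) =
        ∑ j, (c j : vr v hv) * coeff (idx γ) (shift i0 τ (q j β)) := by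
      rw [coeff_sum]
      exact Finset.sum_congr rfl (fun j _ => coeff_C_mul _ _ _)
    rw [h5]
    exact h4
  calc v (∏ i, w i ^ (β i : ℕ)) * v (aeval (fun l => y (i0.succAbove l) - τ l)
        (∑ j, C ((c j : ℤ) : vr v hv) * shift i0 τ (q j β)))
      ≤ 1 * t ^ M := mul_le_mul (v_prod_le _ w hw _) h3 (v.nonneg _) zero_le_one
    _ = t ^ M := one_mul _

omit [DecidableEq ι] in
/-- Normalization of the coordinates. -/
theorem normalize {v : AbsoluteValue K ℝ} (hv : IsNonarchimedean v) {m N0 : ℕ}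
    {T : Fin (m + 1) → ι → K}
    {R : (ι →₀ ℕ) → Fin (m + 1) → MvPolynomial ι K} {W : Set (ι → K)}
    (hWs : ∀ w ∈ W, ∀ c : K, c • w ∈ W)
    (hW : ∀ w ∈ W, ∀ α : ι →₀ ℕ, α.degree = N0 + 1 →
      ∏ i, w i ^ α i = ∑ l, (∑ i, T l i * w i) * aeval w (R α l))
    (hT : ∀ l i, T l i ∈ vr v hv)
    (hRA : ∀ α : ι →₀ ℕ, α.degree = N0 + 1 → ∀ l ν, coeff ν (R α l) ∈ vr v hv)
    {Λ : Type} [Fintype Λ] {F : Λ → ι → MvPolynomial ι K} {mm : ℕ}
    {B : ι → Λ → ι → MvPolynomial ι K}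
    (hB : ∀ w ∈ W, w ≠ 0 → ∀ i, w i ^ mm = ∑ l, ∑ j, aeval w (B i l j) * aeval w (F l j))
    (hFA : ∀ l i ν, coeff ν (F l i) ∈ vr v hv)
    (hBA : ∀ i l j ν, coeff ν (B i l j) ∈ vr v hv)
    {w : ι → K} (hw : w ∈ W) (hw0 : w ≠ 0) :
    ∃ (s : K) (i0 : Fin (m + 1)) (l : Λ), s ≠ 0 ∧ (⨆ i, v ((s • w) i)) = 1 ∧
      ∑ i, T i0 i * (s • w) i = 1 ∧ (⨆ i, v (aeval (s • w) (F l i))) = 1 := by
  classical
  obtain ⟨i', hi'⟩ := Function.ne_iff.1 hw0
  have : Nonempty ι := ⟨i'⟩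
  obtain ⟨i1, hi1⟩ := Finite.exists_max (fun i => v (w i))
  have hwi1 : w i1 ≠ 0 := by
    intro h0
    have h1 := hi1 i'
    rw [h0, v.map_zero] at h1
    exact hi' (v.eq_zero.1 (le_antisymm h1 (v.nonneg _)))
  have hev : ∀ (Q : MvPolynomial ι K), (∀ ν, coeff ν Q ∈ vr v hv) → ∀ z : ι → K,
      (∀ i, v (z i) ≤ 1) → v (aeval z Q) ≤ 1 := by
    intro Q hQ z hz
    obtain ⟨Q', h1, _⟩ := exists_lift Q hQ
    rw [← h1 z]
    exact v_aeval_le Q' z hz
  -- first scaling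
  set w1 : ι → K := (w i1)⁻¹ • w with hw1
  have hw1W : w1 ∈ W := hWs w hw _
  have hw1v : ∀ i, v (w1 i) ≤ 1 := by
    intro i
    rw [hw1, Pi.smul_apply, smul_eq_mul, v.map_mul, map_inv₀, inv_mul_le_iff₀ (v.pos hwi1), mul_one]
    exact hi1 i
  have hw11 : w1 i1 = 1 := by
    rw [hw1, Pi.smul_apply, smul_eq_mul, inv_mul_cancel₀ hwi1]
  obtain ⟨i0, hi0⟩ : ∃ l, 1 ≤ v (∑ i, T l i * w1 i) := by
    by_contra hcon
    push Not at hcon
    have h1 := hW w1 hw1W (Finsupp.single i1 (N0 + 1)) (Finsupp.degree_single _ _)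
    have h2 : ∏ i, w1 i ^ (Finsupp.single i1 (N0 + 1) : ι →₀ ℕ) i = 1 := by
      rw [Finset.prod_eq_single i1]
      · rw [hw11, one_pow]
      · intro j _ hj
        rw [Finsupp.single_eq_of_ne hj, pow_zero]
      · intro h
        exact absurd (Finset.mem_univ _) h
    rw [h2] at h1
    obtain ⟨l', hl'⟩ := Finite.exists_max (fun l => v (∑ i, T l i * w1 i))
    have h3 : v (1 : K) ≤ v (∑ i, T l' i * w1 i) := by
      rw [h1]
      refine na_sum_le hv _ _ (v.nonneg _) (fun l _ => ?_)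
      rw [v.map_mul]
      calc v (∑ i, T l i * w1 i) * v (aeval w1 (R (Finsupp.single i1 (N0 + 1)) l))
          ≤ v (∑ i, T l' i * w1 i) * 1 := mul_le_mul (hl' l)
            (hev _ (hRA _ (Finsupp.degree_single _ _) l) _ hw1v) (v.nonneg _) (v.nonneg _)
        _ = _ := mul_one _
    rw [v.map_one] at h3
    exact absurd (hcon l') (not_lt.2 h3)
  have hTle : v (∑ i, T i0 i * w1 i) ≤ 1 := by
    refine na_sum_le hv _ _ zero_le_one (fun i _ => ?_)
    rw [v.map_mul]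
    exact mul_le_one₀ (hT i0 i) (v.nonneg _) (hw1v i)
  have hT1 : v (∑ i, T i0 i * w1 i) = 1 := le_antisymm hTle hi0
  have hTne : ∑ i, T i0 i * w1 i ≠ 0 := by
    intro h0
    rw [h0, v.map_zero] at hT1
    exact zero_ne_one hT1
  -- second scaling
  set t := ∑ i, T i0 i * w1 i with ht
  set w2 : ι → K := t⁻¹ • w1 with hw2
  have hw2W : w2 ∈ W := hWs w1 hw1W _
  have hvw2 : ∀ i, v (w2 i) = v (w1 i) := by
    intro i
    rw [hw2, Pi.smul_apply, smul_eq_mul, v.map_mul, map_inv₀, hT1, inv_one, one_mul]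
  have hw2v : ∀ i, v (w2 i) ≤ 1 := fun i => (hvw2 i).trans_le (hw1v i)
  have hw21 : v (w2 i1) = 1 := by rw [hvw2, hw11, v.map_one]
  have hw20 : w2 ≠ 0 := by
    intro h0
    rw [h0, Pi.zero_apply, v.map_zero] at hw21
    exact zero_ne_one hw21
  have hT2 : ∑ i, T i0 i * w2 i = 1 := by
    have h1 : ∑ i, T i0 i * w2 i = t⁻¹ * ∑ i, T i0 i * w1 i := by
      rw [Finset.mul_sum]
      refine Finset.sum_congr rfl (fun i _ => ?_)
      rw [hw2, Pi.smul_apply, smul_eq_mul]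
      ring
    rw [h1, ← ht, inv_mul_cancel₀ hTne]
  have hFle : ∀ l j, v (aeval w2 (F l j)) ≤ 1 := fun l j => hev _ (hFA l j) _ hw2v
  obtain ⟨l, j, hlj⟩ : ∃ l j, 1 ≤ v (aeval w2 (F l j)) := by
    by_contra hcon
    push Not at hcon
    have h1 := hB w2 hw2W hw20 i1
    have h2 : v (w2 i1 ^ mm) = 1 := by rw [map_pow, hw21, one_pow]
    rw [h1] at h2
    have h3 : (Finset.univ : Finset (Λ × ι)).Nonempty := by
      by_contra hne
      rw [Finset.not_nonempty_iff_eq_empty] at hne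
      rw [← Finset.univ_product_univ] at hne
      have h4 : ∑ l, ∑ j, aeval w2 (B i1 l j) * aeval w2 (F l j) = 0 := by
        rw [← Finset.sum_product', hne, Finset.sum_empty]
      rw [h4, v.map_zero] at h2
      exact zero_ne_one h2
    obtain ⟨p0, _⟩ := h3
    have : Nonempty (Λ × ι) := ⟨p0⟩
    obtain ⟨p', hp'⟩ := Finite.exists_max (fun p : Λ × ι => v (aeval w2 (F p.1 p.2)))
    have h5 : (1 : ℝ) ≤ v (aeval w2 (F p'.1 p'.2)) := by
      rw [← h2]
      refine na_sum_le hv _ _ (v.nonneg _) (fun l _ => na_sum_le hv _ _ (v.nonneg _)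
        (fun j _ => ?_))
      rw [v.map_mul]
      calc v (aeval w2 (B i1 l j)) * v (aeval w2 (F l j))
          ≤ 1 * v (aeval w2 (F p'.1 p'.2)) := mul_le_mul (hev _ (hBA i1 l j) _ hw2v)
            (hp' (l, j)) (v.nonneg _) zero_le_one
        _ = _ := one_mul _
    exact absurd (hcon p'.1 p'.2) (not_lt.2 h5)
  have hlj1 : v (aeval w2 (F l j)) = 1 := le_antisymm (hFle l j) hlj
  have hsw : (t⁻¹ * (w i1)⁻¹) • w = w2 := by
    rw [hw2, hw1, smul_smul]
  refine ⟨t⁻¹ * (w i1)⁻¹, i0, l, mul_ne_zero (inv_ne_zero hTne) (inv_ne_zero hwi1), ?_, ?_, ?_⟩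
  · rw [hsw]
    apply le_antisymm
    · exact ciSup_le hw2v
    · rw [← hw21]
      exact le_ciSup (f := fun i => v (w2 i)) (Set.finite_range _).bddAbove i1
  · rw [hsw]
    exact hT2
  · rw [hsw]
    apply le_antisymm
    · exact ciSup_le (hFle l)
    · rw [← hlj1]
      exact le_ciSup (f := fun j => v (aeval w2 (F l j))) (Set.finite_range _).bddAbove j

end Pool.Agent.T6.H19.KS
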