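import Pool.Agent.T6.H19.KS.Core2

/-!
The arithmetic core, III: the auxiliary forms.
-/

set_option autoImplicit false

namespace Pool.Agent.T6.H19.KS

open NumberField IsDedekindDomain MvPolynomial Pool.Agent.H251R6.SDD

variable {K ι : Type} [Field K] [NumberField K] [Fintype ι] [DecidableEq ι]

theorem core {m N0 : ℕ} {T : Fin (m + 1) → ι → K}
    {R : (ι →₀ ℕ) → Fin (m + 1) → MvPolynomial ι K} {W : Set (ι → K)}
    (hWs : ∀ w ∈ W, ∀ c : K, c • w ∈ W)
    (hR : ∀ α l, (R α l).IsHomogeneous N0)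
    (hW : ∀ w ∈ W, ∀ α : ι →₀ ℕ, α.degree = N0 + 1 →
      ∏ i, w i ^ α i = ∑ l, (∑ i, T l i * w i) * aeval w (R α l))
    {Λ : Type} [Fintype Λ] {e : Λ → ℕ} {F : Λ → ι → MvPolynomial ι K}
    (hF : ∀ l i, (F l i).IsHomogeneous (e l)) {mm : ℕ} {B : ι → Λ → ι → MvPolynomial ι K}
    (hB : ∀ w ∈ W, w ≠ 0 → ∀ i, w i ^ mm = ∑ l, ∑ j, aeval w (B i l j) * aeval w (F l j))
    {J : Type} [Fintype J] {b a : ℕ} {μ : J → (ι ⊕ ι →₀ ℕ)}
    (hμ : ∀ j, Finsupp.weight (biWeight ι) (μ j) = (b, a))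
    (P : HeightOneSpectrum (𝓞 K))
    (hTi : ∀ l i, FinitePlace.mk P (T l i) ≤ 1)
    (hRi : ∀ α : ι →₀ ℕ, α.degree = N0 + 1 → ∀ l ν, FinitePlace.mk P (coeff ν (R α l)) ≤ 1)
    (hFi : ∀ l i ν, FinitePlace.mk P (coeff ν (F l i)) ≤ 1)
    (hBi : ∀ i l j ν, FinitePlace.mk P (coeff ν (B i l j)) ≤ 1)
    {M X : ℕ}
    (hcard : (Ideal.absNorm P.asIdeal ^ M) ^ ((N0 + 1) ^ Fintype.card ι * M ^ m) <
      X ^ Fintype.card J) {Hb : ℝ}
    (hsmall : ((Fintype.card J * X : ℕ) : ℝ) ^ Module.finrank ℚ K * Hb *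
      ((Ideal.absNorm P.asIdeal : ℝ)⁻¹) ^ M < 1) :
    ∃ c : Fin (m + 1) × Λ × (Fin m → Fin (Ideal.absNorm P.asIdeal)) → J → ℤ,
      (∀ t, c t ≠ 0) ∧ ∀ w ∈ W, w ≠ 0 →
        (∀ l, (fun i => aeval w (F l i)) ≠ 0 →
          Height.mulHeight w ^ b * Height.mulHeight (fun i => aeval w (F l i)) ^ a ≤ Hb) →
        ∃ t, aeval (Sum.elim w fun i => aeval w (F t.2.1 i)) (Pc (K := K) μ (c t)) = 0 := by
  classical
  set v : FinitePlace K := FinitePlace.mk P with hv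
  have hna : IsNonarchimedean v.val := FinitePlace.add_le v
  set qn := Ideal.absNorm P.asIdeal with hqn
  have hq1 : 1 < qn := HeightOneSpectrum.one_lt_absNorm P
  have ht0 : (0 : ℝ) ≤ (qn : ℝ)⁻¹ := by positivity
  have ht1 : (qn : ℝ)⁻¹ ≤ 1 := by
    apply inv_le_one_of_one_le₀
    exact_mod_cast hq1.le
  obtain ⟨φ, hφ⟩ := exists_level P M
  obtain ⟨ρ, hρ1, hρ⟩ := exists_residues P
  have hnf : ∀ (l : Λ) (j : J), ∃ q : (ι → Fin (N0 + 1)) →
      MvPolynomial (Fin (m + 1)) (vr v.val hna), ∀ w ∈ W,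
      (∏ i, w i ^ μ j (Sum.inl i)) * ∏ i, (aeval w (F l i)) ^ μ j (Sum.inr i) =
        ∑ β, (∏ i, w i ^ (β i : ℕ)) * aeval (fun l => ∑ i, T l i * w i) (q β) := by
    intro l j
    exact normal_form (A := vr v.val hna) hR hW (fun l i => hTi l i)
      (fun α hα l ν => hRi α hα l ν) (fun i ν => hFi l i ν) (μ j)
  choose q hq using hnf
  let τ : (Fin m → Fin qn) → Fin m → vr v.val hna := fun κ l => ⟨ρ (κ l), hρ1 (κ l)⟩
  have hpg : ∀ t : Fin (m + 1) × Λ × (Fin m → Fin qn), ∃ c : J → ℤ, c ≠ 0 ∧ (∀ j, |c j| ≤ X) ∧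
      ∀ i : (ι → Fin (N0 + 1)) × (Fin m → Fin M), ∃ y y' : vr v.val hna, φ y = φ y' ∧
        ∑ j, (c j : vr v.val hna) * coeff (idx i.2) (shift t.1 (τ t.2.2) (q t.2.1 j i.1)) =
          y - y' := by
    intro t
    refine pigeon (fun y : vr v.val hna => φ (y : K))
      (fun (i : (ι → Fin (N0 + 1)) × (Fin m → Fin M)) j =>
        coeff (idx i.2) (shift t.1 (τ t.2.2) (q t.2.1 j i.1))) X ?_
    rw [Fintype.card_prod, Fintype.card_fun, Fintype.card_fun, Fintype.card_fin,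
      Fintype.card_fin, Fintype.card_fin]
    exact hcard
  choose c hc0 hcX hcφ using hpg
  refine ⟨c, hc0, fun w hw hw0 hH => ?_⟩
  obtain ⟨s, i0, l, hs, hsup, hT1, hsupF⟩ := normalize hna hWs hW (fun l i => hTi l i)
    (fun α hα l ν => hRi α hα l ν) hB (fun l i ν => hFi l i ν) (fun i l j ν => hBi i l j ν) hw hw0
  set w2 : ι → K := s • w with hw2
  have hw2W : w2 ∈ W := hWs w hw s
  have hw20 : w2 ≠ 0 := smul_ne_zero hs hw0
  have hw2v : ∀ i, v.val (w2 i) ≤ 1 := by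
    intro i
    rw [← hsup]
    exact le_ciSup (f := fun i => v.val (w2 i)) (Set.finite_range _).bddAbove i
  have hTv : ∀ l, v.val (∑ i, T l i * w2 i) ≤ 1 := by
    intro l
    refine na_sum_le hna _ _ zero_le_one (fun i _ => ?_)
    rw [AbsoluteValue.map_mul]
    exact mul_le_one₀ (hTi l i) (v.val.nonneg _) (hw2v i)
  have hres : ∀ l' : Fin m, ∃ κ, v (∑ i, T (i0.succAbove l') i * w2 i - ρ κ) ≤ (qn : ℝ)⁻¹ :=
    fun l' => hρ _ (hTv _)
  choose κ hκ using hres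
  refine ⟨(i0, l, κ), ?_⟩
  set w' : ι → K := fun i => aeval w2 (F l i) with hw'
  have hw'0 : w' ≠ 0 := by
    intro h0
    have h1 : (⨆ i, v.val (w' i)) = 0 := by
      rw [h0]
      simp
    rw [h1] at hsupF
    exact zero_ne_one hsupF
  -- the value is small at `v`
  have hval : aeval (Sum.elim w2 w') (Pc (K := K) μ (c (i0, l, κ))) =
      ∑ j, (c (i0, l, κ) j : K) * ∑ β, (∏ i, w2 i ^ (β i : ℕ)) *
        aeval (fun l => ∑ i, T l i * w2 i) (q l j β) := by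
    rw [Pc_eval]
    refine Finset.sum_congr rfl (fun j _ => ?_)
    rw [← hq l j w2 hw2W]
  have hvsmall : v (aeval (Sum.elim w2 w') (Pc (K := K) μ (c (i0, l, κ)))) ≤
      ((qn : ℝ)⁻¹) ^ M := by
    rw [hval]
    refine class_bound (v := v.val) (hv := hna) ht0 ht1 (q l) i0 (τ κ) (c (i0, l, κ))
      (fun β γ => ?_) w2 hw2v (fun l => ∑ i, T l i * w2 i) hT1 (fun l' => ?_)
    · obtain ⟨y, y', hyy, hsum⟩ := hcφ (i0, l, κ) (β, γ)
      rw [hsum]
      exact hφ y y' y.2 y'.2 hyy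
    · exact hκ l'
  -- the value vanishes
  have hzero : aeval (Sum.elim w2 w') (Pc (K := K) μ (c (i0, l, κ))) = 0 := by
    by_contra hne
    have h1 := product_bound (C := ((Fintype.card J * X : ℕ) : ℝ)) v hw20 hw'0 hne
      (Nat.cast_nonneg _) hvsmall hsup hsupF (fun u => fin_bound u hμ _ w2 w')
      (fun u => inf_bound u hμ (hcX (i0, l, κ)) w2 w')
    have h2 : Height.mulHeight w2 = Height.mulHeight w := Height.mulHeight_smul_eq_mulHeight w hs
    have h3 : w' = s ^ e l • fun i => aeval w (F l i) := by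
      funext i
      rw [hw', hw2]
      exact aeval_smul (hF l i) s w
    have h4 : (fun i => aeval w (F l i)) ≠ 0 := by
      intro h0
      rw [h0, smul_zero] at h3
      exact hw'0 h3
    have h5 : Height.mulHeight w' = Height.mulHeight (fun i => aeval w (F l i)) := by
      rw [h3]
      exact Height.mulHeight_smul_eq_mulHeight _ (pow_ne_zero _ hs)
    rw [h2, h5] at h1
    have h6 := hH l h4
    have h7 : ((Fintype.card J * X : ℕ) : ℝ) ^ Module.finrank ℚ K *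
        (Height.mulHeight w ^ b * Height.mulHeight (fun i => aeval w (F l i)) ^ a) *
        ((qn : ℝ)⁻¹) ^ M ≤ ((Fintype.card J * X : ℕ) : ℝ) ^ Module.finrank ℚ K * Hb *
        ((qn : ℝ)⁻¹) ^ M := by
      refine mul_le_mul_of_nonneg_right (mul_le_mul_of_nonneg_left h6 ?_) (pow_nonneg ht0 _)
      exact pow_nonneg (Nat.cast_nonneg _) _
    exact absurd (h1.trans h7) (not_le.2 hsmall)
  have h3 : w' = s ^ e l • fun i => aeval w (F l i) := by
    funext i
    rw [hw', hw2]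
    exact aeval_smul (hF l i) s w
  rw [h3, hw2, bi_smul (Pc_hom hμ _)] at hzero
  rcases mul_eq_zero.1 hzero with h | h
  · rcases mul_eq_zero.1 h with h | h
    · exact absurd h (pow_ne_zero _ hs)
    · exact absurd h (pow_ne_zero _ (pow_ne_zero _ hs))
  · exact h

end Pool.Agent.T6.H19.KS
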