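import Pool.Agent.H251R6.SDD.Defs

/-!
Heights of `K`-rational points of projective space over an extension `k` of the number field `K`.
-/

set_option autoImplicit false

namespace Pool.Agent.T6.H19.KS

open Pool.Agent.H251R6.SDD

/-- `w` are homogeneous coordinates in `K` of the point `x` of projective space over `k`. -/
def IsCoord {K k ι : Type} [Field K] [Field k] [Algebra K k] (x : PSpace k ι) (w : ι → K) : Prop :=
  ∃ h : (fun i => algebraMap K k (w i)) ≠ 0, x = Projectivization.mk k _ h

/-- The `K`-rational points of `V`. -/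
def ratPoints (K : Type) {k ι : Type} [Field K] [Field k] [Algebra K k]
    (V : Set (PSpace k ι)) : Set (PSpace k ι) :=
  {x | x ∈ V ∧ ∃ w : ι → K, IsCoord x w}

open Classical in
/-- The multiplicative Weil height relative to `K` of a `K`-rational point of projective space:
the product over the places `v` of `K` of `max_i |w_i|_v` (with local degrees) for any homogeneous
coordinates `w` in `K` of the point (Mathlib's `Height.mulHeight`). -/
noncomputable def HK (K : Type) {k ι : Type} [Field K] [NumberField K] [Field k] [Algebra K k]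
    (x : PSpace k ι) : ℝ :=
  if h : ∃ w : ι → K, IsCoord x w then Height.mulHeight h.choose else 1

section

variable {K k ι : Type} [Field K] [Field k] [Algebra K k]

theorem IsCoord.ne_zero {x : PSpace k ι} {w : ι → K} (h : IsCoord x w) : w ≠ 0 := by
  obtain ⟨h, _⟩ := h
  rintro rfl
  apply h
  funext i
  simp

theorem IsCoord.smul_eq {x : PSpace k ι} {w w' : ι → K} (h : IsCoord x w) (h' : IsCoord x w') :
    ∃ c : K, c ≠ 0 ∧ w = c • w' := by
  have hw := h.ne_zero
  have hw' := h'.ne_zero
  obtain ⟨h1, h2⟩ := h
  obtain ⟨h1', h2'⟩ := h'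
  rw [h2, Projectivization.mk_eq_mk_iff'] at h2'
  obtain ⟨a, ha⟩ := h2'
  obtain ⟨i, hi⟩ := Function.ne_iff.1 hw'
  rw [Pi.zero_apply] at hi
  have ha' : ∀ j, a * algebraMap K k (w' j) = algebraMap K k (w j) := fun j => congrFun ha j
  have h3 : a = algebraMap K k (w i / w' i) := by
    rw [map_div₀, ← ha' i, mul_div_assoc, div_self, mul_one]
    exact (map_ne_zero _).2 hi
  have h4 : w = (w i / w' i) • w' := by
    funext j
    apply (algebraMap K k).injective
    rw [← ha' j, h3, Pi.smul_apply, smul_eq_mul, map_mul]
  refine ⟨w i / w' i, ?_, h4⟩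
  intro h0
  rw [h0, zero_smul] at h4
  exact hw h4

end

theorem HK_eq {K k ι : Type} [Field K] [NumberField K] [Field k] [Algebra K k] [Finite ι]
    {x : PSpace k ι} {w : ι → K} (h : IsCoord x w) : HK K x = Height.mulHeight w := by
  have hex : ∃ w : ι → K, IsCoord x w := ⟨w, h⟩
  rw [HK, dif_pos hex]
  obtain ⟨c, hc, hcw⟩ := hex.choose_spec.smul_eq h
  rw [hcw]
  exact Height.mulHeight_smul_eq_mulHeight w hc

theorem one_le_HK {K k ι : Type} [Field K] [NumberField K] [Field k] [Algebra K k] [Finite ι]
    (x : PSpace k ι) : 1 ≤ HK K x := by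
  classical
  rw [HK]
  split_ifs with h
  · exact Height.one_le_mulHeight _
  · exact le_rfl

end Pool.Agent.T6.H19.KS
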