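import Pool.Agent.T6.H19.KS.Noe

/-!
Algebraic independence over `K` on the cone implies algebraic independence over `k`.
-/

set_option autoImplicit false

namespace Pool.Agent.T6.H19.KS

open MvPolynomial Pool.Agent.H251R6.SDD

variable {K k : Type} [Field K] [Field k] [Algebra K k]

/-- Apply a linear functional to the coefficients. -/
noncomputable def lst {σ : Type} (ℓ : k →ₗ[K] K) : MvPolynomial σ k →+ MvPolynomial σ K :=
  ((basisMonomials σ K).repr.symm.toLinearMap.toAddMonoidHom.comp
    (Finsupp.mapRange.addMonoidHom ℓ.toAddMonoidHom)).comp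
      (basisMonomials σ k).repr.toLinearMap.toAddMonoidHom

theorem coeff_lst {σ : Type} (ℓ : k →ₗ[K] K) (p : MvPolynomial σ k) (ν : σ →₀ ℕ) :
    coeff ν (lst ℓ p) = ℓ (coeff ν p) := by
  have h1 : ∀ q : MvPolynomial σ K, coeff ν q = (basisMonomials σ K).repr q ν := fun q => rfl
  have h2 : ∀ q : MvPolynomial σ k, coeff ν q = (basisMonomials σ k).repr q ν := fun q => rfl
  rw [h1, h2]
  show (basisMonomials σ K).repr ((basisMonomials σ K).repr.symm
    (Finsupp.mapRange ℓ (map_zero ℓ) ((basisMonomials σ k).repr p))) ν = _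
  rw [LinearEquiv.apply_symm_apply, Finsupp.mapRange_apply]

theorem lst_mul_map {σ : Type} (ℓ : k →ₗ[K] K) (p : MvPolynomial σ k) (G : MvPolynomial σ K) :
    lst ℓ (p * map (algebraMap K k) G) = lst ℓ p * G := by
  classical
  ext ν
  rw [coeff_lst, coeff_mul, coeff_mul, map_sum]
  refine Finset.sum_congr rfl (fun x _ => ?_)
  rw [coeff_map, coeff_lst, mul_comm, ← Algebra.smul_def, map_smul, smul_eq_mul, mul_comm]

theorem lst_mem {σ : Type} (ℓ : k →ₗ[K] K) (I : Ideal (MvPolynomial σ K)) {f : MvPolynomial σ k}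
    (hf : f ∈ I.map (map (algebraMap K k))) : ∀ h, lst ℓ (h * f) ∈ I := by
  rw [Ideal.map] at hf
  induction hf using Submodule.span_induction with
  | mem g hg =>
    obtain ⟨G, hG, rfl⟩ := hg
    intro h
    rw [lst_mul_map]
    exact I.mul_mem_left _ hG
  | zero => intro h; rw [mul_zero, map_zero]; exact I.zero_mem
  | add a b _ _ ha hb => intro h; rw [mul_add, map_add]; exact I.add_mem (ha h) (hb h)
  | smul c x _ hx => intro h; rw [smul_eq_mul, ← mul_assoc]; exact hx _

theorem lst_aeval {σ τ : Type} (ℓ : k →ₗ[K] K) (θ : τ → MvPolynomial σ K)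
    (Q : MvPolynomial τ k) :
    lst ℓ (aeval (fun l => map (algebraMap K k) (θ l)) Q) = aeval θ (lst ℓ Q) := by
  classical
  induction Q using MvPolynomial.induction_on' with
  | monomial ν c =>
    have h1 : lst ℓ (monomial ν c) = monomial ν (ℓ c) := by
      ext μ
      rw [coeff_lst, coeff_monomial, coeff_monomial]
      split_ifs
      · rfl
      · exact map_zero _
    have h2 : aeval (fun l => map (algebraMap K k) (θ l)) (monomial ν c) =
        C c * map (algebraMap K k) (ν.prod fun l n => θ l ^ n) := by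
      rw [aeval_monomial, map_finsuppProd]
      simp only [map_pow]
      rfl
    have h3 : lst ℓ (C c : MvPolynomial σ k) = C (ℓ c) := by
      ext μ
      rw [coeff_lst, coeff_C, coeff_C]
      split_ifs
      · rfl
      · exact map_zero _
    rw [h1, h2, lst_mul_map, h3, aeval_monomial]
    rfl
  | add p q hp hq => rw [map_add, map_add, map_add, map_add, hp, hq]

theorem indep_k [IsAlgClosed k] {ι : Type} [Fintype ι] {V : Set (PSpace k ι)} (hne : V.Nonempty)
    (hV : IsClosedOver K V) {D : ℕ} (T : Fin D → ι → K)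
    (hT : ∀ Φ : MvPolynomial (Fin D) K,
      (∀ w ∈ cone V, aeval (fun l => ∑ i, algebraMap K k (T l i) * w i) Φ = 0) → Φ = 0)
    (Φ : MvPolynomial (Fin D) k)
    (hΦ : ∀ w ∈ cone V, aeval (fun l => ∑ i, algebraMap K k (T l i) * w i) Φ = 0) : Φ = 0 := by
  classical
  let I : Ideal (MvPolynomial ι K) := vanishingIdeal K (cone V)
  let θ : Fin D → MvPolynomial ι K := fun l => ∑ i, C (T l i) * X i
  -- the cone is the zero locus
  have hzero : zeroLocus k (I.map (map (algebraMap K k))) ⊆ cone V := by
    intro w hw hw0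
    obtain ⟨S, hS, hVS⟩ := hV
    obtain ⟨c, hc, hcw⟩ := exists_rep_smul hw0
    rw [hVS]
    rintro G ⟨G, hG, rfl⟩
    obtain ⟨e, he⟩ := hS G hG
    have hGI : G ∈ I := by
      rw [mem_vanishingIdeal_iff]
      intro u hu
      by_cases hu0 : u = 0
      · subst hu0
        obtain ⟨x, hx⟩ := hne
        have h1 : aeval x.rep G = 0 := by
          have h2 := hx
          rw [hVS] at h2
          have h3 := h2 _ ⟨G, hG, rfl⟩
          rwa [eval_map, ← aeval_def] at h3
        by_cases he0 : e = 0
        · subst he0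
          rw [aeval_const_of_hom he 0 x.rep, h1]
        · exact aeval_zero_of_hom he he0
      · have h1 := hu hu0
        rw [hVS] at h1
        have h2 := h1 _ ⟨G, hG, rfl⟩
        obtain ⟨d, hd, hdu⟩ := exists_rep_smul hu0
        rw [eval_map, ← aeval_def] at h2
        rw [hdu, aeval_smul he, h2, mul_zero]
    have h1 := hw _ (Ideal.mem_map_of_mem (map (algebraMap K k)) hGI)
    rw [aeval_map_algebraMap, hcw, aeval_smul he] at h1
    have h2 := (mul_eq_zero.1 h1).resolve_left (pow_ne_zero _ hc)
    rw [eval_map, ← aeval_def]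
    exact h2
  have h1 : aeval (fun l => map (algebraMap K k) (θ l)) Φ ∈
      vanishingIdeal k (zeroLocus k (I.map (map (algebraMap K k)))) := by
    rw [mem_vanishingIdeal_iff]
    intro w hw
    rw [← hΦ w (hzero hw), ← AlgHom.comp_apply, comp_aeval]
    congr 2
    funext l
    simp [θ]
  rw [vanishingIdeal_zeroLocus_eq_radical] at h1
  obtain ⟨e, he⟩ := h1
  have h2 : Φ ^ e = 0 := by
    ext ν
    rw [coeff_zero, ← Module.forall_dual_apply_eq_zero_iff K]
    intro ℓ
    have h3 : lst ℓ (Φ ^ e) = 0 := by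
      apply hT
      intro w hw
      have h4 := lst_mem ℓ I he 1
      rw [one_mul, ← map_pow, lst_aeval] at h4
      have h5 := (mem_vanishingIdeal_iff.1 h4) w hw
      rw [← AlgHom.comp_apply, comp_aeval] at h5
      rw [← h5]
      congr 2
      funext l
      simp [θ]
    rw [← coeff_lst, h3, coeff_zero]
  exact IsReduced.eq_zero _ ⟨e, h2⟩

end Pool.Agent.T6.H19.KS
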