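import Pool.Agent.T6.H19.KS.Geo

/-!
The bigraded Hilbert function of a graph grows at least like that of projective space of the
dimension given by a Noether normalization.
-/

set_option autoImplicit false

namespace Pool.Agent.T6.H19.KS

open MvPolynomial Pool.Agent.H251R6.SDD

variable {K k ι : Type} [Field K] [Field k] [Algebra K k] [Fintype ι]

/-- exponents of degree `m t` -/
noncomputable def dmu {m t : ℕ} (μ : Fin m → Fin (t + 1)) : Fin (m + 1) →₀ ℕ :=
  Finsupp.equivFunOnFinite.symm (Fin.cons (m * t - ∑ i, (μ i : ℕ)) fun i => (μ i : ℕ))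

theorem dmu_inj {m t : ℕ} : Function.Injective (dmu : (Fin m → Fin (t + 1)) → _) := by
  intro μ μ' h
  have h1 := Finsupp.equivFunOnFinite.symm.injective h
  have h2 := (Fin.cons_inj.1 h1).2
  funext i
  exact Fin.ext (congrFun h2 i)

theorem dmu_degree {m t : ℕ} (μ : Fin m → Fin (t + 1)) : (dmu μ).degree = m * t := by
  rw [Finsupp.degree_eq_sum, Fin.sum_univ_succ]
  simp only [dmu, Finsupp.equivFunOnFinite_symm_apply_apply, Fin.cons_zero, Fin.cons_succ]
  have h1 : ∑ i, (μ i : ℕ) ≤ m * t := by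
    calc ∑ i, (μ i : ℕ) ≤ ∑ _i : Fin m, t := Finset.sum_le_sum (fun i _ => by have := (μ i).2; omega)
      _ = m * t := by simp
  omega

theorem aeval_zero_cases {σ : Type} {F : MvPolynomial σ k} {e : ℕ} (hF : F.IsHomogeneous e)
    (z : σ → k) (hz : aeval z F = 0) : aeval (0 : σ → k) F = 0 := by
  by_cases he : e = 0
  · subst he
    rw [aeval_const_of_hom hF 0 z, hz]
  · exact aeval_zero_of_hom hF he

theorem graphHilbert_ge [IsAlgClosed k] {V : Set (PSpace k ι)} (hVK : IsVarietyOver K V)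
    {g : PSpace k ι → PSpace k ι} (hg : LocRep K V g) {m : ℕ} (T : Fin (m + 1) → ι → K)
    (hT : ∀ Φ : MvPolynomial (Fin (m + 1)) K,
      (∀ w ∈ cone V, aeval (fun l => ∑ i, algebraMap K k (T l i) * w i) Φ = 0) → Φ = 0)
    (t a : ℕ) : (t + 1) ^ m ≤ graphHilbert V g (m * t) a := by
  classical
  obtain ⟨x0, hx0⟩ := hVK.2.1
  obtain ⟨j, hj⟩ := Function.ne_iff.1 (g x0).rep_nonzero
  set b := m * t with hb
  let θX : Fin (m + 1) → MvPolynomial (ι ⊕ ι) k :=
    fun l => ∑ i, C (algebraMap K k (T l i)) * X (Sum.inl i)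
  have hθX : ∀ l, IsWeightedHomogeneous (biWeight ι) (θX l) (1, 0) := fun l => lin_hom _
  have hP1 : ∀ Φ : MvPolynomial (Fin (m + 1)) k, Φ.IsHomogeneous b →
      IsWeightedHomogeneous (biWeight ι) (aeval θX Φ) (b, 0) := by
    intro Φ hΦ
    rw [aeval_def, eval₂_eq']
    refine IsWeightedHomogeneous.sum _ _ _ (fun ν hν => ?_)
    have h1 : IsWeightedHomogeneous (biWeight ι) (∏ l, θX l ^ ν l) (∑ l, ν l • ((1, 0) : ℕ × ℕ)) :=
      IsWeightedHomogeneous.prod _ _ _ (fun l _ => (hθX l).pow _)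
    have h2 : (∑ l, ν l • ((1, 0) : ℕ × ℕ)) = (b, 0) := by
      have h3 : ∑ l, ν l = b := by
        rw [hΦ.degree_eq_sum_deg_support hν]
        exact (Finset.sum_subset (Finset.subset_univ _) (fun i _ hi => by simpa using hi)).symm
      ext
      · simp [Prod.fst_sum, h3]
      · simp [Prod.snd_sum]
    rw [h2] at h1
    exact h1.C_mul _
  have hP2 : IsWeightedHomogeneous (biWeight ι) ((X (Sum.inr j) : MvPolynomial (ι ⊕ ι) k) ^ a)
      (0, a) := by
    have h1 := (isWeightedHomogeneous_X k (biWeight ι) (Sum.inr j)).pow a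
    have h2 : a • biWeight ι (Sum.inr j) = (0, a) := by simp [biWeight]
    rwa [h2] at h1
  -- the linear map
  let L : homogeneousSubmodule (Fin (m + 1)) k b →ₗ[k] (V → k) :=
    (evalGraph V g).comp ((LinearMap.mulRight k ((X (Sum.inr j) : MvPolynomial (ι ⊕ ι) k) ^ a)).comp
      ((aeval θX).toLinearMap.comp (homogeneousSubmodule (Fin (m + 1)) k b).subtype))
  have hL : ∀ Φ, L Φ = evalGraph V g (aeval θX Φ.1 * X (Sum.inr j) ^ a) := fun Φ => rfl
  have hLmem : ∀ Φ, L Φ ∈ (BF k ι b a).map (evalGraph V g) := by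
    intro Φ
    rw [hL]
    refine Submodule.mem_map_of_mem ?_
    have h1 := (hP1 Φ.1 Φ.2).mul hP2
    have h2 : ((b, 0) : ℕ × ℕ) + (0, a) = (b, a) := by simp
    rw [h2] at h1
    exact h1
  have hval : ∀ (Φ : MvPolynomial (Fin (m + 1)) k) (w w' : ι → k),
      aeval (Sum.elim w w') (aeval θX Φ) =
        aeval (fun l => ∑ i, algebraMap K k (T l i) * w i) Φ := by
    intro Φ w w'
    rw [← AlgHom.comp_apply, comp_aeval]
    congr 2
    funext l
    simp [θX]
  have hLinj : ∀ Φ, L Φ = 0 → Φ = 0 := by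
    intro Φ hΦ
    rw [hL] at hΦ
    have h1 : ∀ x ∈ V, aeval (Sum.elim x.rep (g x).rep) (aeval θX Φ.1) = 0 ∨
        aeval (Sum.elim x.rep (g x).rep) ((X (Sum.inr j) : MvPolynomial (ι ⊕ ι) k) ^ a) = 0 := by
      intro x hx
      have h2 := congrFun hΦ ⟨x, hx⟩
      rw [evalGraph_apply, map_mul, Pi.zero_apply] at h2
      exact mul_eq_zero.1 h2
    rcases irred_mul hVK.2 hg (hP1 Φ.1 Φ.2) hP2 h1 with h2 | h2
    · apply Subtype.ext
      refine indep_k ⟨x0, hx0⟩ hVK.1 T hT Φ.1 (fun w hw => ?_)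
      have h3 : ∀ x ∈ V, aeval (fun l => ∑ i, algebraMap K k (T l i) * x.rep i) Φ.1 = 0 := by
        intro x hx
        rw [← hval _ _ (g x).rep]
        exact h2 x hx
      by_cases hw0 : w = 0
      · subst hw0
        have h4 : (fun l => ∑ i, algebraMap K k (T l i) * (0 : ι → k) i) =
            (0 : Fin (m + 1) → k) := by
          funext l
          simp
        rw [h4]
        exact aeval_zero_cases Φ.2 _ (h3 x0 hx0)
      · obtain ⟨c, hc, hcw⟩ := exists_rep_smul hw0
        have h4 := h3 _ (hw hw0)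
        have h5 : (fun l => ∑ i, algebraMap K k (T l i) * w i) =
            c • (fun l => ∑ i, algebraMap K k (T l i) * (Projectivization.mk k w hw0).rep i) := by
          funext l
          rw [Pi.smul_apply, smul_eq_mul, Finset.mul_sum]
          refine Finset.sum_congr rfl (fun i _ => ?_)
          have h6 := congrFun hcw i
          rw [Pi.smul_apply, smul_eq_mul] at h6
          rw [h6]
          ring
        rw [h5, aeval_smul Φ.2, h4, mul_zero]
    · exfalso
      have h3 := h2 x0 hx0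
      rw [map_pow, aeval_X, Sum.elim_inr] at h3
      exact pow_ne_zero _ hj h3
  let L' : homogeneousSubmodule (Fin (m + 1)) k b →ₗ[k] (BF k ι b a).map (evalGraph V g) :=
    L.codRestrict _ hLmem
  have hL' : LinearMap.ker L' = ⊥ := by
    rw [LinearMap.ker_eq_bot']
    intro Φ hΦ
    exact hLinj Φ (congrArg Subtype.val hΦ)
  -- monomials
  let M : (Fin m → Fin (t + 1)) → homogeneousSubmodule (Fin (m + 1)) k b := fun μ =>
    ⟨monomial (dmu μ) 1, isHomogeneous_monomial _ (dmu_degree μ)⟩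
  have hM : LinearIndependent k M := by
    refine LinearIndependent.of_comp (homogeneousSubmodule (Fin (m + 1)) k b).subtype ?_
    have h1 := (basisMonomials (Fin (m + 1)) k).linearIndependent.comp dmu
      (dmu_inj (m := m) (t := t))
    rw [coe_basisMonomials] at h1
    exact h1
  have h1 := (hM.map' L' hL').fintype_card_le_finrank
  have h2 : Fintype.card (Fin m → Fin (t + 1)) = (t + 1) ^ m := by simp
  rw [h2] at h1
  exact h1

/-- The total degree of the Hilbert polynomial is at least the dimension. -/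
theorem dim_le [IsAlgClosed k] {V : Set (PSpace k ι)} (hVK : IsVarietyOver K V)
    {g : PSpace k ι → PSpace k ι} (hg : LocRep K V g) {m : ℕ} (T : Fin (m + 1) → ι → K)
    (hT : ∀ Φ : MvPolynomial (Fin (m + 1)) K,
      (∀ w ∈ cone V, aeval (fun l => ∑ i, algebraMap K k (T l i) * w i) Φ = 0) → Φ = 0)
    {r : ℕ} {c : ℕ → ℕ → ℚ}
    (h : ∃ B : ℕ, ∀ b ≥ B, ∀ a ≥ B, (graphHilbert V g b a : ℚ) =
      ∑ i ∈ Finset.range (r + 1), ∑ j ∈ Finset.range (r + 1 - i), c i j * b ^ i * a ^ j) :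
    m ≤ r := by
  by_contra hlt
  push Not at hlt
  obtain ⟨B, hB⟩ := h
  -- a bound for the polynomial with `a = B`
  let S : ℚ := ∑ i ∈ Finset.range (r + 1), ∑ j ∈ Finset.range (r + 1 - i),
    |c i j| * (m : ℚ) ^ i * (B : ℚ) ^ j
  obtain ⟨n, hn⟩ := exists_nat_gt S
  let t : ℕ := n + B + 1
  have ht : (1 : ℚ) ≤ t := by exact_mod_cast (by omega : 1 ≤ n + B + 1)
  have hmt : B ≤ m * t := by
    have h1 : 1 ≤ m := by omega
    calc B ≤ t := by omega
      _ ≤ m * t := Nat.le_mul_of_pos_left _ h1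
  have h1 := graphHilbert_ge hVK hg T hT t B
  have h2 := hB (m * t) hmt B le_rfl
  have h3 : (graphHilbert V g (m * t) B : ℚ) ≤ S * t ^ r := by
    rw [h2, Finset.sum_mul]
    refine Finset.sum_le_sum (fun i hi => ?_)
    rw [Finset.sum_mul]
    refine Finset.sum_le_sum (fun j hj => ?_)
    rw [Finset.mem_range] at hi
    have h4 : ((m * t : ℕ) : ℚ) ^ i ≤ (m : ℚ) ^ i * (t : ℚ) ^ r := by
      push_cast
      rw [mul_pow]
      exact mul_le_mul_of_nonneg_left (pow_le_pow_right₀ ht (by omega)) (by positivity)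
    calc c i j * ((m * t : ℕ) : ℚ) ^ i * (B : ℚ) ^ j
        ≤ |c i j| * ((m * t : ℕ) : ℚ) ^ i * (B : ℚ) ^ j := by
          refine mul_le_mul_of_nonneg_right (mul_le_mul_of_nonneg_right (le_abs_self _) ?_) ?_ <;>
            positivity
      _ ≤ |c i j| * ((m : ℚ) ^ i * (t : ℚ) ^ r) * (B : ℚ) ^ j := by
          refine mul_le_mul_of_nonneg_right (mul_le_mul_of_nonneg_left h4 (abs_nonneg _)) ?_
          positivity
      _ = |c i j| * (m : ℚ) ^ i * (B : ℚ) ^ j * (t : ℚ) ^ r := by ring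
  have h4 : ((t : ℚ) + 1) ^ m ≤ S * t ^ r := le_trans (by exact_mod_cast h1) h3
  have h5 : (t : ℚ) ^ (r + 1) ≤ ((t : ℚ) + 1) ^ m := by
    calc (t : ℚ) ^ (r + 1) ≤ (t : ℚ) ^ m := pow_le_pow_right₀ ht (by omega)
      _ ≤ ((t : ℚ) + 1) ^ m := pow_le_pow_left₀ (by linarith) (by linarith) _
  have h6 : (t : ℚ) ≤ S := by
    have h7 : (t : ℚ) ^ r * t ≤ (t : ℚ) ^ r * S := by
      rw [← pow_succ, mul_comm _ S]
      exact h5.trans h4
    exact le_of_mul_le_mul_left h7 (by positivity)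
  have h7 : (n : ℚ) ≤ t := by exact_mod_cast (by omega : n ≤ n + B + 1)
  linarith

end Pool.Agent.T6.H19.KS
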