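import Pool.Agent.T6.H19.KS.Rec

/-!
Uniform bounds for slowly growing solutions of approximate linear recurrences.
-/

set_option autoImplicit false

namespace Pool.Agent.T6.H19.KS

/-- `y` satisfies the recurrence with coefficients `a` up to errors `≤ η max (1, y) + E η`. -/
def ApRec {d : ℕ} (a : Fin d → ℝ) (E : ℝ → ℝ) (y : ℕ → ℝ) : Prop :=
  ∀ η > 0, ∀ n, |y (n + d) - ∑ i : Fin d, a i * y (n + i)| ≤ η * max 1 (y n) + E η

theorem pass {d : ℕ} (a : Fin d → ℝ) {ν μ ρ₁ ρ₂ C0 : ℝ} (hν : 0 ≤ ν) (hνρ : ν < ρ₁)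
    (hρ : ρ₁ ≤ ρ₂) (hμρ : ρ₂ < μ) (hρ1 : 1 ≤ ρ₁) (hC0 : 1 ≤ C0) (E : ℝ → ℝ)
    {L : List ℂ} (hL : ∀ l ∈ L, ‖l‖ ≤ ν ∨ μ ≤ ‖l‖) (hLd : L.length = d)
    (hop : ∀ y : ℕ → ℂ, ∀ n, opl L y n = y (n + d) - ∑ i : Fin d, (a i : ℂ) * y (n + i)) :
    ∃ C : ℝ, 0 ≤ C ∧ ∀ W : ℕ → ℝ, IsWt ρ₁ ρ₂ W → W 0 = 1 → ∀ y : ℕ → ℝ, (∀ n, 0 ≤ y n) →
      (∀ n, y (n + 1) ≤ C0 * max 1 (y n)) → ApRec a E y → (∃ K : ℝ, ∀ n, y n ≤ K * W n) →
      ∀ n, y n ≤ C * max 1 (y 0) * W n := by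
  obtain ⟨C, hC, hCb⟩ := opl_bound hν hνρ hρ hμρ L hL
  set η : ℝ := 1 / (2 * (C + 1)) with hη
  have hη0 : 0 < η := by positivity
  set E' : ℝ := max 0 (E η) with hE'
  have hE'0 : 0 ≤ E' := le_max_left _ _
  refine ⟨2 * (1 + C * (C0 ^ d + E')), by positivity, fun W hW hW0 y hy0 hyC hrec hK n => ?_⟩
  obtain ⟨K, hK⟩ := hK
  have hW1 : ∀ n, 1 ≤ W n := fun n => hW0 ▸ wt_mono hρ1 hW n
  have hK0 : 0 ≤ K := by
    have h1 := (hy0 0).trans (hK 0)
    rwa [hW0, mul_one] at h1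
  set Y : ℕ → ℝ := fun n => max 1 (y n) with hY
  have hY1 : ∀ n, 1 ≤ Y n := fun n => le_max_left _ _
  have hyY : ∀ n, y n ≤ Y n := fun n => le_max_right _ _
  set S : ℝ := ⨆ n, Y n / W n with hS
  have hbdd : BddAbove (Set.range fun n => Y n / W n) := by
    refine ⟨K + 1, ?_⟩
    rintro _ ⟨n, rfl⟩
    refine (div_le_iff₀ (hW.1 n)).2 (max_le ?_ ?_)
    · nlinarith [hW1 n]
    · nlinarith [hK n, hW1 n]
  have hYS : ∀ n, Y n ≤ S * W n := fun n => (div_le_iff₀ (hW.1 n)).1 (le_ciSup hbdd n)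
  have hS0 : 0 ≤ S := Real.iSup_nonneg (fun n => div_nonneg (by linarith [hY1 n]) (hW.1 n).le)
  -- initial values
  have hinit : ∀ i, Y i ≤ C0 ^ i * Y 0 := by
    intro i
    induction i with
    | zero => rw [pow_zero, one_mul]
    | succ i ih =>
      have h1 : 1 ≤ C0 ^ (i + 1) * Y 0 :=
        one_le_mul_of_one_le_of_one_le (one_le_pow₀ hC0) (hY1 0)
      refine max_le h1 ((hyC i).trans ?_)
      calc C0 * Y i ≤ C0 * (C0 ^ i * Y 0) := mul_le_mul_of_nonneg_left ih (by linarith)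
        _ = C0 ^ (i + 1) * Y 0 := by ring
  set B : ℝ := C0 ^ d * Y 0 + η * S + E' with hB
  have hY00 : 0 ≤ Y 0 := by linarith [hY1 0]
  have hC0d : 0 ≤ C0 ^ d := by positivity
  have hB0 : 0 ≤ B := by positivity
  have hmain : ∀ n, y n ≤ C * B * W n := by
    intro n
    have h1 := hCb W hW (fun n => (y n : ℂ)) B hB0 ⟨K, fun n => ?_⟩ (fun i hi => ?_)
      (fun n => ?_) n
    · rwa [Complex.norm_real, Real.norm_of_nonneg (hy0 n)] at h1
    · rw [Complex.norm_real, Real.norm_of_nonneg (hy0 n)]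
      exact hK n
    · rw [Complex.norm_real, Real.norm_of_nonneg (hy0 i), hW0, mul_one]
      calc y i ≤ Y i := hyY i
        _ ≤ C0 ^ i * Y 0 := hinit i
        _ ≤ C0 ^ d * Y 0 := by
            refine mul_le_mul_of_nonneg_right (pow_le_pow_right₀ hC0 ?_) hY00
            omega
        _ ≤ B := by
            have : 0 ≤ η * S := by positivity
            linarith
    · rw [hop]
      have h2 : ((y (n + d) : ℝ) : ℂ) - ∑ i : Fin d, (a i : ℂ) * ((y (n + i) : ℝ) : ℂ) =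
          ((y (n + d) - ∑ i : Fin d, a i * y (n + i) : ℝ) : ℂ) := by
        push_cast
        rfl
      change ‖((y (n + d) : ℝ) : ℂ) - ∑ i : Fin d, (a i : ℂ) * ((y (n + i) : ℝ) : ℂ)‖ ≤ _
      rw [h2, Complex.norm_real, Real.norm_eq_abs]
      refine (hrec η hη0 n).trans ?_
      have h3 : η * max 1 (y n) ≤ η * (S * W n) := mul_le_mul_of_nonneg_left (hYS n) hη0.le
      have h4 : E η ≤ E' * W n := by
        have h5 : E η ≤ E' := le_max_right _ _
        nlinarith [hW1 n]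
      have h6 : 0 ≤ C0 ^ d * Y 0 * W n := by
        have := hW1 n
        positivity
      calc η * max 1 (y n) + E η ≤ η * (S * W n) + E' * W n := add_le_add h3 h4
        _ ≤ B * W n := by
            rw [hB]
            nlinarith
  have hSle : S ≤ 1 + C * B := by
    refine ciSup_le (fun n => ?_)
    rw [div_le_iff₀ (hW.1 n)]
    have h1 := hmain n
    have h2 := hW1 n
    have h3 : 0 ≤ C * B := by positivity
    refine max_le ?_ ?_
    · nlinarith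
    · nlinarith
  have hCη : C * η ≤ 1 / 2 := by
    rw [hη, mul_one_div, div_le_div_iff₀ (by positivity) (by norm_num)]
    linarith
  have hS2 : S ≤ 2 * (1 + C * (C0 ^ d + E')) * Y 0 := by
    have h1 : C * B = C * (C0 ^ d * Y 0) + C * η * S + C * E' := by
      rw [hB]
      ring
    have h2 : C * η * S ≤ 1 / 2 * S := mul_le_mul_of_nonneg_right hCη hS0
    have h3 : C * E' ≤ C * E' * Y 0 := le_mul_of_one_le_right (by positivity) (hY1 0)
    have h4 := hY1 0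
    nlinarith
  calc y n ≤ Y n := hyY n
    _ ≤ S * W n := hYS n
    _ ≤ 2 * (1 + C * (C0 ^ d + E')) * Y 0 * W n := mul_le_mul_of_nonneg_right hS2 (hW.1 n).le

/-- A gap below `μ`. -/
theorem exists_gap (L : List ℂ) {μ : ℝ} (hμ : 1 < μ) :
    ∃ ν : ℝ, 1 ≤ ν ∧ ν < μ ∧ ∀ l ∈ L, ‖l‖ ≤ ν ∨ μ ≤ ‖l‖ := by
  induction L with
  | nil => exact ⟨1, le_rfl, hμ, fun l hl => by simp at hl⟩
  | cons l L ih =>
    obtain ⟨ν, h1, h2, h3⟩ := ih
    by_cases hl : μ ≤ ‖l‖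
    · refine ⟨ν, h1, h2, fun l' hl' => ?_⟩
      rcases List.mem_cons.1 hl' with h | h
      · subst h
        exact Or.inr hl
      · exact h3 l' h
    · push Not at hl
      refine ⟨max ν ‖l‖, h1.trans (le_max_left _ _), max_lt h2 hl, fun l' hl' => ?_⟩
      rcases List.mem_cons.1 hl' with h | h
      · subst h
        exact Or.inl (le_max_right _ _)
      · rcases h3 l' h with h | h
        · exact Or.inl (h.trans (le_max_left _ _))
        · exact Or.inr h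

theorem uniform_bound {d : ℕ} (a : Fin d → ℝ) {μ C0 : ℝ} (hμ : 1 < μ) (hC0 : 1 ≤ C0)
    (E : ℝ → ℝ) : ∃ ρ₁ : ℝ, 1 ≤ ρ₁ ∧ ρ₁ < μ ∧ ∃ C : ℝ, 1 ≤ C ∧ ∀ y : ℕ → ℝ, (∀ n, 0 ≤ y n) →
      (∀ n, y (n + 1) ≤ C0 * max 1 (y n)) → ApRec a E y →
      (∃ K ρ : ℝ, 0 ≤ ρ ∧ ρ < μ ∧ ∀ n, y n ≤ K * ρ ^ n) →
      ∀ n, y n ≤ C * ρ₁ ^ n * max 1 (y 0) := by
  obtain ⟨L, hLd, hop⟩ := exists_list a
  obtain ⟨ν, hν1, hνμ, hL⟩ := exists_gap L hμ
  set ρ₁ : ℝ := (ν + μ) / 2 with hρ₁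
  have h1 : ν < ρ₁ := by rw [hρ₁]; linarith
  have h2 : ρ₁ < μ := by rw [hρ₁]; linarith
  have hρ11 : 1 ≤ ρ₁ := by linarith
  have hν0 : 0 ≤ ν := by linarith
  have hρ10 : 0 < ρ₁ := by linarith
  obtain ⟨C, hC, hCb⟩ := pass a hν0 h1 le_rfl h2 hρ11 hC0 E hL hLd hop
  refine ⟨ρ₁, hρ11, h2, C + 1, by linarith, fun y hy0 hyC hrec hK n => ?_⟩
  -- first pass
  obtain ⟨C2, hC2, hfirst⟩ : ∃ C2 : ℝ, 0 ≤ C2 ∧ ∀ m, y m ≤ C2 * ρ₁ ^ m := by
    obtain ⟨K, ρ, hρ0, hρμ, hK⟩ := hK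
    have hK0 : 0 ≤ K := by
      have h3 := (hy0 0).trans (hK 0)
      rwa [pow_zero, mul_one] at h3
    set ρ₂ := max ρ ρ₁ with hρ₂
    have hρ12 : ρ₁ ≤ ρ₂ := le_max_right _ _
    have hρ2μ : ρ₂ < μ := max_lt hρμ h2
    have hρ20 : 0 < ρ₂ := hρ10.trans_le hρ12
    obtain ⟨C2, hC2, hCb2⟩ := pass a hν0 h1 hρ12 hρ2μ hρ11 hC0 E hL hLd hop
    refine ⟨C2 * max 1 (y 0), by positivity, fun m => ?_⟩
    let W : ℕ → ℝ := fun n => if n ≤ m then ρ₁ ^ n else ρ₁ ^ m * ρ₂ ^ (n - m)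
    have hWpos : ∀ n, 0 < W n := by
      intro n
      simp only [W]
      split_ifs <;> positivity
    have hWt : IsWt ρ₁ ρ₂ W := by
      refine ⟨hWpos, fun n => ?_⟩
      have hn := hWpos n
      by_cases hnm : n + 1 ≤ m
      · have e1 : W (n + 1) = ρ₁ * W n := by
          simp only [W]
          rw [if_pos hnm, if_pos (by omega : n ≤ m), pow_succ]
          ring
        rw [e1]
        exact ⟨le_rfl, mul_le_mul_of_nonneg_right hρ12 hn.le⟩
      · have e1 : W (n + 1) = ρ₂ * W n := by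
          simp only [W]
          rw [if_neg hnm]
          by_cases hnm' : n ≤ m
          · have : n = m := by omega
            subst this
            rw [if_pos le_rfl, Nat.add_sub_cancel_left, pow_one]
            ring
          · rw [if_neg hnm']
            have e2 : n + 1 - m = (n - m) + 1 := by omega
            rw [e2, pow_succ]
            ring
        rw [e1]
        exact ⟨mul_le_mul_of_nonneg_right hρ12 hn.le, le_rfl⟩
    have hW0 : W 0 = 1 := by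
      simp only [W]
      rw [if_pos (Nat.zero_le _), pow_zero]
    have h3 := hCb2 W hWt hW0 y hy0 hyC hrec ⟨K * ρ₂ ^ m, fun n => ?_⟩ m
    · have e1 : W m = ρ₁ ^ m := by
        simp only [W]
        rw [if_pos le_rfl]
      rwa [e1] at h3
    · have h4 : y n ≤ K * ρ₂ ^ n := (hK n).trans
        (mul_le_mul_of_nonneg_left (pow_le_pow_left₀ hρ0 (le_max_left _ _) n) hK0)
      refine h4.trans ?_
      rw [mul_assoc]
      refine mul_le_mul_of_nonneg_left ?_ hK0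
      have hρ21 : 1 ≤ ρ₂ := hρ11.trans hρ12
      by_cases hnm : n ≤ m
      · have e1 : 1 ≤ W n := by
          simp only [W]
          rw [if_pos hnm]
          exact one_le_pow₀ hρ11
        calc ρ₂ ^ n ≤ ρ₂ ^ m := pow_le_pow_right₀ hρ21 hnm
          _ ≤ ρ₂ ^ m * W n := le_mul_of_one_le_right (by positivity) e1
      · have e1 : W n = ρ₁ ^ m * ρ₂ ^ (n - m) := by
          simp only [W]
          rw [if_neg hnm]
        rw [e1]
        calc ρ₂ ^ n = ρ₂ ^ m * ρ₂ ^ (n - m) := by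
              rw [← pow_add]
              congr 1
              omega
          _ ≤ ρ₂ ^ m * (ρ₁ ^ m * ρ₂ ^ (n - m)) := by
              refine mul_le_mul_of_nonneg_left ?_ (by positivity)
              exact le_mul_of_one_le_left (by positivity) (one_le_pow₀ hρ11)
  -- second pass
  have hWt : IsWt ρ₁ ρ₁ (fun n => ρ₁ ^ n) := by
    refine ⟨fun n => pow_pos hρ10 n, fun n => ?_⟩
    have e1 : ρ₁ ^ (n + 1) = ρ₁ * ρ₁ ^ n := by
      rw [pow_succ]
      ring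
    exact ⟨e1.ge, e1.le⟩
  have h3 := hCb (fun n => ρ₁ ^ n) hWt (pow_zero _) y hy0 hyC hrec ⟨C2, hfirst⟩ n
  calc y n ≤ C * max 1 (y 0) * ρ₁ ^ n := h3
    _ ≤ (C + 1) * ρ₁ ^ n * max 1 (y 0) := by
        have h5 : 0 ≤ ρ₁ ^ n * max 1 (y 0) := by positivity
        nlinarith

end Pool.Agent.T6.H19.KS
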