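import Pool.Agent.T6.H19.KS.Fin
import Pool.Agent.T6.H19.KS.Uni

/-!
Points of small arithmetic degree.
-/

set_option autoImplicit false

namespace Pool.Agent.T6.H19.KS

open MvPolynomial Pool.Agent.H251R6.SDD Filter

/-- The logarithmic Weil height (relative to `K`) of a `K`-rational point. -/
noncomputable def hK (K : Type) {k ι : Type} [Field K] [NumberField K] [Field k] [Algebra K k]
    (x : PSpace k ι) : ℝ := Real.log (HK K x)

/-- `a` is the arithmetic degree of `f` at `x`: the limit of `h⁺(f ^ m (x)) ^ (1 / m)`, where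
`h⁺ = max (1, h)`. -/
def IsArithmeticDegree (K : Type) {k ι : Type} [Field K] [NumberField K] [Field k] [Algebra K k]
    (f : PSpace k ι → PSpace k ι) (x : PSpace k ι) (a : ℝ) : Prop :=
  Tendsto (fun m : ℕ => (max 1 (hK K (f^[m] x))) ^ ((1 : ℝ) / m)) atTop (nhds a)

/-- A set `S` of points of `V` is covered at rate `ε`: for some `A` and all `T ≥ 1`, the points of
`S` of height `≤ T` lie on at most `A T ^ ε` hypersurfaces defined over `K`, of degree `≤ A`, none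
of which contains `V`. -/
def CoveredAtRate (K : Type) {k ι : Type} [Field K] [NumberField K] [Field k] [Algebra K k]
    (V S : Set (PSpace k ι)) (ε : ℝ) : Prop :=
  ∃ A : ℕ, ∀ T : ℝ, 1 ≤ T → ∃ 𝓖 : Finset (MvPolynomial ι K), (𝓖.card : ℝ) ≤ A * T ^ ε ∧
    (∀ G ∈ 𝓖, (∃ d ≤ A, G.IsHomogeneous d) ∧ ∃ x ∈ V, aeval x.rep G ≠ 0) ∧
    ∀ x ∈ S, HK K x ≤ T → ∃ G ∈ 𝓖, aeval x.rep G = 0

/-- The heights along the orbits of `f` satisfy a linear recurrence up to errors
`≤ η max (1, h) + O_η(1)` for every `η > 0`. -/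
def HasApproxRec (K : Type) {k ι : Type} [Field K] [NumberField K] [Field k] [Algebra K k]
    (V : Set (PSpace k ι)) (f : PSpace k ι → PSpace k ι) : Prop :=
  ∃ (d : ℕ) (a : Fin d → ℝ) (E : ℝ → ℝ), ∀ x ∈ ratPoints K V, ∀ η > 0,
    |hK K (f^[d] x) - ∑ i : Fin d, a i * hK K (f^[i] x)| ≤ η * max 1 (hK K x) + E η

section

variable {K k ι : Type} [Field K] [NumberField K] [Field k] [Algebra K k]

theorem hK_nonneg [Finite ι] (x : PSpace k ι) : 0 ≤ hK K x := Real.log_nonneg (one_le_HK x)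

theorem HK_le_of_log [Finite ι] {x : PSpace k ι} {T κ : ℝ} (hT : 0 < T)
    (h : hK K x ≤ κ * Real.log T) : HK K x ≤ T ^ κ := by
  have h1 : 0 < HK K x := lt_of_lt_of_le one_pos (one_le_HK x)
  rw [← Real.exp_log h1, Real.rpow_def_of_pos hT]
  apply Real.exp_le_exp.2
  rw [mul_comm]
  exact h

theorem CoveredAtRate.mono {V S S' : Set (PSpace k ι)} {ε : ℝ} (h : CoveredAtRate K V S ε)
    (hS : S' ⊆ S) : CoveredAtRate K V S' ε := by
  obtain ⟨A, hA⟩ := h
  refine ⟨A, fun T hT => ?_⟩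
  obtain ⟨𝓖, h1, h2, h3⟩ := hA T hT
  exact ⟨𝓖, h1, h2, fun x hx => h3 x (hS hx)⟩

variable [IsAlgClosed k] [Fintype ι]

theorem rat_image {V : Set (PSpace k ι)} (hV : IsVarietyOver K V)
    {g : PSpace k ι → PSpace k ι} (hg : LocRep K V g) :
    (∀ x ∈ ratPoints K V, g x ∈ ratPoints K V) ∧
      ∃ C0 : ℝ, 1 ≤ C0 ∧ ∀ x ∈ ratPoints K V, hK K (g x) ≤ C0 * max 1 (hK K x) := by
  classical
  obtain ⟨Λ', _, e, F, mm, B, hF, hF0, hB⟩ := exists_cover hV.1 hg
  have hinj : Function.Injective (algebraMap K k) := (algebraMap K k).injective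
  have haev : ∀ (w : ι → K) (Q : MvPolynomial ι K),
      aeval (fun i => algebraMap K k (w i)) Q = algebraMap K k (aeval w Q) := fun w Q =>
    aeval_algebraMap_apply _ _ _
  have key : ∀ x ∈ ratPoints K V, ∃ (w : ι → K) (l : Λ'), IsCoord x w ∧
      IsCoord (g x) (fun i => aeval w (F l i)) := by
    rintro x ⟨hxV, w, hw⟩
    have hw0 := hw.ne_zero
    obtain ⟨hw', hxw⟩ := id hw
    have hcone : (fun i => algebraMap K k (w i)) ∈ cone V := by
      intro h
      rw [← hxw]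
      exact hxV
    obtain ⟨i, hi⟩ := Function.ne_iff.1 hw0
    obtain ⟨l, hl⟩ : ∃ l, (fun j => aeval (fun i => algebraMap K k (w i)) (F l j)) ≠ 0 := by
      by_contra hcon
      push Not at hcon
      have h1 := hB _ hw' hcone i
      have h2 : ∑ l, ∑ j, aeval (fun i => algebraMap K k (w i)) (B i l j) *
          aeval (fun i => algebraMap K k (w i)) (F l j) = 0 := by
        refine Finset.sum_eq_zero (fun l _ => Finset.sum_eq_zero (fun j _ => ?_))
        have h3 := congrFun (hcon l) j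
        beta_reduce at h3
        rw [h3, Pi.zero_apply, mul_zero]
      rw [h2] at h1
      have h3 := eq_zero_of_pow_eq_zero h1
      exact hi (hinj (by rw [h3, Pi.zero_apply, map_zero]))
    have h1 : (fun i => aeval (fun i => algebraMap K k (w i)) (F l i)) =
        fun i => algebraMap K k (aeval w (F l i)) := by
      funext i
      exact haev w _
    have h3 := (hF l).map_mk hw' (by rw [← hxw]; exact hxV) hl
    refine ⟨w, l, hw, ⟨by rw [← h1]; exact hl, ?_⟩⟩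
    rw [hxw, h3]
    congr 1
  have hbd : ∀ l, ∃ C : ℝ, ∀ w : ι → K, Height.logHeight (fun i => (F l i).eval w) ≤
      C + e l * Height.logHeight w := fun l => Height.logHeight_eval_le' (hF l).1
  choose C hC using hbd
  refine ⟨fun x hx => ?_, 1 + ∑ l, (|C l| + e l), ?_, fun x hx => ?_⟩
  · obtain ⟨w, l, hw, hgw⟩ := key x hx
    exact ⟨hg.1 x hx.1, _, hgw⟩
  · have : 0 ≤ ∑ l, (|C l| + (e l : ℝ)) := Finset.sum_nonneg (fun l _ => by positivity)
    linarith
  · obtain ⟨w, l, hw, hgw⟩ := key x hx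
    have h1 := hC l w
    have h2 : hK K (g x) = Height.logHeight (fun i => (F l i).eval w) := by
      rw [hK, HK_eq hgw, Height.logHeight_eq_log_mulHeight]
      rfl
    have h3 : hK K x = Height.logHeight w := by
      rw [hK, HK_eq hw, Height.logHeight_eq_log_mulHeight]
    rw [h2, h3]
    have h4 : |C l| + (e l : ℝ) ≤ ∑ l, (|C l| + (e l : ℝ)) :=
      Finset.single_le_sum (f := fun l => |C l| + (e l : ℝ)) (fun l _ => by positivity)
        (Finset.mem_univ l)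
    have h5 : (1 : ℝ) ≤ max 1 (Height.logHeight w) := le_max_left _ _
    have h6 : Height.logHeight w ≤ max 1 (Height.logHeight w) := le_max_right _ _
    have h7 := le_abs_self (C l)
    have h8 : (0 : ℝ) ≤ e l := Nat.cast_nonneg _
    have h9 : (0 : ℝ) ≤ |C l| := abs_nonneg _
    nlinarith

/-- Level `n`. -/
theorem level_covered {V : Set (PSpace k ι)} (hV : IsVarietyOver K V)
    {f : PSpace k ι → PSpace k ι} (hf : LocRep K V f) {δ : ℝ}
    (hδ : IsFirstDynamicalDegree V f δ) {μ : ℝ} (hμ1 : 1 ≤ μ) (hμ : μ < δ) {ε : ℝ}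
    (hε : 0 < ε) {C : ℝ} (hC : 1 ≤ C) : ∃ n₀ : ℕ, ∀ n ≥ n₀,
      CoveredAtRate K V {x | x ∈ ratPoints K V ∧
        hK K (f^[n] x) ≤ C * μ ^ n * max 1 (hK K x)} ε := by
  classical
  obtain ⟨Λ, hΛ, hfin⟩ := finite_level (K := K) hV hε
  obtain ⟨N, hN, hlim⟩ := hδ
  set ρ : ℝ := (μ + δ) / 2 with hρ
  have hμρ : μ < ρ := by rw [hρ]; linarith
  have hρδ : ρ < δ := by rw [hρ]; linarith
  have hμ0 : 0 < μ := by linarith
  have hρ0 : 0 < ρ := by linarith
  have h1 : ∀ᶠ n : ℕ in atTop, ρ < ((N n : ℚ) : ℝ) ^ ((1 : ℝ) / n) :=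
    hlim.eventually (lt_mem_nhds hρδ)
  have h2 : ∀ᶠ n : ℕ in atTop, Λ * C ≤ (ρ / μ) ^ n := by
    have h3 : 1 < ρ / μ := (one_lt_div hμ0).2 hμρ
    exact (tendsto_pow_atTop_atTop_of_one_lt h3).eventually_ge_atTop _
  obtain ⟨n₀, hn₀⟩ := eventually_atTop.1 (h1.and (h2.and (eventually_ge_atTop 1)))
  refine ⟨n₀, fun n hn => ?_⟩
  obtain ⟨h3, h4, h5⟩ := hn₀ n hn
  have hn1 : (0 : ℝ) < n := by exact_mod_cast h5
  have hιne : Nonempty ι := by
    obtain ⟨x, _⟩ := hV.2.1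
    obtain ⟨i, _⟩ := Function.ne_iff.1 x.rep_nonzero
    exact ⟨i⟩
  have hNpos : 0 ≤ ((N n : ℚ) : ℝ) := by
    exact_mod_cast inter_nonneg (hN n h5)
  have hNn : ρ ^ n ≤ ((N n : ℚ) : ℝ) := by
    have h6 : ρ ^ n ≤ (((N n : ℚ) : ℝ) ^ ((1 : ℝ) / n)) ^ n := pow_le_pow_left₀ hρ0.le h3.le n
    rwa [← Real.rpow_natCast (((N n : ℚ) : ℝ) ^ ((1 : ℝ) / n)), ← Real.rpow_mul hNpos,
      one_div_mul_cancel hn1.ne', Real.rpow_one] at h6
  have hκ : 1 ≤ C * μ ^ n := one_le_mul_of_one_le_of_one_le hC (one_le_pow₀ hμ1)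
  have hΛκ : Λ * (C * μ ^ n) ≤ ((N n : ℚ) : ℝ) := by
    refine le_trans ?_ hNn
    rw [div_pow, le_div_iff₀ (pow_pos hμ0 n)] at h4
    linarith
  obtain ⟨A, hA⟩ := hfin (f^[n]) (locRep_iterate hf n) (N n) (hN n h5) (C * μ ^ n) hκ hΛκ
  refine ⟨A + ⌈(A : ℝ) * Real.exp 1 ^ ε⌉₊, fun T hT => ?_⟩
  have hT0 : 0 < T := by linarith
  have he1 : (1 : ℝ) ≤ Real.exp 1 := by
    have := Real.add_one_le_exp (1 : ℝ)
    linarith
  have heT : 1 ≤ Real.exp 1 * T := one_le_mul_of_one_le_of_one_le he1 hT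
  obtain ⟨𝓖, h6, h7, h8⟩ := hA (Real.exp 1 * T) heT
  refine ⟨𝓖, ?_, fun G hG => ?_, ?_⟩
  · refine h6.trans ?_
    rw [Real.mul_rpow (by positivity) hT0.le, ← mul_assoc]
    refine mul_le_mul_of_nonneg_right ?_ (by positivity)
    push_cast
    have := Nat.le_ceil ((A : ℝ) * Real.exp 1 ^ ε)
    have h9 : (0 : ℝ) ≤ A := Nat.cast_nonneg _
    linarith
  · obtain ⟨⟨d, hd, h9⟩, h10⟩ := h7 G hG
    exact ⟨⟨d, by omega, h9⟩, h10⟩
  · rintro x ⟨hx, hhx⟩ hHT
    have hlog : max 1 (hK K x) ≤ Real.log (Real.exp 1 * T) := by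
      rw [Real.log_mul (Real.exp_pos 1).ne' hT0.ne', Real.log_exp]
      have h9 : 0 ≤ Real.log T := Real.log_nonneg hT
      have h10 : hK K x ≤ Real.log T :=
        Real.log_le_log (lt_of_lt_of_le one_pos (one_le_HK x)) hHT
      exact max_le (by linarith) (by linarith)
    refine h8 x hx ?_ ?_
    · refine hHT.trans ?_
      nlinarith
    · apply HK_le_of_log (by positivity)
      refine hhx.trans ?_
      exact mul_le_mul_of_nonneg_left hlog (by linarith)

end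

end Pool.Agent.T6.H19.KS
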