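import Mathlib

/-!
Nonarchimedean estimates for polynomials, shifting of variables, pigeonhole.
-/

set_option autoImplicit false

namespace Pool.Agent.T6.H19.KS

open MvPolynomial

variable {K : Type} [Field K]

theorem na_sum_le {v : AbsoluteValue K ℝ} (hv : IsNonarchimedean v) {α : Type} (s : Finset α)
    (f : α → K) {δ : ℝ} (hδ : 0 ≤ δ) (h : ∀ x ∈ s, v (f x) ≤ δ) : v (∑ x ∈ s, f x) ≤ δ := by
  classical
  induction s using Finset.induction_on with
  | empty => simpa using hδ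
  | insert x s hx ih =>
    rw [Finset.sum_insert hx]
    exact (hv _ _).trans (max_le (h x (Finset.mem_insert_self x s))
      (ih (fun y hy => h y (Finset.mem_insert_of_mem hy))))

/-- The valuation ring of a nonarchimedean absolute value. -/
def vr (v : AbsoluteValue K ℝ) (hv : IsNonarchimedean v) : Subring K where
  carrier := {x | v x ≤ 1}
  mul_mem' := by
    intro a b ha hb
    change v (a * b) ≤ 1
    rw [v.map_mul]
    exact mul_le_one₀ ha (v.nonneg _) hb
  one_mem' := by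
    change v 1 ≤ 1
    rw [v.map_one]
  add_mem' := by
    intro a b ha hb
    exact (hv _ _).trans (max_le ha hb)
  zero_mem' := by
    change v 0 ≤ 1
    rw [v.map_zero]
    exact zero_le_one
  neg_mem' := by
    intro a ha
    change v (-a) ≤ 1
    rw [v.map_neg]
    exact ha

theorem mem_vr {v : AbsoluteValue K ℝ} {hv : IsNonarchimedean v} {x : K} :
    x ∈ vr v hv ↔ v x ≤ 1 := Iff.rfl

theorem vr_le {v : AbsoluteValue K ℝ} {hv : IsNonarchimedean v} (x : vr v hv) :
    v (x : K) ≤ 1 := x.2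

section

variable {v : AbsoluteValue K ℝ} {hv : IsNonarchimedean v}

theorem v_prod_le {σ : Type} (s : Finset σ) (z : σ → K) (hz : ∀ i, v (z i) ≤ 1) (ν : σ → ℕ) :
    v (∏ i ∈ s, z i ^ ν i) ≤ 1 := by
  classical
  rw [map_prod]
  refine Finset.prod_le_one (fun i _ => v.nonneg _) (fun i _ => ?_)
  rw [map_pow]
  exact pow_le_one₀ (v.nonneg _) (hz i)

theorem v_aeval_le {σ : Type} (P : MvPolynomial σ (vr v hv)) (z : σ → K)
    (hz : ∀ i, v (z i) ≤ 1) : v (aeval z P) ≤ 1 := by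
  classical
  rw [aeval_def, eval₂_eq]
  refine na_sum_le hv _ _ zero_le_one (fun ν _ => ?_)
  rw [v.map_mul]
  refine mul_le_one₀ (vr_le _) (v.nonneg _) (v_prod_le _ z hz _)

/-- exponents in a box -/
noncomputable def idx {m M : ℕ} (γ : Fin m → Fin M) : Fin m →₀ ℕ :=
  Finsupp.equivFunOnFinite.symm (fun l => (γ l : ℕ))

theorem est {m M : ℕ} {t : ℝ} (ht0 : 0 ≤ t) (ht1 : t ≤ 1) (P : MvPolynomial (Fin m) (vr v hv))
    (hP : ∀ γ : Fin m → Fin M, v ((coeff (idx γ) P : vr v hv) : K) ≤ t ^ M)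
    (z : Fin m → K) (hz : ∀ l, v (z l) ≤ t) : v (aeval z P) ≤ t ^ M := by
  classical
  have hz1 : ∀ l, v (z l) ≤ 1 := fun l => (hz l).trans ht1
  rw [aeval_def, eval₂_eq']
  refine na_sum_le hv _ _ (pow_nonneg ht0 _) (fun ν _ => ?_)
  rw [v.map_mul]
  by_cases h : ∀ l, ν l < M
  · have h1 : ν = idx (fun l => (⟨ν l, h l⟩ : Fin M)) := by
      ext l
      rfl
    have h2 := hP (fun l => (⟨ν l, h l⟩ : Fin M))
    rw [← h1] at h2
    calc v (algebraMap (vr v hv) K (coeff ν P)) * v (∏ i, z i ^ ν i)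
        ≤ t ^ M * 1 := mul_le_mul h2 (v_prod_le _ z hz1 _) (v.nonneg _) (pow_nonneg ht0 _)
      _ = t ^ M := mul_one _
  · push Not at h
    obtain ⟨l, hl⟩ := h
    have h3 : v (∏ i, z i ^ ν i) ≤ t ^ M := by
      rw [← Finset.mul_prod_erase Finset.univ _ (Finset.mem_univ l), v.map_mul, map_pow]
      calc v (z l) ^ ν l * v (∏ i ∈ Finset.univ.erase l, z i ^ ν i)
          ≤ t ^ ν l * 1 := mul_le_mul (pow_le_pow_left₀ (v.nonneg _) (hz l) _)
            (v_prod_le _ z hz1 _) (v.nonneg _) (pow_nonneg ht0 _)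
        _ = t ^ ν l := mul_one _
        _ ≤ t ^ M := pow_le_pow_of_le_one ht0 ht1 hl
    calc v (algebraMap (vr v hv) K (coeff ν P)) * v (∏ i, z i ^ ν i)
        ≤ 1 * t ^ M := mul_le_mul (vr_le _) h3 (v.nonneg _) zero_le_one
      _ = t ^ M := one_mul _

end

/-- Setting the variable `i0` to `1` and translating the other ones. -/
noncomputable def shift {A : Type} [CommRing A] {m : ℕ} (i0 : Fin (m + 1)) (τ : Fin m → A) :
    MvPolynomial (Fin (m + 1)) A →ₐ[A] MvPolynomial (Fin m) A :=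
  aeval (i0.insertNth (α := fun _ => MvPolynomial (Fin m) A) 1 (fun l => X l + C (τ l)))

theorem aeval_shift {A : Subring K} {m : ℕ} (i0 : Fin (m + 1)) (τ : Fin m → A) (z : Fin m → K)
    (y : Fin (m + 1) → K) (hy0 : y i0 = 1) (hy : ∀ l, y (i0.succAbove l) = z l + τ l)
    (Q : MvPolynomial (Fin (m + 1)) A) : aeval z (shift i0 τ Q) = aeval y Q := by
  rw [shift, ← AlgHom.comp_apply, comp_aeval]
  congr 1
  congr 1
  funext l
  refine Fin.succAboveCases i0 ?_ (fun l => ?_) l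
  · rw [Fin.insertNth_apply_same, map_one, hy0]
  · rw [Fin.insertNth_apply_succAbove, map_add, aeval_X, aeval_C, hy]
    rfl

theorem pigeon {A : Type} [CommRing A] {Q : ℕ} (φ : A → Fin Q) {J I : Type} [Fintype J]
    [Fintype I] (L : I → J → A) (X : ℕ) (h : Q ^ Fintype.card I < X ^ Fintype.card J) :
    ∃ c : J → ℤ, c ≠ 0 ∧ (∀ j, |c j| ≤ X) ∧
      ∀ i, ∃ y y' : A, φ y = φ y' ∧ ∑ j, (c j : A) * L i j = y - y' := by
  classical
  let Ψ : (J → Fin X) → (I → Fin Q) := fun c i => φ (∑ j, ((c j : ℕ) : A) * L i j)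
  have hcard : Fintype.card (I → Fin Q) < Fintype.card (J → Fin X) := by
    rw [Fintype.card_fun, Fintype.card_fun, Fintype.card_fin, Fintype.card_fin]
    exact h
  obtain ⟨c, c', hne, heq⟩ := Fintype.exists_ne_map_eq_of_card_lt Ψ hcard
  refine ⟨fun j => ((c j : ℕ) : ℤ) - ((c' j : ℕ) : ℤ), ?_, fun j => ?_, fun i => ?_⟩
  · intro h0
    apply hne
    funext j
    have h1 := congrFun h0 j
    simp only [Pi.zero_apply, sub_eq_zero, Nat.cast_inj] at h1
    exact Fin.ext h1
  · have h1 := (c j).isLt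
    have h2 := (c' j).isLt
    change |((c j : ℕ) : ℤ) - ((c' j : ℕ) : ℤ)| ≤ (X : ℤ)
    rw [abs_le]
    constructor <;> omega
  · refine ⟨_, _, congrFun heq i, ?_⟩
    rw [← Finset.sum_sub_distrib]
    refine Finset.sum_congr rfl (fun j _ => ?_)
    push_cast
    ring

end Pool.Agent.T6.H19.KS
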