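import Mathlib

/-!
Choice of the parameters.
-/

set_option autoImplicit false

namespace Pool.Agent.T6.H19.KS

/-- The bidegree. -/
theorem exists_b (B' γ r m : ℕ) (N κ Ct : ℝ) (hκ : 1 ≤ κ) (hm : m ≤ r + 1) (hCt : 0 ≤ Ct)
    (hN : κ * (2 ^ m * m.factorial * (Ct + 1)) ≤ N) :
    ∃ b0 : ℕ, ∀ b : ℕ, b0 ≤ b →
      Ct * (b : ℝ) ^ m < ((b - B').choose r : ℝ) * (N * (⌈(b : ℝ) / κ⌉₊ : ℝ) - γ) := by
  have hκ0 : 0 < κ := lt_of_lt_of_le one_pos hκ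
  have hN0 : 0 < N := by
    refine lt_of_lt_of_le ?_ hN
    positivity
  set c0 : ℝ := (N / κ) / (2 ^ (r + 1) * r.factorial) with hc0
  have hc0pos : 0 < c0 := by positivity
  obtain ⟨b1, hb1⟩ := exists_nat_gt (Ct / c0)
  obtain ⟨b2, hb2⟩ := exists_nat_gt (2 * γ * κ / N)
  refine ⟨b1 + b2 + 2 * (B' + r) + 1, fun b hb => ?_⟩
  have hb0 : (1 : ℝ) ≤ b := by exact_mod_cast (by omega : 1 ≤ b)
  have hbpos : (0 : ℝ) < b := by linarith
  -- first: the lower bound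
  have h1 : ((b : ℝ) / 2) ^ r / r.factorial ≤ ((b - B').choose r : ℝ) := by
    have h2 : (((b - B') + 1 - r : ℕ) : ℝ) ^ r / r.factorial ≤ ((b - B').choose r : ℝ) :=
      Nat.pow_le_choose r (b - B')
    refine le_trans ?_ h2
    apply div_le_div_of_nonneg_right _ (by positivity)
    apply pow_le_pow_left₀ (by positivity)
    have h3 : b ≤ 2 * ((b - B') + 1 - r) := by omega
    have h4 : (b : ℝ) ≤ 2 * (((b - B') + 1 - r : ℕ) : ℝ) := by exact_mod_cast h3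
    linarith
  have h5 : (N / κ) * b / 2 ≤ N * (⌈(b : ℝ) / κ⌉₊ : ℝ) - γ := by
    have h6 : (b : ℝ) / κ ≤ (⌈(b : ℝ) / κ⌉₊ : ℝ) := Nat.le_ceil _
    have h7 : N * ((b : ℝ) / κ) ≤ N * (⌈(b : ℝ) / κ⌉₊ : ℝ) := mul_le_mul_of_nonneg_left h6 hN0.le
    have h8 : (2 * γ * κ / N : ℝ) < b := hb2.trans_le (by exact_mod_cast (by omega : b2 ≤ b))
    rw [div_lt_iff₀ hN0] at h8
    have h9 : (γ : ℝ) ≤ N * ((b : ℝ) / κ) / 2 := by
      rw [le_div_iff₀ two_pos, ← mul_div_assoc, le_div_iff₀ hκ0]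
      linarith
    have h10 : (N / κ) * b = N * ((b : ℝ) / κ) := by ring
    rw [h10]
    linarith
  have h11 : c0 * (b : ℝ) ^ (r + 1) ≤ ((b - B').choose r : ℝ) *
      (N * (⌈(b : ℝ) / κ⌉₊ : ℝ) - γ) := by
    calc c0 * (b : ℝ) ^ (r + 1) = ((b : ℝ) / 2) ^ r / r.factorial * ((N / κ) * b / 2) := by
          rw [hc0, div_pow]
          field_simp
          ring
      _ ≤ _ := mul_le_mul h1 h5 (by positivity) (by positivity)
  refine lt_of_lt_of_le ?_ h11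
  -- second: the comparison
  rcases Nat.lt_or_ge r m with hrm | hrm
  · have hrm' : m = r + 1 := by omega
    subst hrm'
    refine mul_lt_mul_of_pos_right ?_ (by positivity)
    rw [hc0, lt_div_iff₀ (by positivity), lt_div_iff₀ hκ0]
    have h12 : (r.factorial : ℝ) ≤ ((r + 1).factorial : ℝ) := by
      exact_mod_cast Nat.factorial_le (Nat.le_succ r)
    calc Ct * (2 ^ (r + 1) * r.factorial) * κ
        ≤ Ct * (2 ^ (r + 1) * (r + 1).factorial) * κ := by gcongr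
      _ < κ * (2 ^ (r + 1) * (r + 1).factorial * (Ct + 1)) := by
          have h13 : (0 : ℝ) < κ * (2 ^ (r + 1) * (r + 1).factorial) := by positivity
          nlinarith
      _ ≤ N := hN
  · have h12 : (Ct / c0 : ℝ) < b := hb1.trans_le (by exact_mod_cast (by omega : b1 ≤ b))
    rw [div_lt_iff₀ hc0pos] at h12
    calc Ct * (b : ℝ) ^ m ≤ Ct * (b : ℝ) ^ r :=
          mul_le_mul_of_nonneg_left (pow_le_pow_right₀ hb0 hrm) hCt
      _ < (b * c0) * (b : ℝ) ^ r := mul_lt_mul_of_pos_right h12 (by positivity)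
      _ = c0 * (b : ℝ) ^ (r + 1) := by ring

/-- The pigeonhole condition. -/
theorem hcard_of {q D L1 b m nβ s : ℕ} (hq : 1 < q) (hL1 : 1 ≤ L1) (hb : 1 ≤ b)
    (h : 4 * D * nβ * (4 * D * L1 * b) ^ m < s) :
    (q ^ (4 * D * L1 * b)) ^ (nβ * (4 * D * L1 * b) ^ m) < (q ^ (L1 * b)) ^ s := by
  rw [← pow_mul, ← pow_mul]
  apply Nat.pow_lt_pow_right hq
  have h1 : 0 < L1 * b := Nat.mul_pos hL1 hb
  calc 4 * D * L1 * b * (nβ * (4 * D * L1 * b) ^ m)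
      = (L1 * b) * (4 * D * nβ * (4 * D * L1 * b) ^ m) := by ring
    _ < (L1 * b) * s := Nat.mul_lt_mul_of_pos_left h h1

/-- The smallness condition. -/
theorem hsmall_of {q D L1 b s : ℕ} {T : ℝ} (hT : 1 ≤ T) (hb : 1 ≤ b) (hs : 1 ≤ s) (hq : 1 < q)
    (h : (s : ℝ) ^ D * T < ((q : ℝ)) ^ (D * L1)) :
    ((s * q ^ (L1 * b) : ℕ) : ℝ) ^ D * T ^ (3 * b) * ((q : ℝ)⁻¹) ^ (4 * D * L1 * b) < 1 := by
  have hq0 : (0 : ℝ) < q := by exact_mod_cast (by omega : 0 < q)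
  have hs1 : (1 : ℝ) ≤ s := by exact_mod_cast hs
  rw [inv_pow, ← div_eq_mul_inv, div_lt_one (by positivity)]
  have h1 : (s : ℝ) ^ D * T ^ (3 * b) ≤ ((s : ℝ) ^ D * T) ^ (3 * b) := by
    rw [mul_pow]
    refine mul_le_mul_of_nonneg_right ?_ (by positivity)
    exact le_self_pow₀ (one_le_pow₀ hs1) (by omega)
  have h2 : ((s : ℝ) ^ D * T) ^ (3 * b) < ((q : ℝ) ^ (D * L1)) ^ (3 * b) :=
    pow_lt_pow_left₀ h (by positivity) (by omega)
  calc ((s * q ^ (L1 * b) : ℕ) : ℝ) ^ D * T ^ (3 * b)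
      = ((s : ℝ) ^ D * T ^ (3 * b)) * (q : ℝ) ^ (L1 * b * D) := by
        push_cast
        rw [mul_pow, ← pow_mul]
        ring
    _ < ((q : ℝ) ^ (D * L1)) ^ (3 * b) * (q : ℝ) ^ (L1 * b * D) :=
        mul_lt_mul_of_pos_right (h1.trans_lt h2) (by positivity)
    _ = (q : ℝ) ^ (4 * D * L1 * b) := by
        rw [← pow_mul, ← pow_add]
        congr 1
        ring

/-- The height condition. -/
theorem hb_of {b : ℕ} {κ T H H' : ℝ} (hκ : 1 ≤ κ) (hT : 1 ≤ T) (hbκ : κ ≤ b) (hH0 : 0 ≤ H)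
    (hH : H ≤ T) (hH0' : 0 ≤ H') (hH' : H' ≤ T ^ κ) :
    H ^ b * H' ^ ⌈(b : ℝ) / κ⌉₊ ≤ T ^ (3 * b) := by
  have hT0 : 0 < T := lt_of_lt_of_le one_pos hT
  have hκ0 : 0 < κ := lt_of_lt_of_le one_pos hκ
  have h1 : H ^ b ≤ T ^ b := pow_le_pow_left₀ hH0 hH b
  have h2 : H' ^ ⌈(b : ℝ) / κ⌉₊ ≤ (T ^ κ) ^ ⌈(b : ℝ) / κ⌉₊ := pow_le_pow_left₀ hH0' hH' _
  have h3 : (T ^ κ) ^ ⌈(b : ℝ) / κ⌉₊ ≤ T ^ (2 * b) := by
    rw [← Real.rpow_natCast, ← Real.rpow_mul hT0.le, ← Real.rpow_natCast]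
    apply Real.rpow_le_rpow_of_exponent_le hT
    have h4 : ((⌈(b : ℝ) / κ⌉₊ : ℕ) : ℝ) < (b : ℝ) / κ + 1 :=
      Nat.ceil_lt_add_one (by positivity)
    have h5 : κ * ((⌈(b : ℝ) / κ⌉₊ : ℕ) : ℝ) ≤ κ * ((b : ℝ) / κ + 1) :=
      mul_le_mul_of_nonneg_left h4.le hκ0.le
    have h6 : κ * ((b : ℝ) / κ + 1) = b + κ := by
      field_simp
    push_cast
    linarith
  calc H ^ b * H' ^ ⌈(b : ℝ) / κ⌉₊ ≤ T ^ b * T ^ (2 * b) :=
        mul_le_mul h1 (h2.trans h3) (by positivity) (by positivity)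
    _ = T ^ (3 * b) := by
        rw [← pow_add]
        congr 1
        ring

/-- The size of the prime and the number of classes. -/
theorem exists_z (z0 s D L1 m : ℕ) (hD : 1 ≤ D) (hL1 : 1 ≤ L1) (hs : 1 ≤ s) {ε : ℝ}
    (hε : (m : ℝ) / L1 ≤ ε) {T : ℝ} (hT : 1 ≤ T) :
    ∃ z : ℕ, z0 ≤ z ∧ (s : ℝ) ^ D * T ≤ (z : ℝ) ^ (D * L1) ∧
      (((2 * z) ^ D) ^ m : ℝ) ≤ ((2 * (z0 + s + 1)) ^ D) ^ m * T ^ ε := by
  have hT0 : 0 < T := lt_of_lt_of_le one_pos hT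
  have hs1 : (1 : ℝ) ≤ s := by exact_mod_cast hs
  have hDL : (0 : ℝ) < ((D * L1 : ℕ) : ℝ) := by exact_mod_cast Nat.mul_pos hD hL1
  set y : ℝ := s * T ^ (((D * L1 : ℕ) : ℝ)⁻¹) with hy
  have hTy : 1 ≤ T ^ (((D * L1 : ℕ) : ℝ)⁻¹) := Real.one_le_rpow hT (by positivity)
  have hy1 : 1 ≤ y := by
    rw [hy]
    nlinarith
  refine ⟨z0 + ⌈y⌉₊, Nat.le_add_right _ _, ?_, ?_⟩
  · have h1 : y ≤ ((z0 + ⌈y⌉₊ : ℕ) : ℝ) := by
      push_cast
      have := Nat.le_ceil y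
      have h2 : (0 : ℝ) ≤ z0 := Nat.cast_nonneg _
      linarith
    refine le_trans ?_ (pow_le_pow_left₀ (by linarith) h1 _)
    rw [hy, mul_pow, ← Real.rpow_natCast (T ^ _), ← Real.rpow_mul hT0.le,
      inv_mul_cancel₀ hDL.ne', Real.rpow_one]
    refine mul_le_mul_of_nonneg_right ?_ hT0.le
    exact pow_le_pow_right₀ hs1 (Nat.le_mul_of_pos_right _ hL1)
  · have h1 : ((z0 + ⌈y⌉₊ : ℕ) : ℝ) ≤ (z0 + s + 1) * T ^ (((D * L1 : ℕ) : ℝ)⁻¹) := by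
      rw [Nat.cast_add]
      have h2 := (Nat.ceil_lt_add_one (by linarith : 0 ≤ y)).le
      have h3 : (0 : ℝ) ≤ z0 := Nat.cast_nonneg _
      have h4 : (z0 : ℝ) ≤ z0 * T ^ (((D * L1 : ℕ) : ℝ)⁻¹) := le_mul_of_one_le_right h3 hTy
      calc (z0 : ℝ) + (⌈y⌉₊ : ℝ) ≤ z0 + (y + 1) := by linarith
        _ ≤ z0 * T ^ (((D * L1 : ℕ) : ℝ)⁻¹) + (s * T ^ (((D * L1 : ℕ) : ℝ)⁻¹) +
            T ^ (((D * L1 : ℕ) : ℝ)⁻¹)) := by linarith
        _ = _ := by ring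
    rw [← pow_mul, ← pow_mul]
    calc (2 * ((z0 + ⌈y⌉₊ : ℕ) : ℝ)) ^ (D * m)
        ≤ (2 * ((z0 + s + 1) * T ^ (((D * L1 : ℕ) : ℝ)⁻¹))) ^ (D * m) := by
          refine pow_le_pow_left₀ (by positivity) ?_ _
          linarith
      _ = (2 * (z0 + s + 1)) ^ (D * m) * (T ^ (((D * L1 : ℕ) : ℝ)⁻¹)) ^ (D * m) := by
          rw [← mul_pow]
          ring
      _ ≤ (2 * (z0 + s + 1)) ^ (D * m) * T ^ ε := by
          refine mul_le_mul_of_nonneg_left ?_ (by positivity)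
          rw [← Real.rpow_natCast, ← Real.rpow_mul hT0.le]
          apply Real.rpow_le_rpow_of_exponent_le hT
          refine le_trans (le_of_eq ?_) hε
          have hD0 : (D : ℝ) ≠ 0 := by
            have : (0 : ℝ) < D := by exact_mod_cast hD
            exact this.ne'
          have hL0 : (L1 : ℝ) ≠ 0 := by
            have : (0 : ℝ) < L1 := by exact_mod_cast hL1
            exact this.ne'
          push_cast
          field_simp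

end Pool.Agent.T6.H19.KS
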