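import Pool.Agent.T6.H19.KS.Mono
import Pool.Agent.T6.H19.KS.Para
import Pool.Agent.T6.H19.KS.Def
import Pool.Agent.T6.H19.KS.Hilb

/-!
The finite level theorem.
-/

set_option autoImplicit false

namespace Pool.Agent.T6.H19.KS

open NumberField IsDedekindDomain MvPolynomial Pool.Agent.H251R6.SDD

theorem coeffs_finite {K σ : Type} [Field K] (Q : MvPolynomial σ K) :
    (Set.range fun ν => coeff ν Q).Finite := by
  classical
  refine ((Q.support.image (fun ν => coeff ν Q)).finite_toSet.union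
    (Set.finite_singleton (0 : K))).subset ?_
  rintro _ ⟨ν, rfl⟩
  by_cases h : coeff ν Q = 0
  · right
    exact h
  · left
    rw [Finset.mem_coe, Finset.mem_image]
    exact ⟨ν, mem_support_iff.2 h, rfl⟩

variable {K k ι : Type} [Field K] [NumberField K] [Field k] [Algebra K k] [IsAlgClosed k]
  [Fintype ι]

theorem finite_level {V : Set (PSpace k ι)} (hV : IsVarietyOver K V) {ε : ℝ} (hε : 0 < ε) :
    ∃ Λ : ℝ, 0 < Λ ∧ ∀ g : PSpace k ι → PSpace k ι, LocRep K V g →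
      ∀ N : ℚ, HasIntersectionNumber V g N → ∀ κ : ℝ, 1 ≤ κ → Λ * κ ≤ N →
        ∃ A : ℕ, ∀ T : ℝ, 1 ≤ T → ∃ 𝓖 : Finset (MvPolynomial ι K), (𝓖.card : ℝ) ≤ A * T ^ ε ∧
          (∀ G ∈ 𝓖, (∃ d ≤ A, G.IsHomogeneous d) ∧ ∃ x ∈ V, aeval x.rep G ≠ 0) ∧
          ∀ x ∈ ratPoints K V, HK K x ≤ T → HK K (g x) ≤ T ^ κ →
            ∃ G ∈ 𝓖, aeval x.rep G = 0 := by
  classical
  have hchar : CharZero k := charZero_of_injective_algebraMap (algebraMap K k).injective
  have hinj : Function.Injective (algebraMap K k) := (algebraMap K k).injective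
  have hVne : V.Nonempty := hV.2.1
  have hιne : Nonempty ι := by
    obtain ⟨x, _⟩ := hVne
    obtain ⟨i, _⟩ := Function.ne_iff.1 x.rep_nonzero
    exact ⟨i⟩
  obtain ⟨m, N0, T0, R, hR, hrel, hind⟩ := exists_noether (K := K) (k := k) V hVne
  set D := Module.finrank ℚ K with hD
  have hD1 : 1 ≤ D := Module.finrank_pos
  set L1 : ℕ := ⌈(m : ℝ) / ε⌉₊ + 1 with hL1
  have hL1' : 1 ≤ L1 := Nat.le_add_left _ _
  have hmL : (m : ℝ) / L1 ≤ ε := by
    have h1 : (m : ℝ) / ε ≤ L1 := by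
      rw [hL1]
      push_cast
      have := Nat.le_ceil ((m : ℝ) / ε)
      linarith
    have h2 : (0 : ℝ) < L1 := by exact_mod_cast hL1'
    rw [div_le_iff₀ hε] at h1
    rw [div_le_iff₀ h2]
    linarith
  set nβ : ℕ := (N0 + 1) ^ Fintype.card ι with hnβ
  set Ct : ℕ := 4 * D * nβ * (4 * D * L1) ^ m with hCt
  have hΛ2 : (2 : ℝ) ≤ 2 * (2 ^ m * m.factorial * ((Ct : ℝ) + 1)) := by
    have h1 : (1 : ℝ) ≤ 2 ^ m := one_le_pow₀ (by norm_num)
    have h2 : (1 : ℝ) ≤ m.factorial := by exact_mod_cast Nat.succ_le_of_lt m.factorial_pos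
    have h3 : (1 : ℝ) ≤ (Ct : ℝ) + 1 := by
      have : (0 : ℝ) ≤ Ct := Nat.cast_nonneg _
      linarith
    have h4 : (1 : ℝ) ≤ 2 ^ m * m.factorial := one_le_mul_of_one_le_of_one_le h1 h2
    have h5 := one_le_mul_of_one_le_of_one_le h4 h3
    linarith
  refine ⟨2 * (2 ^ m * m.factorial * ((Ct : ℝ) + 1)), by linarith,
    fun g hg N hN κ hκ hΛ => ?_⟩
  obtain ⟨r, c, hpoly, hne, hNeq⟩ := hN
  have hN2 : (2 : ℝ) ≤ N := by
    refine le_trans ?_ hΛ
    nlinarith
  have hr0 : r ≠ 0 := by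
    rintro rfl
    rw [if_pos rfl] at hNeq
    rw [hNeq] at hN2
    norm_num at hN2
  obtain ⟨r', rfl⟩ := Nat.exists_eq_succ_of_ne_zero hr0
  rw [Nat.succ_eq_add_one] at hpoly hne hNeq
  have hmr : m ≤ r' + 1 := dim_le hV hg T0 hind hpoly
  rw [if_neg (Nat.succ_ne_zero r'), Nat.add_sub_cancel] at hNeq
  obtain ⟨_, B', γ, hlow⟩ := graphHilbert_lower (V := V) (g := g) hpoly
  obtain ⟨b0, hb0⟩ := exists_b B' γ r' m N κ Ct hκ hmr (Nat.cast_nonneg _) (by
    refine le_trans ?_ hΛ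
    have h1 : (0 : ℝ) ≤ κ * (2 ^ m * m.factorial * ((Ct : ℝ) + 1)) := by positivity
    linarith)
  set b : ℕ := b0 + B' + 1 + ⌈κ⌉₊ + ⌈κ * B'⌉₊ with hb
  have hκ0 : 0 < κ := by linarith
  have hb1 : 1 ≤ b := by omega
  have hbκ : κ ≤ b := by
    have h1 : κ ≤ (⌈κ⌉₊ : ℝ) := Nat.le_ceil _
    have h2 : (⌈κ⌉₊ : ℝ) ≤ b := by exact_mod_cast (by omega : ⌈κ⌉₊ ≤ b)
    linarith
  have hbB : B' ≤ b := by omega
  have hab : B' ≤ ⌈(b : ℝ) / κ⌉₊ := by
    have h1 : κ * B' ≤ (⌈κ * B'⌉₊ : ℝ) := Nat.le_ceil _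
    have h2 : (⌈κ * B'⌉₊ : ℝ) ≤ b := by exact_mod_cast (by omega : ⌈κ * B'⌉₊ ≤ b)
    have h3 : (B' : ℝ) ≤ (b : ℝ) / κ := by
      rw [le_div_iff₀ hκ0]
      linarith
    exact_mod_cast h3.trans (Nat.le_ceil _)
  set a : ℕ := ⌈(b : ℝ) / κ⌉₊ with ha
  have hbig : (Ct : ℝ) * (b : ℝ) ^ m < (graphHilbert V g b a : ℝ) := by
    refine lt_of_lt_of_le (hb0 b (by omega)) ?_
    have h1 := hlow b hbB a hab
    have h2 : (((b - B').choose r' : ℚ) * ((r'.factorial : ℚ) * c r' 1 * a - γ) : ℚ) ≤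
        ((graphHilbert V g b a : ℕ) : ℚ) := h1
    rw [← hNeq] at h2
    exact_mod_cast (Rat.cast_le (K := ℝ)).2 h2
  obtain ⟨J, _, μ, hμ, hcardJ, hli⟩ := exists_indep V g b a
  obtain ⟨Λ', _, e, F, mm, B, hF, hF0, hB⟩ := exists_cover hV.1 hg
  set s : ℕ := Fintype.card J with hs
  have hbig' : Ct * b ^ m < s := by
    rw [hcardJ]
    exact_mod_cast hbig
  have hs1 : 1 ≤ s := by omega
  -- the structure constants
  let S : Set K := (Set.range fun p : Fin (m + 1) × ι => T0 p.1 p.2) ∪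
    ((⋃ α ∈ {α : ι →₀ ℕ | α.degree ≤ N0 + 1}, ⋃ l, Set.range fun ν => coeff ν (R α l)) ∪
    ((⋃ p : Λ' × ι, Set.range fun ν => coeff ν (F p.1 p.2)) ∪
      (⋃ p : ι × Λ' × ι, Set.range fun ν => coeff ν (B p.1 p.2.1 p.2.2))))
  have hSfin : S.Finite := by
    refine (Set.finite_range _).union (Set.Finite.union ?_ (Set.Finite.union ?_ ?_))
    · exact (Finsupp.finite_of_degree_le (N0 + 1)).biUnion
        (fun α _ => Set.finite_iUnion (fun l => coeffs_finite _))
    · exact Set.finite_iUnion (fun p => coeffs_finite _)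
    · exact Set.finite_iUnion (fun p => coeffs_finite _)
  obtain ⟨z0, hz0⟩ := exists_place S hSfin
  refine ⟨(m + 1) * Fintype.card Λ' * ((2 * (z0 + s + 1)) ^ D) ^ m + b + (∑ l, e l) * a,
    fun T hT => ?_⟩
  obtain ⟨z, hz, hz1, hz2⟩ := exists_z z0 s D L1 m hD1 hL1' hs1 hmL hT
  obtain ⟨P, hP1, hP2, hP3⟩ := hz0 z hz
  set q := Ideal.absNorm P.asIdeal with hq
  have hq1 : 1 < q := HeightOneSpectrum.one_lt_absNorm P
  -- the cone over `K`
  let W : Set (ι → K) := {w | (fun i => algebraMap K k (w i)) ∈ cone V}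
  have hWs : ∀ w ∈ W, ∀ c : K, c • w ∈ W := by
    intro w hw c
    have h1 : (fun i => algebraMap K k ((c • w) i)) =
        (algebraMap K k c) • (fun i => algebraMap K k (w i)) := by
      funext i
      rw [Pi.smul_apply, Pi.smul_apply, smul_eq_mul, smul_eq_mul, map_mul]
    change (fun i => algebraMap K k ((c • w) i)) ∈ cone V
    rw [h1]
    exact smul_cone hw _
  have haev : ∀ (w : ι → K) (Q : MvPolynomial ι K),
      aeval (fun i => algebraMap K k (w i)) Q = algebraMap K k (aeval w Q) := fun w Q =>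
    aeval_algebraMap_apply _ _ _
  have hW : ∀ w ∈ W, ∀ α : ι →₀ ℕ, α.degree = N0 + 1 →
      ∏ i, w i ^ α i = ∑ l, (∑ i, T0 l i * w i) * aeval w (R α l) := by
    intro w hw α hα
    apply hinj
    have h1 := hrel _ hw α hα
    simp only [haev] at h1
    simp only [map_prod, map_pow, map_sum, map_mul]
    exact h1
  have hB' : ∀ w ∈ W, w ≠ 0 → ∀ i, w i ^ mm = ∑ l, ∑ j, aeval w (B i l j) * aeval w (F l j) := by
    intro w hw hw0 i
    apply hinj
    have h0 : (fun i => algebraMap K k (w i)) ≠ 0 := by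
      intro h0
      apply hw0
      funext i
      apply hinj
      rw [Pi.zero_apply, map_zero]
      exact congrFun h0 i
    have h1 := hB _ h0 hw i
    simp only [haev] at h1
    simp only [map_pow, map_sum, map_mul]
    exact h1
  have hcard : (q ^ (4 * D * L1 * b)) ^ (nβ * (4 * D * L1 * b) ^ m) < (q ^ (L1 * b)) ^ s := by
    refine hcard_of hq1 hL1' hb1 ?_
    calc 4 * D * nβ * (4 * D * L1 * b) ^ m = Ct * b ^ m := by
          rw [hCt, mul_pow _ b]
          ring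
      _ < s := hbig'
  have hsm : ((s * q ^ (L1 * b) : ℕ) : ℝ) ^ D * T ^ (3 * b) *
      ((q : ℝ)⁻¹) ^ (4 * D * L1 * b) < 1 := by
    refine hsmall_of hT hb1 hs1 hq1 (lt_of_le_of_lt hz1 ?_)
    refine pow_lt_pow_left₀ (by exact_mod_cast hP1) (Nat.cast_nonneg _) ?_
    exact (Nat.mul_pos hD1 hL1').ne'
  obtain ⟨cc, hcc0, hcc⟩ := core (W := W) hWs hR hW (fun l i => (hF l).1 i) hB' hμ P
    (fun l i => hP3 _ (Or.inl ⟨(l, i), rfl⟩))
    (fun α hα l ν => hP3 _ (Or.inr (Or.inl (by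
      simp only [Set.mem_iUnion]
      exact ⟨α, (hα.le : α.degree ≤ N0 + 1), l, ν, rfl⟩))))
    (fun l i ν => hP3 _ (Or.inr (Or.inr (Or.inl (by
      simp only [Set.mem_iUnion]
      exact ⟨(l, i), ν, rfl⟩)))))
    (fun i l j ν => hP3 _ (Or.inr (Or.inr (Or.inr (by
      simp only [Set.mem_iUnion]
      exact ⟨(i, l, j), ν, rfl⟩)))))
    hcard hsm
  refine ⟨Finset.univ.image (fun t => sbs (K := K) (k := K) (F t.2.1) (Pc (K := K) μ (cc t))),
    ?_, ?_, ?_⟩
  · have h1 : ((Finset.univ.image (fun t => sbs (K := K) (k := K) (F t.2.1)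
        (Pc (K := K) μ (cc t)))).card : ℝ) ≤
        ((m + 1) * Fintype.card Λ' * q ^ m : ℕ) := by
      refine Nat.cast_le.2 (Finset.card_image_le.trans ?_)
      rw [Finset.card_univ, Fintype.card_prod, Fintype.card_prod, Fintype.card_fun,
        Fintype.card_fin, Fintype.card_fin, Fintype.card_fin, mul_assoc]
    have h2 : ((q ^ m : ℕ) : ℝ) ≤ ((2 * (z0 + s + 1)) ^ D) ^ m * T ^ ε := by
      refine le_trans ?_ hz2
      have h3 : q ^ m ≤ ((2 * z) ^ D) ^ m := Nat.pow_le_pow_left hP2 m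
      exact_mod_cast h3
    have hTε : (0 : ℝ) ≤ T ^ ε := Real.rpow_nonneg (by linarith) _
    calc _ ≤ (((m + 1) * Fintype.card Λ' * q ^ m : ℕ) : ℝ) := h1
      _ = ((m + 1) * Fintype.card Λ' : ℕ) * ((q ^ m : ℕ) : ℝ) := by push_cast; ring
      _ ≤ ((m + 1) * Fintype.card Λ' : ℕ) * (((2 * (z0 + s + 1)) ^ D) ^ m * T ^ ε) :=
          mul_le_mul_of_nonneg_left h2 (Nat.cast_nonneg _)
      _ = (((m + 1) * Fintype.card Λ' * ((2 * (z0 + s + 1)) ^ D) ^ m : ℕ) : ℝ) * T ^ ε := by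
          push_cast
          ring
      _ ≤ _ := by
          refine mul_le_mul_of_nonneg_right ?_ hTε
          exact_mod_cast (by omega)
  · intro G hG
    rw [Finset.mem_image] at hG
    obtain ⟨t, _, rfl⟩ := hG
    obtain ⟨h1, h2⟩ := hyper hV.2 hg hμ hli (hcc0 t) (hF t.2.1) (hF0 t.2.1)
    refine ⟨⟨_, ?_, h1⟩, h2⟩
    have h3 : e t.2.1 ≤ ∑ l, e l := Finset.single_le_sum (f := e) (fun _ _ => Nat.zero_le _)
      (Finset.mem_univ _)
    have h4 : e t.2.1 * a ≤ (∑ l, e l) * a := Nat.mul_le_mul_right _ h3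
    omega
  · rintro x ⟨hxV, w, hw⟩ hHx hHgx
    have hw0 : w ≠ 0 := hw.ne_zero
    have hHw := HK_eq hw
    obtain ⟨hw', hxw⟩ := hw
    have hwW : w ∈ W := by
      intro h
      rw [← hxw]
      exact hxV
    obtain ⟨t, ht⟩ := hcc w hwW hw0 (fun l hl => by
      have h1 : (fun i => aeval (fun i => algebraMap K k (w i)) (F l i)) =
          fun i => algebraMap K k (aeval w (F l i)) := by
        funext i
        exact haev w _
      have h2 : (fun i => aeval (fun i => algebraMap K k (w i)) (F l i)) ≠ 0 := by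
        rw [h1]
        intro h0
        apply hl
        funext i
        apply hinj
        rw [Pi.zero_apply, map_zero]
        exact congrFun h0 i
      have h3 := (hF l).map_mk hw' (by rw [← hxw]; exact hxV) h2
      have h4 : IsCoord (g x) (fun i => aeval w (F l i)) := by
        refine ⟨by rw [← h1]; exact h2, ?_⟩
        rw [hxw, h3]
        congr 1
      have h5 := HK_eq h4
      rw [h5] at hHgx
      rw [hHw] at hHx
      exact hb_of hκ hT hbκ ((Height.mulHeight_pos _).le) hHx ((Height.mulHeight_pos _).le) hHgx)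
    refine ⟨_, Finset.mem_image.2 ⟨t, Finset.mem_univ _, rfl⟩, ?_⟩
    have h1 : eval w (sbs (K := K) (k := K) (F t.2.1) (Pc (K := K) μ (cc t))) = 0 := by
      rw [aeval_sbs]
      exact ht
    obtain ⟨cst, hcst, hcw⟩ := exists_rep_smul hw'
    have h2 : aeval (fun i => algebraMap K k (w i))
        (sbs (K := K) (k := K) (F t.2.1) (Pc (K := K) μ (cc t))) = 0 := by
      rw [haev, ← coe_aeval_eq_eval, RingHom.coe_coe] at *
      rw [h1, map_zero]
    have h3 : (sbs (K := K) (k := K) (F t.2.1) (Pc (K := K) μ (cc t))).IsHomogeneous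
        (b + e t.2.1 * a) := sbs_hom (hF t.2.1).1 (Pc_hom hμ _)
    rw [hcw, aeval_smul h3, ← hxw] at h2
    rcases mul_eq_zero.1 h2 with h | h
    · exact absurd h (pow_ne_zero _ hcst)
    · exact h

end Pool.Agent.T6.H19.KS
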