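import Pool.Agent.T6.H19.KS.CA

/-!
Hilbert functions of bihomogeneous ideals and their differences.
-/

set_option autoImplicit false

namespace Pool.Agent.T6.H19.KS

open MvPolynomial Pool.Agent.H251R6.SDD

variable {k ι : Type} [Field k] [Fintype ι]

/-- forms of a given bidegree -/
noncomputable abbrev BF (k ι : Type) [Field k] (b a : ℕ) : Submodule k (MvPolynomial (ι ⊕ ι) k) :=
  weightedHomogeneousSubmodule k (biWeight ι) (b, a)

theorem BF_le (b a : ℕ) : BF k ι b a ≤ homogeneousSubmodule (ι ⊕ ι) k (b + a) := by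
  intro P hP
  rw [mem_homogeneousSubmodule]
  intro ν hν
  have h1 := hP hν
  rw [weight_eq, Prod.mk.injEq] at h1
  rw [Finsupp.weight_apply, Finsupp.sum_fintype _ _ (by simp), Fintype.sum_sum_type]
  simp only [Pi.one_apply, smul_eq_mul, mul_one]
  omega

instance (b a : ℕ) : Module.Finite k (BF k ι b a) := by
  have h1 : (homogeneousSubmodule (ι ⊕ ι) k (b + a)).FG :=
    weightedHomogeneousSubmodule_fg k (fun _ => 1) (by simp) (b + a)
  have : Module.Finite k (homogeneousSubmodule (ι ⊕ ι) k (b + a)) := Module.Finite.iff_fg.2 h1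
  exact Submodule.finiteDimensional_of_le (BF_le b a)

/-- The Hilbert function of a bihomogeneous ideal. -/
noncomputable def HF (J : Ideal (MvPolynomial (ι ⊕ ι) k)) (b a : ℕ) : ℕ :=
  Module.finrank k ((BF k ι b a).map (J.restrictScalars k).mkQ)

theorem HF_add (J : Ideal (MvPolynomial (ι ⊕ ι) k)) (b a : ℕ) :
    HF J b a + Module.finrank k (BF k ι b a ⊓ J.restrictScalars k : Submodule k _) =
      Module.finrank k (BF k ι b a) := by
  have h1 := LinearMap.finrank_range_add_finrank_ker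
    ((J.restrictScalars k).mkQ.comp (BF k ι b a).subtype)
  rw [LinearMap.range_comp, Submodule.range_subtype, LinearMap.ker_comp, Submodule.ker_mkQ] at h1
  have h2 := LinearEquiv.finrank_eq (Submodule.comapSubtypeEquivOfLe
    (inf_le_right : J.restrictScalars k ⊓ BF k ι b a ≤ BF k ι b a))
  rw [Submodule.comap_inf, Submodule.comap_subtype_self, inf_top_eq] at h2
  rw [← h1, HF, inf_comm, h2]

theorem biHom_sup {J : Ideal (MvPolynomial (ι ⊕ ι) k)} (hJ : BiHom J)
    {x : MvPolynomial (ι ⊕ ι) k} {e : ℕ × ℕ} (hx : IsWeightedHomogeneous (biWeight ι) x e) :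
    BiHom (J ⊔ Ideal.span {x}) := by
  classical
  intro P hP d
  obtain ⟨j, hj, y, hy, rfl⟩ := Submodule.mem_sup.1 hP
  rw [Ideal.mem_span_singleton] at hy
  obtain ⟨A, rfl⟩ := hy
  rw [map_add]
  refine Ideal.add_mem _ (Ideal.mem_sup_left (hJ j hj d)) (Ideal.mem_sup_right ?_)
  rw [Ideal.mem_span_singleton]
  by_cases hd : ∃ d', d = e + d'
  · obtain ⟨d', rfl⟩ := hd
    rw [comp_mul_left hx]
    exact dvd_mul_right _ _
  · have hz : weightedHomogeneousComponent (biWeight ι) d (x * A) = 0 := by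
      rw [weightedHomogeneousComponent_eq_zero']
      intro μ hμ hμd
      apply hd
      have h4 := support_mul _ _ hμ
      rw [Finset.mem_add] at h4
      obtain ⟨u, hu, v, hv, rfl⟩ := h4
      have h5 : Finsupp.weight (biWeight ι) u = e := hx (mem_support_iff.1 hu)
      exact ⟨Finsupp.weight (biWeight ι) v, by rw [← hμd, map_add, h5]⟩
    rw [hz]
    exact dvd_zero _

theorem HF_diff {J : Ideal (MvPolynomial (ι ⊕ ι) k)} (hJ : BiHom J)
    {x : MvPolynomial (ι ⊕ ι) k} (hx : IsWeightedHomogeneous (biWeight ι) x (1, 0)) (hx0 : x ≠ 0)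
    {b a : ℕ} (hnz : ∀ P : MvPolynomial (ι ⊕ ι) k, IsWeightedHomogeneous (biWeight ι) P (b, a) →
      x * P ∈ J → P ∈ J) :
    HF (J ⊔ Ideal.span {x}) (b + 1) a + HF J b a = HF J (b + 1) a := by
  classical
  -- multiplication by `x`
  let m : MvPolynomial (ι ⊕ ι) k →ₗ[k] MvPolynomial (ι ⊕ ι) k := LinearMap.mulLeft k x
  have hm : Function.Injective m := fun P Q h => mul_left_cancel₀ hx0 h
  have hme : ((b + 1, a) : ℕ × ℕ) = (1, 0) + (b, a) := by
    ext
    · simp [add_comm]
    · simp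
  have hmul : ∀ P ∈ BF k ι b a, m P ∈ BF k ι (b + 1) a := by
    intro P hP
    have h1 : IsWeightedHomogeneous (biWeight ι) (x * P) ((1, 0) + (b, a)) := hx.mul hP
    rw [← hme] at h1
    exact h1
  have hcomp : ∀ A : MvPolynomial (ι ⊕ ι) k, weightedHomogeneousComponent (biWeight ι) (b + 1, a)
      (x * A) = x * weightedHomogeneousComponent (biWeight ι) (b, a) A := by
    intro A
    have h1 := comp_mul_left (P := A) (d := (b, a)) hx
    rw [← hme] at h1
    exact h1
  -- the part of `J + (x)`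
  have e1 : BF k ι (b + 1) a ⊓ (J ⊔ Ideal.span {x}).restrictScalars k =
      (BF k ι b a).map m ⊔ (BF k ι (b + 1) a ⊓ J.restrictScalars k) := by
    apply le_antisymm
    · rintro P ⟨hP, hP2⟩
      have hP2' : P ∈ J ⊔ Ideal.span {x} := hP2
      obtain ⟨j, hj, y, hy, rfl⟩ := Submodule.mem_sup.1 hP2'
      rw [Ideal.mem_span_singleton] at hy
      obtain ⟨A, rfl⟩ := hy
      have h1 : j + x * A = weightedHomogeneousComponent (biWeight ι) (b + 1, a) (x * A) +
          weightedHomogeneousComponent (biWeight ι) (b + 1, a) j := by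
        rw [← map_add, add_comm (x * A) j]
        exact (IsWeightedHomogeneous.weightedHomogeneousComponent_same hP).symm
      rw [h1]
      refine Submodule.add_mem_sup ?_ ⟨?_, ?_⟩
      · rw [hcomp]
        exact Submodule.mem_map_of_mem (f := m) (weightedHomogeneousComponent_mem _ _ _)
      · exact weightedHomogeneousComponent_mem _ _ _
      · exact hJ j hj _
    · refine sup_le ?_ (inf_le_inf le_rfl ?_)
      · rintro _ ⟨P, hP, rfl⟩
        refine ⟨hmul P hP, ?_⟩
        exact Ideal.mem_sup_right (Ideal.mul_mem_right _ _ (Ideal.mem_span_singleton_self x))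
      · intro P hP
        exact Ideal.mem_sup_left hP
  have e2 : (BF k ι b a).map m ⊓ (BF k ι (b + 1) a ⊓ J.restrictScalars k) =
      (BF k ι b a ⊓ J.restrictScalars k).map m := by
    apply le_antisymm
    · rintro _ ⟨⟨P, hP, rfl⟩, -, h2⟩
      exact Submodule.mem_map_of_mem ⟨hP, hnz P hP h2⟩
    · rintro _ ⟨P, ⟨hP, hPJ⟩, rfl⟩
      refine ⟨Submodule.mem_map_of_mem hP, hmul P hP, ?_⟩
      exact J.mul_mem_left x hPJ
  have f1 := Submodule.finrank_sup_add_finrank_inf_eq ((BF k ι b a).map m)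
    (BF k ι (b + 1) a ⊓ J.restrictScalars k)
  rw [← e1, e2, ← (Submodule.equivMapOfInjective m hm _).finrank_eq,
    ← (Submodule.equivMapOfInjective m hm _).finrank_eq] at f1
  have f2 := HF_add (J ⊔ Ideal.span {x}) (b + 1) a
  have f3 := HF_add J (b + 1) a
  have f4 := HF_add J b a
  omega

/-- Iterated differences of the Hilbert function of a bihomogeneous ideal in the first variable are
Hilbert functions of bihomogeneous ideals, in large degrees. -/
theorem exists_seq [Infinite k] [Nonempty ι] {J : Ideal (MvPolynomial (ι ⊕ ι) k)}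
    (hJ : BiHom J) : ∃ G : ℕ → ℕ → ℕ → ℕ, (∀ b a, G 0 b a = HF J b a) ∧
      ∀ i, ∃ B : ℕ, ∀ b ≥ B, ∀ a, G (i + 1) (b + 1) a + G i b a = G i (b + 1) a := by
  classical
  have hstep : ∀ I : {I : Ideal (MvPolynomial (ι ⊕ ι) k) // BiHom I},
      ∃ I' : {I : Ideal (MvPolynomial (ι ⊕ ι) k) // BiHom I}, ∃ B : ℕ, ∀ b ≥ B, ∀ a,
        HF I'.1 (b + 1) a + HF I.1 b a = HF I.1 (b + 1) a := by
    rintro ⟨I, hI⟩
    obtain ⟨c, hc, B, hB⟩ := exists_nzd I hI
    exact ⟨⟨I ⊔ Ideal.span {lin c}, biHom_sup hI (lin_hom c)⟩, B, fun b hb a =>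
      HF_diff hI (lin_hom c) hc (fun P hP h => hB b a P hb hP h)⟩
  choose f hf using hstep
  let s : ℕ → {I : Ideal (MvPolynomial (ι ⊕ ι) k) // BiHom I} := fun i => f^[i] ⟨J, hJ⟩
  refine ⟨fun i b a => HF (s i).1 b a, fun b a => rfl, fun i => ?_⟩
  obtain ⟨B, hB⟩ := hf (s i)
  refine ⟨B, fun b hb a => ?_⟩
  have h1 : s (i + 1) = f (s i) := Function.iterate_succ_apply' f i _
  simp only [h1]
  exact hB b hb a

end Pool.Agent.T6.H19.KS
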