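import Pool.Agent.T6.H19.KS.Est

/-!
Finite places of a number field: residue classes, approximation; the product formula inequality.
-/

set_option autoImplicit false

namespace Pool.Agent.T6.H19.KS

open NumberField IsDedekindDomain WithZeroMulInt

variable {K : Type} [Field K] [NumberField K]

theorem mk_le_pow (P : HeightOneSpectrum (𝓞 K)) (j : ℕ) {y : K}
    (hy : P.valuation K y ≤ WithZero.exp (-(j : ℤ))) :
    FinitePlace.mk P y ≤ ((Ideal.absNorm P.asIdeal : ℝ)⁻¹) ^ j := by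
  rw [FinitePlace.mk_apply, FinitePlace.norm_embedding']
  have h1 : toNNReal (HeightOneSpectrum.absNorm_ne_zero P) (P.valuation K y) ≤
      toNNReal (HeightOneSpectrum.absNorm_ne_zero P) (WithZero.exp (-(j : ℤ))) :=
    (toNNReal_strictMono (HeightOneSpectrum.one_lt_absNorm_nnreal P)).monotone hy
  have h2 : toNNReal (HeightOneSpectrum.absNorm_ne_zero P) (WithZero.exp (-(j : ℤ))) =
      ((Ideal.absNorm P.asIdeal : NNReal)⁻¹) ^ j := by
    rw [toNNReal_neg_apply _ WithZero.exp_ne_zero]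
    have h3 : (WithZero.unzero (WithZero.exp_ne_zero (a := (-(j : ℤ))))).toAdd = -(j : ℤ) := by
      simp only [WithZero.exp]
      rfl
    rw [h3, zpow_neg, zpow_natCast, inv_pow]
  rw [h2] at h1
  have h3 := NNReal.coe_le_coe.2 h1
  simpa using h3

theorem mk_le_one_iff (P : HeightOneSpectrum (𝓞 K)) {y : K} :
    FinitePlace.mk P y ≤ 1 ↔ P.valuation K y ≤ 1 := by
  rw [FinitePlace.mk_apply, FinitePlace.norm_embedding', ← NNReal.coe_one, NNReal.coe_le_coe]
  exact toNNReal_le_one_iff (HeightOneSpectrum.one_lt_absNorm_nnreal P)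

theorem exists_level (P : HeightOneSpectrum (𝓞 K)) (j : ℕ) :
    ∃ φ : K → Fin (Ideal.absNorm P.asIdeal ^ j), ∀ z z' : K, FinitePlace.mk P z ≤ 1 →
      FinitePlace.mk P z' ≤ 1 → φ z = φ z' →
      FinitePlace.mk P (z - z') ≤ ((Ideal.absNorm P.asIdeal : ℝ)⁻¹) ^ j := by
  classical
  have hex : ∀ z : K, ∃ a : 𝓞 K, FinitePlace.mk P z ≤ 1 →
      P.valuation K (algebraMap (𝓞 K) K a - z) ≤ WithZero.exp (-(j : ℤ)) := by
    intro z
    by_cases hz : FinitePlace.mk P z ≤ 1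
    · obtain ⟨a, ha⟩ := HeightOneSpectrum.exists_valuation_sub_lt_of_integer P
        ((mk_le_one_iff P).1 hz) (Units.mk0 (WithZero.exp (-(j : ℤ))) WithZero.exp_ne_zero)
      exact ⟨a, fun _ => ha.le⟩
    · exact ⟨0, fun h => absurd h hz⟩
  choose a ha using hex
  have hne : P.asIdeal ^ j ≠ ⊥ := pow_ne_zero _ P.ne_bot
  have : Finite (𝓞 K ⧸ (P.asIdeal ^ j)) := Ideal.finiteQuotientOfFreeOfNeBot _ hne
  have : Fintype (𝓞 K ⧸ (P.asIdeal ^ j)) := Fintype.ofFinite _
  have hcard : Fintype.card (𝓞 K ⧸ (P.asIdeal ^ j)) = Ideal.absNorm P.asIdeal ^ j := by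
    rw [← map_pow, Ideal.absNorm_apply, Submodule.cardQuot_apply, Nat.card_eq_fintype_card]
  let e := Fintype.equivFinOfCardEq hcard
  refine ⟨fun z => e (Ideal.Quotient.mk _ (a z)), fun z z' hz hz' h => ?_⟩
  have h1 := e.injective h
  rw [Ideal.Quotient.eq] at h1
  have h2 : P.valuation K (algebraMap (𝓞 K) K (a z - a z')) ≤ WithZero.exp (-(j : ℤ)) := by
    rw [HeightOneSpectrum.valuation_of_algebraMap]
    exact (HeightOneSpectrum.intValuation_le_pow_iff_mem P _ _).2 h1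
  apply mk_le_pow
  have h3 : z - z' = (algebraMap (𝓞 K) K (a z - a z') - (algebraMap (𝓞 K) K (a z) - z)) +
      (algebraMap (𝓞 K) K (a z') - z') := by
    rw [map_sub]
    ring
  rw [h3]
  refine (Valuation.map_add_le _ ((Valuation.map_sub_le _ h2 (ha z hz))) (ha z' hz'))

theorem exists_residues (P : HeightOneSpectrum (𝓞 K)) :
    ∃ ρ : Fin (Ideal.absNorm P.asIdeal) → K, (∀ c, FinitePlace.mk P (ρ c) ≤ 1) ∧
      ∀ z : K, FinitePlace.mk P z ≤ 1 →
        ∃ c, FinitePlace.mk P (z - ρ c) ≤ (Ideal.absNorm P.asIdeal : ℝ)⁻¹ := by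
  classical
  obtain ⟨φ, hφ⟩ := exists_level P 1
  have hq : Ideal.absNorm P.asIdeal ^ 1 = Ideal.absNorm P.asIdeal := pow_one _
  let ψ : K → Fin (Ideal.absNorm P.asIdeal) := fun z => Fin.cast hq (φ z)
  have hψ : ∀ z z' : K, ψ z = ψ z' → φ z = φ z' := by
    intro z z' h
    exact Fin.cast_injective hq h
  refine ⟨fun c => if h : ∃ z, FinitePlace.mk P z ≤ 1 ∧ ψ z = c then h.choose else 0,
    fun c => ?_, fun z hz => ⟨ψ z, ?_⟩⟩
  · dsimp only
    split_ifs with h
    · exact h.choose_spec.1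
    · rw [map_zero]
      exact zero_le_one
  · have h : ∃ z', FinitePlace.mk P z' ≤ 1 ∧ ψ z' = ψ z := ⟨z, hz, rfl⟩
    dsimp only
    rw [dif_pos h]
    have h1 := hφ z h.choose hz h.choose_spec.1 (hψ _ _ h.choose_spec.2.symm)
    rwa [pow_one] at h1

/-- Almost all places are integral at a given finite set. -/
theorem exists_place (S : Set K) (hS : S.Finite) : ∃ z0 : ℕ, ∀ z : ℕ, z0 ≤ z →
    ∃ P : HeightOneSpectrum (𝓞 K), z < Ideal.absNorm P.asIdeal ∧
      Ideal.absNorm P.asIdeal ≤ (2 * z) ^ Module.finrank ℚ K ∧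
      ∀ s ∈ S, FinitePlace.mk P s ≤ 1 := by
  classical
  have halg : Algebra.IsAlgebraic ℤ K :=
    (IsFractionRing.comap_isAlgebraic_iff (A := ℤ) (K := ℚ) (C := K)).2 inferInstance
  obtain ⟨d, hd0, hd⟩ := Algebra.IsAlgebraic.exists_integral_multiples ℤ (A := K) hS.toFinset
  refine ⟨d.natAbs + 1, fun z hz => ?_⟩
  have hz0 : z ≠ 0 := by omega
  obtain ⟨p, hp, hzp, hp2⟩ := Nat.exists_prime_lt_and_le_two_mul z hz0
  have hpd : ¬ (p : ℤ) ∣ d := by
    intro h
    have h1 := Int.natAbs_dvd_natAbs.2 h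
    rw [Int.natAbs_natCast] at h1
    have h2 := Nat.le_of_dvd (Int.natAbs_pos.2 hd0) h1
    omega
  -- a prime above `p`
  have hpne : (p : 𝓞 K) ≠ 0 := by
    exact_mod_cast hp.ne_zero
  have hpu : ¬ IsUnit (p : 𝓞 K) := by
    intro h
    have h1 : IsUnit (algebraMap ℤ (𝓞 K) (p : ℤ)) := by simpa using h
    have h2 : IsUnit (p : ℤ) := by
      have h3 := h1.map (Algebra.norm ℤ)
      rw [Algebra.norm_algebraMap] at h3
      exact (isUnit_pow_iff (Module.finrank_pos).ne').1 h3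
    exact (Nat.prime_iff_prime_int.1 hp).not_isUnit h2
  have hne1 : Ideal.span {(p : 𝓞 K)} ≠ ⊤ := by
    rw [Ne, Ideal.span_singleton_eq_top]
    exact hpu
  obtain ⟨M, hM, hle⟩ := Ideal.exists_le_maximal _ hne1
  have hpM : (p : 𝓞 K) ∈ M := hle (Ideal.mem_span_singleton_self _)
  have hM0 : M ≠ ⊥ := by
    rintro rfl
    exact hpne (by simpa using hpM)
  let P : HeightOneSpectrum (𝓞 K) := ⟨M, hM.isPrime, hM0⟩
  have hdvd : Ideal.absNorm M ∣ p ^ Module.finrank ℚ K := by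
    have h1 := Ideal.absNorm_dvd_absNorm_of_le hle
    rw [Ideal.absNorm_span_singleton] at h1
    have h2 : (Algebra.norm ℤ) (p : 𝓞 K) = (p : ℤ) ^ Module.finrank ℚ K := by
      have h3 : (p : 𝓞 K) = algebraMap ℤ (𝓞 K) (p : ℤ) := by simp
      rw [h3, Algebra.norm_algebraMap, RingOfIntegers.rank]
    rw [h2, Int.natAbs_pow, Int.natAbs_natCast] at h1
    exact h1
  have hne1' : Ideal.absNorm M ≠ 1 := by
    rw [Ne, Ideal.absNorm_eq_one_iff]
    exact hM.ne_top
  refine ⟨P, ?_, ?_, fun s hs => ?_⟩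
  · obtain ⟨i, hi, hMi⟩ := (Nat.dvd_prime_pow hp).1 hdvd
    change z < Ideal.absNorm M
    rw [hMi]
    have hi0 : i ≠ 0 := by
      rintro rfl
      exact hne1' (by rw [hMi, pow_zero])
    calc z < p := hzp
      _ ≤ p ^ i := Nat.le_self_pow hi0 p
  · change Ideal.absNorm M ≤ _
    exact (Nat.le_of_dvd (pow_pos hp.pos _) hdvd).trans (Nat.pow_le_pow_left hp2 _)
  · have h1 := hd s (hS.mem_toFinset.2 hs)
    have h2 : FinitePlace.mk P (d • s) ≤ 1 := by
      have h3 : ∃ x : 𝓞 K, algebraMap (𝓞 K) K x = d • s := ⟨⟨d • s, h1⟩, rfl⟩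
      obtain ⟨x, hx⟩ := h3
      rw [← hx]
      exact FinitePlace.norm_le_one (K := K) P x
    have h4 : FinitePlace.mk P (d : K) = 1 := by
      have h5 : (d : K) = algebraMap (𝓞 K) K (d : 𝓞 K) := by simp
      rw [h5]
      rw [FinitePlace.mk_apply, FinitePlace.norm_eq_one_iff_notMem]
      intro h6
      have h7 : IsCoprime (p : ℤ) d :=
        (Prime.coprime_iff_not_dvd (Nat.prime_iff_prime_int.1 hp)).2 hpd
      obtain ⟨u, w, huw⟩ := h7
      have h8 : (1 : 𝓞 K) ∈ M := by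
        have h9 : (1 : 𝓞 K) = (u : 𝓞 K) * (p : 𝓞 K) + (w : 𝓞 K) * (d : 𝓞 K) := by
          have := congrArg (fun t : ℤ => (t : 𝓞 K)) huw
          push_cast at this
          exact this.symm
        rw [h9]
        exact M.add_mem (M.mul_mem_left _ hpM) (M.mul_mem_left _ h6)
      exact hM.ne_top ((Ideal.eq_top_iff_one _).2 h8)
    rw [zsmul_eq_mul, map_mul, h4, one_mul] at h2
    exact h2

end Pool.Agent.T6.H19.KS
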