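import Pool.Agent.H251R6.SDD.Defs

/-!
Endomorphisms given locally by forms over `K`: composition, finite covers.
-/

set_option autoImplicit false

namespace Pool.Agent.T6.H19.KS

open MvPolynomial Pool.Agent.H251R6.SDD

variable {K k ι : Type} [Field K] [Field k] [Algebra K k]

/-- The forms `F i` of degree `e` give the map `g` at the points of `V` where they do not all
vanish. -/
def IsTuple (K : Type) [Field K] [Algebra K k] (V : Set (PSpace k ι))
    (g : PSpace k ι → PSpace k ι) (e : ℕ) (F : ι → MvPolynomial ι K) : Prop :=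
  (∀ i, (F i).IsHomogeneous e) ∧ ∀ y ∈ V, ∀ h : (fun i => aeval y.rep (F i)) ≠ 0,
    g y = Projectivization.mk k (fun i => aeval y.rep (F i)) h

/-- `g` maps `V` to `V` and is given, around every point of `V`, by forms over `K`. -/
def LocRep (K : Type) [Field K] [Algebra K k] (V : Set (PSpace k ι))
    (g : PSpace k ι → PSpace k ι) : Prop :=
  (∀ x ∈ V, g x ∈ V) ∧ ∀ x ∈ V, ∃ (e : ℕ) (F : ι → MvPolynomial ι K), IsTuple K V g e F ∧
    ∃ i, aeval x.rep (F i) ≠ 0

theorem aeval_smul {F : MvPolynomial ι K} {e : ℕ} (hF : F.IsHomogeneous e) (c : k) (w : ι → k) :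
    aeval (c • w) F = c ^ e * aeval w F := by
  classical
  rw [aeval_def, aeval_def, eval₂_eq, eval₂_eq, Finset.mul_sum]
  refine Finset.sum_congr rfl (fun d hd => ?_)
  have h1 : ∏ i ∈ d.support, (c • w) i ^ d i = c ^ e * ∏ i ∈ d.support, w i ^ d i := by
    rw [hF.degree_eq_sum_deg_support hd, ← Finset.prod_pow_eq_pow_sum, ← Finset.prod_mul_distrib]
    exact Finset.prod_congr rfl (fun i _ => by rw [Pi.smul_apply, smul_eq_mul, mul_pow])
  rw [h1]
  ring

theorem exists_rep_smul {w : ι → k} (hw : w ≠ 0) :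
    ∃ c : k, c ≠ 0 ∧ w = c • (Projectivization.mk k w hw).rep := by
  obtain ⟨a, ha⟩ := Projectivization.exists_smul_eq_mk_rep k w hw
  refine ⟨(a⁻¹ : kˣ), (a⁻¹).ne_zero, ?_⟩
  rw [← ha]
  ext i
  simp [Units.smul_def]

/-- values of a tuple at any homogeneous coordinates of a point -/
theorem IsTuple.map_mk {V : Set (PSpace k ι)} {g : PSpace k ι → PSpace k ι} {e : ℕ}
    {F : ι → MvPolynomial ι K} (hF : IsTuple K V g e F) {w : ι → k} (hw : w ≠ 0)
    (hV : Projectivization.mk k w hw ∈ V) (h : (fun i => aeval w (F i)) ≠ 0) :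
    g (Projectivization.mk k w hw) = Projectivization.mk k (fun i => aeval w (F i)) h := by
  obtain ⟨c, hc, hwc⟩ := exists_rep_smul hw
  set x := Projectivization.mk k w hw
  have h1 : (fun i => aeval w (F i)) = c ^ e • (fun i => aeval x.rep (F i)) := by
    funext i
    conv_lhs => rw [hwc]
    rw [aeval_smul (hF.1 i)]
    rfl
  have h2 : (fun i => aeval x.rep (F i)) ≠ 0 := by
    intro h0
    rw [h0, smul_zero] at h1
    exact h h1
  rw [hF.2 x hV h2]
  rw [Projectivization.mk_eq_mk_iff']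
  refine ⟨(c ^ e)⁻¹, ?_⟩
  rw [h1, smul_smul, inv_mul_cancel₀ (pow_ne_zero _ hc), one_smul]

theorem locRep_of_endo {V : Set (PSpace k ι)} {f : PSpace k ι → PSpace k ι}
    (hf : IsSurjectiveEndomorphism K V f) : LocRep K V f := by
  refine ⟨fun x hx => ?_, fun x hx => ?_⟩
  · rw [← hf.1]
    exact Set.mem_image_of_mem f hx
  · obtain ⟨e, F, hF, hi, h⟩ := hf.2 x hx
    exact ⟨e, F, ⟨hF, h⟩, hi⟩

theorem locRep_id (V : Set (PSpace k ι)) : LocRep K V (id : PSpace k ι → PSpace k ι) := by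
  refine ⟨fun x hx => hx, fun x hx => ⟨1, X, ⟨fun i => isHomogeneous_X _ _, fun y hy h => ?_⟩, ?_⟩⟩
  · have h1 : (fun i => aeval y.rep (X i : MvPolynomial ι K)) = y.rep := by
      funext i
      rw [aeval_X]
    simp only [h1]
    exact (Projectivization.mk_rep y).symm
  · obtain ⟨i, hi⟩ := Function.ne_iff.1 x.rep_nonzero
    exact ⟨i, by rwa [aeval_X]⟩

theorem aeval_zero_of_hom {F : MvPolynomial ι K} {e : ℕ} (hF : F.IsHomogeneous e) (he : e ≠ 0) :
    aeval (0 : ι → k) F = 0 := by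
  have h1 : (0 : ι → k) = (0 : k) • (0 : ι → k) := by simp
  rw [h1, aeval_smul hF, zero_pow he, zero_mul]

theorem aeval_const_of_hom {F : MvPolynomial ι K} (hF : F.IsHomogeneous 0) (z w : ι → k) :
    aeval z F = aeval w F := by
  have h1 : F.totalDegree = 0 := Nat.le_zero.1 hF.totalDegree_le
  rw [totalDegree_eq_zero_iff_eq_C] at h1
  rw [h1, aeval_C, aeval_C]

theorem locRep_comp {V : Set (PSpace k ι)} {f g : PSpace k ι → PSpace k ι}
    (hg : LocRep K V g) (hf : LocRep K V f) : LocRep K V (g ∘ f) := by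
  refine ⟨fun x hx => hg.1 _ (hf.1 x hx), fun x hx => ?_⟩
  obtain ⟨e, F, hF, i, hi⟩ := hf.2 x hx
  obtain ⟨e', G, hG, j, hj⟩ := hg.2 (f x) (hf.1 x hx)
  have key : ∀ (w : ι → k) (j : ι), aeval w (aeval F (G j)) =
      aeval (fun i => aeval w (F i)) (G j) := by
    intro w j
    rw [← AlgHom.comp_apply, comp_aeval]
  refine ⟨e * e', fun j => aeval F (G j), ⟨fun j => ?_, fun y hy h => ?_⟩, j, ?_⟩
  · exact (hG.1 j).aeval F hF.1
  · by_cases hFy : (fun i => aeval y.rep (F i)) = 0
    · have he' : e' = 0 := by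
        by_contra he'
        apply h
        funext j
        rw [key, hFy]
        exact aeval_zero_of_hom (hG.1 j) he'
      subst he'
      have h1 : ∀ j, aeval (f y).rep (G j) = aeval y.rep (aeval F (G j)) := by
        intro j
        rw [key]
        exact aeval_const_of_hom (hG.1 j) _ _
      have h2 : (fun j => aeval (f y).rep (G j)) ≠ 0 := by
        intro h0
        apply h
        funext j
        rw [← h1]
        exact congrFun h0 j
      rw [Function.comp_apply, hG.2 _ (hf.1 y hy) h2]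
      congr 1
      funext j
      exact h1 j
    · rw [Function.comp_apply, hF.2 y hy hFy]
      have h3 : Projectivization.mk k (fun i => aeval y.rep (F i)) hFy ∈ V := by
        rw [← hF.2 y hy hFy]
        exact hf.1 y hy
      have h4 : (fun j => aeval (fun i => aeval y.rep (F i)) (G j)) ≠ 0 := by
        intro h0
        apply h
        funext j
        rw [key]
        exact congrFun h0 j
      rw [hG.map_mk hFy h3 h4]
      congr 1
      funext j
      exact (key _ j).symm
  · have hFx : (fun i => aeval x.rep (F i)) ≠ 0 := fun h0 => hi (congrFun h0 i)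
    rw [key]
    have h1 := hF.2 x hx hFx
    obtain ⟨c, hc, hcw⟩ := exists_rep_smul hFx
    rw [hcw, aeval_smul (hG.1 j), ← h1]
    exact mul_ne_zero (pow_ne_zero _ hc) hj

theorem locRep_iterate {V : Set (PSpace k ι)} {f : PSpace k ι → PSpace k ι}
    (hf : LocRep K V f) (n : ℕ) : LocRep K V (f^[n]) := by
  induction n with
  | zero => exact locRep_id V
  | succ n ih => rw [Function.iterate_succ]; exact locRep_comp ih hf

/-- The affine cone over `V`. -/
def cone (V : Set (PSpace k ι)) : Set (ι → k) := {w | ∀ h : w ≠ 0, Projectivization.mk k w h ∈ V}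

/-- Finitely many tuples of forms cover `V`, with a Nullstellensatz identity. -/
theorem exists_cover [Fintype ι] [IsAlgClosed k] {V : Set (PSpace k ι)} (hV : IsClosedOver K V)
    {g : PSpace k ι → PSpace k ι} (hg : LocRep K V g) :
    ∃ (Λ : Type) (_ : Fintype Λ) (e : Λ → ℕ) (F : Λ → ι → MvPolynomial ι K) (m : ℕ)
      (A : ι → Λ → ι → MvPolynomial ι K),
      (∀ l, IsTuple K V g (e l) (F l)) ∧ (∀ l, ∃ x ∈ V, ∃ j, aeval x.rep (F l j) ≠ 0) ∧
      ∀ w : ι → k, w ≠ 0 → w ∈ cone V → ∀ i,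
        w i ^ m = ∑ l, ∑ j, aeval w (A i l j) * aeval w (F l j) := by
  classical
  obtain ⟨S, hS, hVS⟩ := hV
  -- forms occurring in the tuples
  let 𝒯 : Set (MvPolynomial ι K) := {f | ∃ (e : ℕ) (F : ι → MvPolynomial ι K) (j : ι),
    IsTuple K V g e F ∧ (∃ x ∈ V, ∃ j, aeval x.rep (F j) ≠ 0) ∧ f = F j}
  let J : Ideal (MvPolynomial ι K) := Ideal.span (S ∪ 𝒯)
  have hzero : zeroLocus k J ⊆ {0} := by
    intro w hw
    rw [Set.mem_singleton_iff]
    by_contra hw0
    have hw' : ∀ f ∈ J, aeval w f = 0 := fun f hf => hw f hf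
    obtain ⟨c, hc, hcw⟩ := exists_rep_smul hw0
    by_cases hxV : Projectivization.mk k w hw0 ∈ V
    · obtain ⟨e, F, hF, i, hi⟩ := hg.2 _ hxV
      have h1 := hw' (F i) (Ideal.subset_span (Or.inr ⟨e, F, i, hF, ⟨_, hxV, i, hi⟩, rfl⟩))
      rw [hcw, aeval_smul (hF.1 i)] at h1
      exact mul_ne_zero (pow_ne_zero _ hc) hi h1
    · apply hxV
      rw [hVS]
      rintro G ⟨G, hG, rfl⟩
      obtain ⟨e, he⟩ := hS G hG
      have h1 := hw' G (Ideal.subset_span (Or.inl hG))
      rw [hcw, aeval_smul he] at h1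
      have h2 := (mul_eq_zero.1 h1).resolve_left (pow_ne_zero _ hc)
      rw [eval_map, ← aeval_def]
      exact h2
  have hrad : ∀ i : ι, ∃ n : ℕ, (X i : MvPolynomial ι K) ^ n ∈ J := by
    intro i
    have h1 : (X i : MvPolynomial ι K) ∈ vanishingIdeal K (zeroLocus k J) := by
      rw [mem_vanishingIdeal_iff]
      intro w hw
      have h2 := hzero hw
      rw [Set.mem_singleton_iff] at h2
      rw [h2, aeval_X]
      rfl
    rw [vanishingIdeal_zeroLocus_eq_radical] at h1
    exact h1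
  choose n hn using hrad
  obtain ⟨m, hm⟩ : ∃ m, ∀ i, n i ≤ m := ⟨Finset.univ.sup n, fun i => Finset.le_sup (Finset.mem_univ i)⟩
  have hm' : ∀ i : ι, (X i : MvPolynomial ι K) ^ m ∈ J := by
    intro i
    rw [← Nat.sub_add_cancel (hm i), pow_add]
    exact J.mul_mem_left _ (hn i)
  have hfin : ∀ i : ι, ∃ T : Finset (MvPolynomial ι K), (T : Set (MvPolynomial ι K)) ⊆ S ∪ 𝒯 ∧
      (X i : MvPolynomial ι K) ^ m ∈ Ideal.span (T : Set (MvPolynomial ι K)) :=
    fun i => Submodule.mem_span_finite_of_mem_span (hm' i)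
  choose T hTs hT using hfin
  let T' : Finset (MvPolynomial ι K) := (Finset.univ.biUnion T).filter (fun f => f ∈ 𝒯)
  have hT' : ∀ f : T', ∃ (e : ℕ) (F : ι → MvPolynomial ι K) (j : ι),
    IsTuple K V g e F ∧ (∃ x ∈ V, ∃ j, aeval x.rep (F j) ≠ 0) ∧ f.1 = F j :=
    fun f => (Finset.mem_filter.1 f.2).2
  choose e F jj hF hFx hFj using hT'
  have hcoef : ∀ i : ι, ∃ a : MvPolynomial ι K → MvPolynomial ι K,
      (X i : MvPolynomial ι K) ^ m = ∑ f ∈ T i, a f * f := by
    intro i
    obtain ⟨a, -, ha⟩ := Submodule.mem_span_finset.1 (hT i)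
    exact ⟨a, ha.symm⟩
  choose a ha using hcoef
  refine ⟨T', inferInstance, e, F, m,
    fun i f j => if j = jj f ∧ f.1 ∈ T i then a i f.1 else 0, hF, hFx, fun w hw hwV i => ?_⟩
  have h1 := congrArg (aeval w) (ha i)
  rw [map_pow, aeval_X, map_sum] at h1
  rw [h1]
  have h2 : ∀ f : T', ∑ j, aeval w (if j = jj f ∧ f.1 ∈ T i then a i f.1 else 0 :
      MvPolynomial ι K) * aeval w (F f j) =
      if f.1 ∈ T i then aeval w (a i f.1 * f.1) else 0 := by
    intro f
    rw [Finset.sum_eq_single (jj f)]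
    · by_cases hf : f.1 ∈ T i
      · rw [if_pos ⟨rfl, hf⟩, if_pos hf, map_mul, ← hFj]
      · rw [if_neg (fun h => hf h.2), if_neg hf, map_zero, zero_mul]
    · intro j _ hj
      rw [if_neg (fun h => hj h.1), map_zero, zero_mul]
    · intro h
      exact absurd (Finset.mem_univ _) h
  rw [Finset.sum_congr rfl (fun f _ => h2 f)]
  rw [Finset.sum_coe_sort T' (fun f => if f ∈ T i then aeval w (a i f * f) else 0)]
  rw [← Finset.sum_filter]
  have h3 : T'.filter (fun f => f ∈ T i) = (T i).filter (fun f => f ∈ 𝒯) := by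
    ext f
    simp only [T', Finset.mem_filter, Finset.mem_biUnion, Finset.mem_univ, true_and]
    constructor
    · rintro ⟨⟨-, h⟩, h'⟩
      exact ⟨h', h⟩
    · rintro ⟨h', h⟩
      exact ⟨⟨⟨i, h'⟩, h⟩, h'⟩
  rw [h3, Finset.sum_filter]
  refine Finset.sum_congr rfl (fun f hf => ?_)
  split_ifs with hf𝒯
  · rfl
  · have hfS : f ∈ S := (hTs i hf).resolve_right hf𝒯
    have hxV := hwV hw
    rw [hVS] at hxV
    have h4 := hxV _ ⟨f, hfS, rfl⟩
    obtain ⟨c, hc, hcw⟩ := exists_rep_smul hw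
    obtain ⟨e', he'⟩ := hS f hfS
    rw [eval_map, ← aeval_def] at h4
    rw [map_mul]
    have h5 : aeval w f = 0 := by
      rw [hcw, aeval_smul he', h4, mul_zero]
    rw [h5, mul_zero]

end Pool.Agent.T6.H19.KS
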