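import Pool.Agent.T6.H19.KS.Core3
import Pool.Agent.T6.H19.KS.Dim

/-!
Monomials independent on the graph; the auxiliary hypersurfaces.
-/

set_option autoImplicit false

namespace Pool.Agent.T6.H19.KS

open MvPolynomial Pool.Agent.H251R6.SDD

section

variable {k ι : Type} [Field k] [Fintype ι]

theorem exists_indep (V : Set (PSpace k ι)) (g : PSpace k ι → PSpace k ι) (b a : ℕ) :
    ∃ (J : Type) (_ : Fintype J) (μ : J → (ι ⊕ ι →₀ ℕ)),
      (∀ j, Finsupp.weight (biWeight ι) (μ j) = (b, a)) ∧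
      Fintype.card J = graphHilbert V g b a ∧
      LinearIndependent k (fun j => evalGraph V g (monomial (μ j) (1 : k))) := by
  classical
  let E := {μ : ι ⊕ ι →₀ ℕ // Finsupp.weight (biWeight ι) μ = (b, a)}
  have hfin : Finite E := by
    have h1 : {μ : ι ⊕ ι →₀ ℕ | Finsupp.weight (biWeight ι) μ = (b, a)} ⊆
        {μ : ι ⊕ ι →₀ ℕ | μ.degree ≤ b + a} := by
      intro μ hμ
      rw [Set.mem_ofPred_eq, weight_eq, Prod.mk.injEq] at hμ
      rw [Set.mem_ofPred_eq, Finsupp.degree_eq_sum, Fintype.sum_sum_type, hμ.1, hμ.2]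
    exact ((Finsupp.finite_of_degree_le (b + a)).subset h1).to_subtype
  let vv : E → (V → k) := fun μ => evalGraph V g (monomial μ.1 (1 : k))
  have hspan : (weightedHomogeneousSubmodule k (biWeight ι) (b, a)).map (evalGraph V g) =
      Submodule.span k (Set.range vv) := by
    apply le_antisymm
    · rintro _ ⟨P, hP, rfl⟩
      rw [SetLike.mem_coe, mem_weightedHomogeneousSubmodule] at hP
      rw [P.as_sum, map_sum]
      refine Submodule.sum_mem _ (fun μ hμ => ?_)
      have h1 : monomial μ (coeff μ P) = coeff μ P • monomial μ (1 : k) := by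
        rw [smul_monomial, smul_eq_mul, mul_one]
      rw [h1, map_smul]
      exact Submodule.smul_mem _ _ (Submodule.subset_span
        ⟨⟨μ, hP (mem_support_iff.1 hμ)⟩, rfl⟩)
    · rw [Submodule.span_le]
      rintro _ ⟨μ, rfl⟩
      exact ⟨monomial μ.1 1, isWeightedHomogeneous_monomial _ _ _ μ.2, rfl⟩
  obtain ⟨J, f, hf, hsp, hli⟩ := exists_linearIndependent' k vv
  have hJ : Finite J := Finite.of_injective f hf
  have hJ' : Fintype J := Fintype.ofFinite J
  refine ⟨J, hJ', fun j => (f j).1, fun j => (f j).2, ?_, hli⟩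
  rw [graphHilbert, hspan, ← hsp, finrank_span_eq_card hli]

end

variable {K k ι : Type} [Field K] [Field k] [Algebra K k] [Fintype ι]

omit [Fintype ι] in
theorem map_Pc {J : Type} [Fintype J] (μ : J → (ι ⊕ ι →₀ ℕ)) (c : J → ℤ) :
    map (algebraMap K k) (Pc (K := K) μ c) = Pc (K := k) μ c := by
  classical
  rw [Pc, Pc, map_sum]
  refine Finset.sum_congr rfl (fun j _ => ?_)
  rw [map_monomial, map_intCast]

omit [Fintype ι] in
theorem map_sbs (F : ι → MvPolynomial ι K) (P : MvPolynomial (ι ⊕ ι) K) :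
    map (algebraMap K k) (sbs (K := K) (k := K) F P) =
      sbs (K := K) (k := k) F (map (algebraMap K k) P) := by
  have h1 : (map (algebraMap K k)).comp (aeval (Sum.elim (X : ι → MvPolynomial ι K)
      fun j => map (algebraMap K K) (F j))).toRingHom =
      ((aeval (Sum.elim (X : ι → MvPolynomial ι k)
        fun j => map (algebraMap K k) (F j))).toRingHom).comp (map (algebraMap K k)) := by
    apply ringHom_ext
    · intro r
      simp
    · intro i
      rcases i with i | i
      · simp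
      · simp [MvPolynomial.map_id]
  exact RingHom.congr_fun h1 P

theorem graph_ne [CharZero k] {V : Set (PSpace k ι)} {g : PSpace k ι → PSpace k ι} {J : Type}
    [Fintype J] {μ : J → (ι ⊕ ι →₀ ℕ)}
    (hli : LinearIndependent k (fun j => evalGraph V g (monomial (μ j) (1 : k)))) {c : J → ℤ}
    (hc : c ≠ 0) : ∃ x ∈ V, aeval (Sum.elim x.rep (g x).rep) (Pc (K := k) μ c) ≠ 0 := by
  classical
  by_contra hcon
  push Not at hcon
  apply hc
  have h1 : ∑ j, ((c j : ℤ) : k) • evalGraph V g (monomial (μ j) (1 : k)) = 0 := by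
    have h2 : evalGraph V g (Pc (K := k) μ c) = 0 := by
      funext x
      rw [evalGraph_apply]
      exact hcon x.1 x.2
    rw [← h2, Pc, map_sum]
    refine Finset.sum_congr rfl (fun j _ => ?_)
    rw [← map_smul, smul_monomial, smul_eq_mul, mul_one]
  have h3 := Fintype.linearIndependent_iff.1 hli _ h1
  funext j
  have h4 := h3 j
  exact_mod_cast h4

/-- The auxiliary hypersurface. -/
theorem hyper [CharZero k] {V : Set (PSpace k ι)} (hV : IsIrred V)
    {g : PSpace k ι → PSpace k ι} (hg : LocRep K V g) {J : Type}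
    [Fintype J] {μ : J → (ι ⊕ ι →₀ ℕ)} {b a : ℕ}
    (hμ : ∀ j, Finsupp.weight (biWeight ι) (μ j) = (b, a))
    (hli : LinearIndependent k (fun j => evalGraph V g (monomial (μ j) (1 : k)))) {c : J → ℤ}
    (hc : c ≠ 0) {e : ℕ} {F : ι → MvPolynomial ι K}
    (hF : IsTuple K V g e F) (hF0 : ∃ x ∈ V, ∃ j, aeval x.rep (F j) ≠ 0) :
    (sbs (K := K) (k := K) F (Pc (K := K) μ c)).IsHomogeneous (b + e * a) ∧
    (∃ x ∈ V, aeval x.rep (sbs (K := K) (k := K) F (Pc (K := K) μ c)) ≠ 0) := by
  refine ⟨sbs_hom hF.1 (Pc_hom hμ c), ?_⟩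
  obtain ⟨x, hx, h1⟩ := sbs_ne hV hg (Pc_hom (K := k) hμ c) (graph_ne hli hc) hF hF0
  refine ⟨x, hx, ?_⟩
  rw [aeval_def, ← eval_map, map_sbs, map_Pc]
  exact h1

end Pool.Agent.T6.H19.KS
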