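import Pool.Agent.T6.H19.KS.Loc
import Pool.Agent.Y978.GS.NN

/-!
Noether normalization of the homogeneous coordinate ring of `V` over `K`.
-/

set_option autoImplicit false

namespace Pool.Agent.T6.H19.KS

open MvPolynomial Pool.Agent.H251R6.SDD

variable {K k ι : Type} [Field K] [Field k] [Algebra K k]

theorem smul_cone {V : Set (PSpace k ι)} {w : ι → k} (hw : w ∈ cone V) (c : k) :
    c • w ∈ cone V := by
  intro h
  have hc : c ≠ 0 := fun h0 => h (by rw [h0, zero_smul])
  have hw0 : w ≠ 0 := fun h0 => h (by rw [h0, smul_zero])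
  have h1 : Projectivization.mk k (c • w) h = Projectivization.mk k w hw0 := by
    rw [Projectivization.mk_eq_mk_iff']
    exact ⟨c, rfl⟩
  rw [h1]
  exact hw hw0

theorem aeval_smul_sum [Fintype ι] (G : MvPolynomial ι K) (c : k) (w : ι → k) :
    aeval (c • w) G = ∑ d ∈ Finset.range (G.totalDegree + 1),
      c ^ d * aeval w (homogeneousComponent d G) := by
  conv_lhs => rw [← sum_homogeneousComponent G]
  rw [map_sum]
  exact Finset.sum_congr rfl (fun d _ => aeval_smul (homogeneousComponent_isHomogeneous d G) c w)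

theorem comp_mem_vanishing [Fintype ι] [Infinite k] {V : Set (PSpace k ι)} {G : MvPolynomial ι K}
    (hG : G ∈ vanishingIdeal K (cone V)) (d : ℕ) :
    homogeneousComponent d G ∈ vanishingIdeal K (cone V) := by
  rw [mem_vanishingIdeal_iff] at hG ⊢
  intro w hw
  -- a polynomial in `c` with infinitely many zeros
  let p : Polynomial k := ∑ d ∈ Finset.range (G.totalDegree + 1),
    Polynomial.C (aeval w (homogeneousComponent d G)) * Polynomial.X ^ d
  have hp : p = 0 := by
    apply Polynomial.funext
    intro c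
    have h1 := hG (c • w) (smul_cone hw c)
    rw [aeval_smul_sum] at h1
    simp only [p, Polynomial.eval_finsetSum, Polynomial.eval_mul, Polynomial.eval_C,
      Polynomial.eval_pow, Polynomial.eval_X, Polynomial.eval_zero]
    rw [← h1]
    exact Finset.sum_congr rfl (fun d _ => mul_comm _ _)
  by_cases hd : d < G.totalDegree + 1
  · have h2 : p.coeff d = aeval w (homogeneousComponent d G) := by
      simp only [p, Polynomial.finsetSum_coeff, Polynomial.coeff_C_mul, Polynomial.coeff_X_pow]
      simp only [mul_ite, mul_one, mul_zero, Finset.sum_ite_eq]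
      rw [if_pos (Finset.mem_range.2 hd)]
    rw [← h2, hp, Polynomial.coeff_zero]
  · rw [homogeneousComponent_eq_zero _ _ (by omega), map_zero]

theorem mem_VV_pow {B : Type} [CommRing B] [Algebra K B] (z : ι → B) (N : ℕ) {a : B}
    (ha : a ∈ (Pool.Agent.Y234.GS.VV K z) ^ N) :
    ∃ P : MvPolynomial ι K, P.IsHomogeneous N ∧ aeval z P = a := by
  induction N generalizing a with
  | zero =>
    rw [pow_zero] at ha
    obtain ⟨c, rfl⟩ := Submodule.mem_one.1 ha
    exact ⟨C c, isHomogeneous_C _ _, by rw [aeval_C]⟩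
  | succ N ih =>
    rw [pow_succ] at ha
    induction ha using Submodule.mul_induction_on' with
    | mem_mul_mem m hm n hn =>
      obtain ⟨P, hP, rfl⟩ := ih hm
      have h2 : ∃ Q : MvPolynomial ι K, Q.IsHomogeneous 1 ∧ aeval z Q = n := by
        induction hn using Submodule.span_induction with
        | mem x hx =>
          obtain ⟨i, rfl⟩ := hx
          exact ⟨X i, isHomogeneous_X _ _, aeval_X _ _⟩
        | zero => exact ⟨0, isHomogeneous_zero _ _ _, map_zero _⟩
        | add x y _ _ hx hy =>
          obtain ⟨Q, hQ, rfl⟩ := hx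
          obtain ⟨Q', hQ', rfl⟩ := hy
          exact ⟨Q + Q', hQ.add hQ', map_add _ _ _⟩
        | smul c x _ hx =>
          obtain ⟨Q, hQ, rfl⟩ := hx
          refine ⟨c • Q, ?_, by rw [map_smul]⟩
          rw [smul_eq_C_mul]
          have := (isHomogeneous_C ι c).mul hQ
          rwa [zero_add] at this
      obtain ⟨Q, hQ, rfl⟩ := h2
      exact ⟨P * Q, hP.mul hQ, map_mul _ _ _⟩
    | add x _ y _ hx hy =>
      obtain ⟨Q, hQ, rfl⟩ := hx
      obtain ⟨Q', hQ', rfl⟩ := hy
      exact ⟨Q + Q', hQ.add hQ', map_add _ _ _⟩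

/-- Noether normalization of the coordinate ring of the cone over `V`. -/
theorem exists_noether [Fintype ι] [Infinite k] [Infinite K] (V : Set (PSpace k ι))
    (hV : V.Nonempty) :
    ∃ (m N : ℕ) (T : Fin (m + 1) → ι → K) (R : (ι →₀ ℕ) → Fin (m + 1) → MvPolynomial ι K),
      (∀ α l, (R α l).IsHomogeneous N) ∧
      (∀ w ∈ cone V, ∀ α : ι →₀ ℕ, α.degree = N + 1 →
        ∏ i, w i ^ α i = ∑ l, (∑ i, algebraMap K k (T l i) * w i) * aeval w (R α l)) ∧
      ∀ Φ : MvPolynomial (Fin (m + 1)) K,
        (∀ w ∈ cone V, aeval (fun l => ∑ i, algebraMap K k (T l i) * w i) Φ = 0) → Φ = 0 := by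
  classical
  let I : Ideal (MvPolynomial ι K) := vanishingIdeal K (cone V)
  obtain ⟨x0, hx0⟩ := hV
  have hx0c : x0.rep ∈ cone V := by
    intro h
    rw [Projectivization.mk_rep]
    exact hx0
  have hI : I ≠ ⊤ := by
    intro h
    have h1 : (1 : MvPolynomial ι K) ∈ I := by rw [h]; exact Submodule.mem_top
    have h2 := (mem_vanishingIdeal_iff.1 h1) x0.rep hx0c
    rw [map_one] at h2
    exact one_ne_zero h2
  have : Nontrivial (MvPolynomial ι K ⧸ I) := Ideal.Quotient.nontrivial_iff.2 hI
  let z : ι → MvPolynomial ι K ⧸ I := fun i => Ideal.Quotient.mk I (X i)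
  have hz : ∀ G : MvPolynomial ι K, aeval z G = Ideal.Quotient.mk I G := by
    intro G
    have h1 : (aeval z : MvPolynomial ι K →ₐ[K] _) = Ideal.Quotient.mkₐ K I := by
      apply algHom_ext
      intro i
      rw [aeval_X]
      rfl
    rw [h1]
    rfl
  have hzI : ∀ G : MvPolynomial ι K, aeval z G = 0 ↔ G ∈ I := by
    intro G
    rw [hz, Ideal.Quotient.eq_zero_iff_mem]
  obtain ⟨D, v, hind, N, hN⟩ := Pool.Agent.Y978.GS.nn K (MvPolynomial ι K ⧸ I) ι z (by
    intro G hG d
    rw [hzI] at hG ⊢
    exact comp_mem_vanishing hG d)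
  -- the relations
  have hrel : ∀ α : ι →₀ ℕ, ∃ R : Fin D → MvPolynomial ι K, (∀ l, (R l).IsHomogeneous N) ∧
      (α.degree = N + 1 → (∏ i, X i ^ α i) - ∑ l, (∑ i, C (v l i) * X i) * R l ∈ I) := by
    intro α
    by_cases hα : α.degree = N + 1
    · have h0 : ∀ s : Finset ι, (∏ i ∈ s, z i ^ α i) ∈
          (Pool.Agent.Y234.GS.VV K z) ^ (∑ i ∈ s, α i) := by
        intro s
        induction s using Finset.induction_on with
        | empty =>
          rw [Finset.prod_empty, Finset.sum_empty, pow_zero]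
          exact Submodule.one_le.1 le_rfl
        | insert i s hi ih =>
          rw [Finset.prod_insert hi, Finset.sum_insert hi, pow_add]
          exact Submodule.mul_mem_mul
            (Submodule.pow_mem_pow _ (Submodule.subset_span (Set.mem_range_self i)) _) ih
      have h1 : (∏ i, z i ^ α i) ∈ (Pool.Agent.Y234.GS.VV K z) ^ (N + 1) := by
        rw [← hα, Finsupp.degree_eq_sum]
        exact h0 Finset.univ
      obtain ⟨r, hr, hr2⟩ := hN _ h1
      choose R hR hR2 using fun l => mem_VV_pow z N (hr l)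
      refine ⟨R, hR, fun _ => ?_⟩
      rw [← hzI, map_sub, map_prod, map_sum]
      simp only [map_pow, aeval_X, map_mul, map_sum, aeval_C, hR2]
      rw [hr2, sub_eq_zero]
      refine Finset.sum_congr rfl (fun l _ => ?_)
      congr 1
      exact Finset.sum_congr rfl (fun i _ => Algebra.smul_def _ _)
    · exact ⟨0, fun _ => isHomogeneous_zero _ _ _, fun h => absurd h hα⟩
  choose R hR hR2 using hrel
  have heval : ∀ w ∈ cone V, ∀ α : ι →₀ ℕ, α.degree = N + 1 →
      ∏ i, w i ^ α i = ∑ l, (∑ i, algebraMap K k (v l i) * w i) * aeval w (R α l) := by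
    intro w hw α hα
    have h1 := (mem_vanishingIdeal_iff.1 (hR2 α hα)) w hw
    rw [map_sub, map_prod, map_sum, sub_eq_zero] at h1
    simpa only [map_pow, aeval_X, map_mul, map_sum, aeval_C] using h1
  have hind' : ∀ Φ : MvPolynomial (Fin D) K,
      (∀ w ∈ cone V, aeval (fun l => ∑ i, algebraMap K k (v l i) * w i) Φ = 0) → Φ = 0 := by
    intro Φ hΦ
    refine (algebraicIndependent_iff.1 hind) Φ ?_
    have h2 : ∀ θ : Fin D → MvPolynomial ι K ⧸ I, (∀ l, θ l = ∑ i, algebraMap K _ (v l i) * z i) →
        aeval θ Φ = aeval z (aeval (fun l => ∑ i, C (v l i) * X i) Φ) := by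
      intro θ hθ
      rw [← AlgHom.comp_apply, comp_aeval]
      congr 2
      funext l
      simp only [map_sum, map_mul, aeval_C, aeval_X]
      exact hθ l
    rw [h2 _ (fun l => Finset.sum_congr rfl (fun i _ => Algebra.smul_def _ _)), hzI,
      mem_vanishingIdeal_iff]
    intro w hw
    rw [← AlgHom.comp_apply, comp_aeval, ← hΦ w hw]
    congr 2
    funext l
    simp
  -- `D` is positive
  obtain ⟨m, rfl⟩ : ∃ m, D = m + 1 := by
    rcases D with _ | m
    · exfalso
      obtain ⟨i, hi⟩ := Function.ne_iff.1 x0.rep_nonzero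
      have h1 := heval x0.rep hx0c (Finsupp.single i (N + 1)) (by simp)
      rw [Finset.prod_eq_single i] at h1
      · simp only [Finsupp.single_eq_same, Finset.univ_eq_empty, Finset.sum_empty] at h1
        exact pow_ne_zero _ hi h1
      · intro j _ hj
        rw [Finsupp.single_eq_of_ne hj, pow_zero]
      · intro h
        exact absurd (Finset.mem_univ i) h
    · exact ⟨m, rfl⟩
  exact ⟨m, N, v, R, hR, heval, hind'⟩

end Pool.Agent.T6.H19.KS
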