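import Pool.Agent.T6.H19.KS.Ht

/-!
The product formula inequality.
-/

set_option autoImplicit false

namespace Pool.Agent.T6.H19.KS

open NumberField IsDedekindDomain Function

variable {K : Type} [Field K] [NumberField K] {ι : Type} [Fintype ι]

theorem sup_mulSupport {w : ι → K} (hw : w ≠ 0) :
    HasFiniteMulSupport (fun v : FinitePlace K => ⨆ i, v (w i)) := by
  classical
  have h1 : (mulSupport fun v : FinitePlace K => ⨆ i, v (w i)) ⊆
      ⋃ i : {i // w i ≠ 0}, mulSupport fun v : FinitePlace K => v (w i) := by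
    intro v hv
    by_contra hcon
    simp only [Set.mem_iUnion, not_exists, mem_mulSupport, not_not] at hcon
    apply hv
    obtain ⟨i, hi⟩ := Function.ne_iff.1 hw
    have : Nonempty ι := ⟨i⟩
    apply le_antisymm
    · refine ciSup_le (fun j => ?_)
      by_cases hj : w j = 0
      · rw [hj, map_zero]
        exact zero_le_one
      · exact (hcon ⟨j, hj⟩).le
    · rw [← hcon ⟨i, hi⟩]
      exact le_ciSup (f := fun i => v (w i)) (Set.finite_range _).bddAbove i
  exact (Set.finite_iUnion (fun i : {i // w i ≠ 0} =>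
    FinitePlace.hasFiniteMulSupport i.2)).subset h1

theorem product_bound (v0 : FinitePlace K) {w w' : ι → K} (hw : w ≠ 0) (hw' : w' ≠ 0)
    {a b : ℕ} {α : K} (hα : α ≠ 0) {C δ : ℝ} (hC : 0 ≤ C) (h0 : v0 α ≤ δ)
    (hw0 : ⨆ i, v0 (w i) = 1) (hw0' : ⨆ i, v0 (w' i) = 1)
    (hf : ∀ v : FinitePlace K, v α ≤ (⨆ i, v (w i)) ^ b * (⨆ i, v (w' i)) ^ a)
    (hi : ∀ v : InfinitePlace K, v α ≤ C * ((⨆ i, v (w i)) ^ b * (⨆ i, v (w' i)) ^ a)) :
    1 ≤ C ^ Module.finrank ℚ K * (Height.mulHeight w ^ b * Height.mulHeight w' ^ a) * δ := by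
  classical
  have hsup : ∀ (v : InfinitePlace K) (z : ι → K), 0 ≤ ⨆ i, v (z i) := fun v z =>
    Real.iSup_nonneg (fun i => apply_nonneg v _)
  have hsup' : ∀ (v : FinitePlace K) (z : ι → K), 0 ≤ ⨆ i, v (z i) := fun v z =>
    Real.iSup_nonneg (fun i => apply_nonneg v _)
  have hinf : ∏ v : InfinitePlace K, v α ^ v.mult ≤ C ^ Module.finrank ℚ K *
      ((∏ v : InfinitePlace K, (⨆ i, v (w i)) ^ v.mult) ^ b *
        (∏ v : InfinitePlace K, (⨆ i, v (w' i)) ^ v.mult) ^ a) := by
    calc ∏ v : InfinitePlace K, v α ^ v.mult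
        ≤ ∏ v : InfinitePlace K, (C * ((⨆ i, v (w i)) ^ b * (⨆ i, v (w' i)) ^ a)) ^ v.mult := by
          refine Finset.prod_le_prod (fun v _ => pow_nonneg (apply_nonneg v _) _) (fun v _ => ?_)
          exact pow_le_pow_left₀ (apply_nonneg v _) (hi v) _
      _ = _ := by
          rw [← InfinitePlace.sum_mult_eq, ← Finset.prod_pow_eq_pow_sum, ← Finset.prod_pow,
            ← Finset.prod_pow, ← Finset.prod_mul_distrib, ← Finset.prod_mul_distrib]
          refine Finset.prod_congr rfl (fun v _ => ?_)
          ring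
  let ind : FinitePlace K → ℝ := fun v => if v = v0 then δ else 1
  have hind : ∏ᶠ v, ind v = δ := by
    rw [finprod_eq_single ind v0 (fun v hv => if_neg hv)]
    exact if_pos rfl
  have hindf : HasFiniteMulSupport ind := by
    refine (Set.finite_singleton v0).subset (fun v hv => ?_)
    by_contra h
    exact hv (if_neg h)
  have hs1 := sup_mulSupport hw
  have hs2 := sup_mulSupport hw'
  have hs1b : HasFiniteMulSupport (fun v : FinitePlace K => (⨆ i, v (w i)) ^ b) :=
    hs1.subset (fun v hv h => hv (by simp only [h, one_pow]))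
  have hs2a : HasFiniteMulSupport (fun v : FinitePlace K => (⨆ i, v (w' i)) ^ a) :=
    hs2.subset (fun v hv h => hv (by simp only [h, one_pow]))
  have hs12 : HasFiniteMulSupport
      (fun v : FinitePlace K => (⨆ i, v (w i)) ^ b * (⨆ i, v (w' i)) ^ a) :=
    (hs1b.union hs2a).subset (fun v hv => by
      by_contra h
      simp only [Set.mem_union, not_or, mem_mulSupport, not_not] at h
      exact hv (by simp only [h.1, h.2, one_mul]))
  have hfin : ∏ᶠ v : FinitePlace K, v α ≤ ((∏ᶠ v : FinitePlace K, ⨆ i, v (w i)) ^ b *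
      (∏ᶠ v : FinitePlace K, ⨆ i, v (w' i)) ^ a) * δ := by
    calc ∏ᶠ v : FinitePlace K, v α
        ≤ ∏ᶠ v : FinitePlace K, ((⨆ i, v (w i)) ^ b * (⨆ i, v (w' i)) ^ a) * ind v := by
          refine finprod_le_finprod (FinitePlace.hasFiniteMulSupport hα)
            (fun v => apply_nonneg v _) ?_ (fun v => ?_)
          · exact (hs12.union hindf).subset (fun v hv => by
              by_contra h
              simp only [Set.mem_union, not_or, mem_mulSupport, not_not] at h
              exact hv (by simp only [h.1, h.2, one_mul]))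
          · by_cases hv : v = v0
            · subst hv
              simp only [ind, if_true]
              rw [hw0, hw0', one_pow, one_pow, one_mul, one_mul]
              exact h0
            · simp only [ind, if_neg hv, mul_one]
              exact hf v
      _ = _ := by
          rw [finprod_mul_distrib hs12 hindf, hind, finprod_mul_distrib hs1b hs2a,
            finprod_pow hs1, finprod_pow hs2]
  have h1 := prod_abs_eq_one hα
  rw [← h1, NumberField.mulHeight_eq hw, NumberField.mulHeight_eq hw']
  calc (∏ v : InfinitePlace K, v α ^ v.mult) * ∏ᶠ v : FinitePlace K, v α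
      ≤ (C ^ Module.finrank ℚ K *
      ((∏ v : InfinitePlace K, (⨆ i, v (w i)) ^ v.mult) ^ b *
        (∏ v : InfinitePlace K, (⨆ i, v (w' i)) ^ v.mult) ^ a)) *
        (((∏ᶠ v : FinitePlace K, ⨆ i, v (w i)) ^ b *
      (∏ᶠ v : FinitePlace K, ⨆ i, v (w' i)) ^ a) * δ) := by
        refine mul_le_mul hinf hfin (finprod_nonneg (fun v => apply_nonneg v _)) ?_
        have := fun z : ι → K => Finset.prod_nonneg
          (fun (v : InfinitePlace K) (_ : v ∈ Finset.univ) => pow_nonneg (hsup v z) v.mult)
        exact mul_nonneg (pow_nonneg hC _) (mul_nonneg (pow_nonneg (this w) _)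
          (pow_nonneg (this w') _))
    _ = _ := by ring

end Pool.Agent.T6.H19.KS
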