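import Mathlib

/-!
Sequences satisfying a linear recurrence up to small errors: uniform bounds below a spectral gap.
-/

set_option autoImplicit false

namespace Pool.Agent.T6.H19.KS

/-- `(σ - λ) y` -/
def dif (l : ℂ) (y : ℕ → ℂ) : ℕ → ℂ := fun n => y (n + 1) - l * y n

/-- The product of the operators `σ - λ`, `λ` in the list. -/
def opl : List ℂ → (ℕ → ℂ) → ℕ → ℂ
  | [], y => y
  | l :: L, y => opl L (dif l y)

/-- Admissible weights. -/
def IsWt (ρ₁ ρ₂ : ℝ) (W : ℕ → ℝ) : Prop :=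
  (∀ n, 0 < W n) ∧ ∀ n, ρ₁ * W n ≤ W (n + 1) ∧ W (n + 1) ≤ ρ₂ * W n

theorem wt_mono {ρ₁ ρ₂ : ℝ} (h1 : 1 ≤ ρ₁) {W : ℕ → ℝ} (hW : IsWt ρ₁ ρ₂ W) (n : ℕ) :
    W 0 ≤ W n := by
  induction n with
  | zero => exact le_rfl
  | succ n ih =>
    have h2 := (hW.2 n).1
    have h3 := hW.1 n
    nlinarith

theorem solve_small {ν ρ₁ ρ₂ : ℝ} {l : ℂ} (hl : ‖l‖ ≤ ν) {W : ℕ → ℝ}
    (hW : IsWt ρ₁ ρ₂ W) {u : ℕ → ℂ} {B M : ℝ} (h0 : ‖u 0‖ ≤ M * W 0)
    (hM : B ≤ (ρ₁ - ν) * M) (hu : ∀ n, ‖dif l u n‖ ≤ B * W n) (n : ℕ) : ‖u n‖ ≤ M * W n := by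
  have hM0 : 0 ≤ M := by
    have h1 := hW.1 0
    by_contra hcon
    push Not at hcon
    have h2 : M * W 0 < 0 := mul_neg_of_neg_of_pos hcon h1
    exact absurd (norm_nonneg (u 0)) (by linarith)
  induction n with
  | zero => exact h0
  | succ n ih =>
    have h1 : u (n + 1) = dif l u n + l * u n := by
      rw [dif]
      ring
    have hWn := hW.1 n
    calc ‖u (n + 1)‖ ≤ ‖dif l u n‖ + ‖l‖ * ‖u n‖ := by
          rw [h1]
          refine (norm_add_le _ _).trans ?_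
          rw [norm_mul]
      _ ≤ B * W n + ν * (M * W n) := by
          refine add_le_add (hu n) ?_
          exact mul_le_mul hl ih (norm_nonneg _) ((norm_nonneg _).trans hl)
      _ ≤ ρ₁ * M * W n := by nlinarith
      _ = M * (ρ₁ * W n) := by ring
      _ ≤ M * W (n + 1) := mul_le_mul_of_nonneg_left (hW.2 n).1 hM0

theorem solve_large {μ ρ₁ ρ₂ : ℝ} (hρ2 : 0 < ρ₂) (hμρ : ρ₂ < μ) {l : ℂ} (hl : μ ≤ ‖l‖) {W : ℕ → ℝ}
    (hW : IsWt ρ₁ ρ₂ W) {u : ℕ → ℂ} {B K : ℝ} (hK : ∀ n, ‖u n‖ ≤ K * W n)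
    (hu : ∀ n, ‖dif l u n‖ ≤ B * W n) (n : ℕ) : ‖u n‖ ≤ B / (μ - ρ₂) * W n := by
  have hμ0 : 0 < μ := hρ2.trans hμρ
  have hB : 0 ≤ B := by
    have h1 := hW.1 0
    have h2 := (norm_nonneg _).trans (hu 0)
    by_contra hcon
    push Not at hcon
    exact absurd h2 (not_le.2 (mul_neg_of_neg_of_pos hcon h1))
  set K' : ℝ := ⨆ n, ‖u n‖ / W n with hK'
  have hbdd : BddAbove (Set.range fun n => ‖u n‖ / W n) := by
    refine ⟨K, ?_⟩
    rintro _ ⟨n, rfl⟩
    exact (div_le_iff₀ (hW.1 n)).2 (hK n)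
  have hle : ∀ n, ‖u n‖ ≤ K' * W n := by
    intro n
    have h1 := le_ciSup hbdd n
    exact (div_le_iff₀ (hW.1 n)).1 h1
  have hK'0 : 0 ≤ K' := by
    refine Real.iSup_nonneg (fun n => div_nonneg (norm_nonneg _) (hW.1 n).le)
  have h2 : K' ≤ (K' * ρ₂ + B) / μ := by
    refine ciSup_le (fun n => ?_)
    rw [div_le_iff₀ (hW.1 n)]
    have hWn := hW.1 n
    have h3 : l * u n = u (n + 1) - dif l u n := by
      rw [dif]
      ring
    have h4 : ‖l‖ * ‖u n‖ ≤ ‖u (n + 1)‖ + ‖dif l u n‖ := by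
      rw [← norm_mul, h3]
      exact norm_sub_le _ _
    have h5 : ‖u (n + 1)‖ ≤ K' * (ρ₂ * W n) :=
      (hle (n + 1)).trans (mul_le_mul_of_nonneg_left (hW.2 n).2 hK'0)
    have h6 : μ * ‖u n‖ ≤ ‖l‖ * ‖u n‖ := mul_le_mul_of_nonneg_right hl (norm_nonneg _)
    have h7 := hu n
    rw [div_mul_eq_mul_div, le_div_iff₀ hμ0]
    nlinarith
  have h3 : K' ≤ B / (μ - ρ₂) := by
    rw [le_div_iff₀ hμ0] at h2
    rw [le_div_iff₀ (by linarith)]
    linarith
  exact (hle n).trans (mul_le_mul_of_nonneg_right h3 (hW.1 n).le)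

theorem dif_norm_le (l : ℂ) (y : ℕ → ℂ) (n : ℕ) : ‖dif l y n‖ ≤ ‖y (n + 1)‖ + ‖l‖ * ‖y n‖ := by
  rw [dif]
  refine (norm_sub_le _ _).trans ?_
  rw [norm_mul]

theorem opl_bound {ν μ ρ₁ ρ₂ : ℝ} (hν : 0 ≤ ν) (hνρ : ν < ρ₁) (hρ : ρ₁ ≤ ρ₂) (hμρ : ρ₂ < μ)
    (L : List ℂ) : (∀ l ∈ L, ‖l‖ ≤ ν ∨ μ ≤ ‖l‖) →
    ∃ C : ℝ, 0 ≤ C ∧ ∀ (W : ℕ → ℝ), IsWt ρ₁ ρ₂ W → ∀ (y : ℕ → ℂ) (B : ℝ), 0 ≤ B →
      (∃ K : ℝ, ∀ n, ‖y n‖ ≤ K * W n) → (∀ i ≤ L.length, ‖y i‖ ≤ B * W 0) →
      (∀ n, ‖opl L y n‖ ≤ B * W n) → ∀ n, ‖y n‖ ≤ C * B * W n := by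
  have hρ1 : 0 < ρ₁ := hν.trans_lt hνρ
  have hρ2 : 0 < ρ₂ := hρ1.trans_le hρ
  induction L with
  | nil =>
    intro _
    refine ⟨1, zero_le_one, fun W hW y B _ _ _ h n => ?_⟩
    rw [one_mul]
    exact h n
  | cons l L ih =>
    intro hL
    obtain ⟨C, hC0, hC⟩ := ih (fun l' hl' => hL l' (List.mem_cons_of_mem _ hl'))
    refine ⟨1 + C * (1 + ‖l‖) / (ρ₁ - ν) + C * (1 + ‖l‖) / (μ - ρ₂), ?_,
      fun W hW y B hB hK hi hop n => ?_⟩
    · have h1 : 0 ≤ C * (1 + ‖l‖) / (ρ₁ - ν) := by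
        apply div_nonneg (by positivity) (by linarith)
      have h2 : 0 ≤ C * (1 + ‖l‖) / (μ - ρ₂) := by
        apply div_nonneg (by positivity) (by linarith)
      linarith
    · obtain ⟨K, hK⟩ := hK
      have hK0 : 0 ≤ K := by
        have h1 := (norm_nonneg _).trans (hK 0)
        by_contra hcon
        push Not at hcon
        exact absurd h1 (not_le.2 (mul_neg_of_neg_of_pos hcon (hW.1 0)))
      have hl1 : 1 ≤ 1 + ‖l‖ := by linarith [norm_nonneg l]
      have hdif : ∀ n, ‖dif l y n‖ ≤ C * ((1 + ‖l‖) * B) * W n := by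
        refine hC W hW (dif l y) ((1 + ‖l‖) * B) (by positivity) ⟨K * ρ₂ + ‖l‖ * K, fun n => ?_⟩
          (fun i hi' => ?_) (fun n => ?_)
        · refine (dif_norm_le l y n).trans ?_
          have h1 : ‖y (n + 1)‖ ≤ K * (ρ₂ * W n) :=
            (hK (n + 1)).trans (mul_le_mul_of_nonneg_left (hW.2 n).2 hK0)
          have h2 : ‖l‖ * ‖y n‖ ≤ ‖l‖ * (K * W n) :=
            mul_le_mul_of_nonneg_left (hK n) (norm_nonneg _)
          calc _ ≤ K * (ρ₂ * W n) + ‖l‖ * (K * W n) := add_le_add h1 h2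
            _ = _ := by ring
        · refine (dif_norm_le l y i).trans ?_
          have h1 := hi (i + 1) (by simpa using hi')
          have h2 : ‖l‖ * ‖y i‖ ≤ ‖l‖ * (B * W 0) :=
            mul_le_mul_of_nonneg_left (hi i (by simp; omega)) (norm_nonneg _)
          calc _ ≤ B * W 0 + ‖l‖ * (B * W 0) := add_le_add h1 h2
            _ = _ := by ring
        · refine (hop n).trans ?_
          have h1 : B * W n ≤ (1 + ‖l‖) * B * W n := by
            have h2 : 0 ≤ B * W n := mul_nonneg hB (hW.1 n).le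
            have h3 := mul_le_mul_of_nonneg_right hl1 h2
            linarith
          exact h1
      have hA : 0 ≤ C * (1 + ‖l‖) / (ρ₁ - ν) := div_nonneg (by positivity) (by linarith)
      have hA' : 0 ≤ C * (1 + ‖l‖) / (μ - ρ₂) := div_nonneg (by positivity) (by linarith)
      have hWn := hW.1 n
      rcases hL l List.mem_cons_self with h | h
      · have h1 := solve_small (M := (1 + C * (1 + ‖l‖) / (ρ₁ - ν)) * B) h hW
          (by
            refine (hi 0 (Nat.zero_le _)).trans ?_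
            refine mul_le_mul_of_nonneg_right ?_ (hW.1 0).le
            nlinarith) (by
            have h2 : (ρ₁ - ν) * ((1 + C * (1 + ‖l‖) / (ρ₁ - ν)) * B) =
                (ρ₁ - ν) * B + C * ((1 + ‖l‖) * B) := by
              have h3 : ρ₁ - ν ≠ 0 := by linarith
              field_simp
            rw [h2]
            nlinarith) hdif n
        refine h1.trans ?_
        refine mul_le_mul_of_nonneg_right ?_ hWn.le
        refine mul_le_mul_of_nonneg_right ?_ hB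
        linarith
      · have h1 := solve_large hρ2 hμρ h hW hK hdif n
        refine h1.trans ?_
        refine mul_le_mul_of_nonneg_right ?_ hWn.le
        have h2 : C * ((1 + ‖l‖) * B) / (μ - ρ₂) = C * (1 + ‖l‖) / (μ - ρ₂) * B := by ring
        rw [h2]
        refine mul_le_mul_of_nonneg_right ?_ hB
        linarith

/-- The shift. -/
noncomputable def sh : Module.End ℂ (ℕ → ℂ) := LinearMap.funLeft ℂ ℂ (fun n => n + 1)

theorem sh_apply (y : ℕ → ℂ) (n : ℕ) : sh y n = y (n + 1) := rfl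

theorem sh_pow_apply (i : ℕ) (y : ℕ → ℂ) (n : ℕ) : (sh ^ i) y n = y (n + i) := by
  induction i generalizing n with
  | zero => rfl
  | succ i ih =>
    rw [pow_succ', Module.End.mul_apply, sh_apply, ih]
    congr 1
    ring

open Polynomial in
theorem opl_eq (L : List ℂ) (y : ℕ → ℂ) :
    opl L y = aeval sh ((L.map fun l => X - C l).prod) y := by
  induction L generalizing y with
  | nil => simp [opl]
  | cons l L ih =>
    rw [opl, ih, List.map_cons, List.prod_cons, mul_comm, map_mul, Module.End.mul_apply]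
    congr 1
    funext n
    rw [map_sub, aeval_X, aeval_C, LinearMap.sub_apply, Pi.sub_apply, sh_apply, dif,
      Module.algebraMap_end_apply, Pi.smul_apply, smul_eq_mul]

open Polynomial in
theorem exists_list {d : ℕ} (a : Fin d → ℝ) : ∃ L : List ℂ, L.length = d ∧
    ∀ y : ℕ → ℂ, ∀ n, opl L y n = y (n + d) - ∑ i : Fin d, (a i : ℂ) * y (n + i) := by
  classical
  set p : ℂ[X] := X ^ d - ∑ i : Fin d, C (a i : ℂ) * X ^ (i : ℕ) with hp
  have hdeg : (∑ i : Fin d, C (a i : ℂ) * X ^ (i : ℕ)).degree < (d : WithBot ℕ) :=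
    degree_sum_fin_lt _
  have hmonic : p.Monic := monic_X_pow_sub hdeg
  have hnat : p.natDegree = d := by
    apply natDegree_eq_of_degree_eq_some
    rw [hp, degree_sub_eq_left_of_degree_lt, degree_X_pow]
    rw [degree_X_pow]
    exact hdeg
  have hs := IsAlgClosed.splits p
  refine ⟨p.roots.toList, ?_, fun y n => ?_⟩
  · rw [Multiset.length_toList, ← hs.natDegree_eq_card_roots, hnat]
  · rw [opl_eq]
    have h1 : (p.roots.toList.map fun l => X - C l).prod = p := by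
      rw [← Multiset.prod_coe, ← Multiset.map_coe, Multiset.coe_toList]
      exact (hs.eq_prod_roots_of_monic hmonic).symm
    rw [h1, hp, map_sub, map_sum]
    simp only [map_mul, map_pow, aeval_X, aeval_C, LinearMap.sub_apply, Pi.sub_apply,
      LinearMap.sum_apply, Finset.sum_apply, Module.End.mul_apply, sh_pow_apply,
      Module.algebraMap_end_apply, Pi.smul_apply, smul_eq_mul]

end Pool.Agent.T6.H19.KS
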